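import Pool.Agent.Lib.MP_a7239a_co.RX.NUMX

/-!
# The explicit formula up to 4, module LOCL: the reserved rows are inside the quantile interval
-/

set_option autoImplicit false

open Finset

namespace Pool.Agent.Lib.MPa7239a.RX

open Pool.Agent.Lib.MPa7239a.RB
open Pool.Agent.Lib.MPa7239a.RH
open Pool.Agent.Lib.MPa7239a.RF (exc excess pos pos_cast pos_ge pos_lt pos_of pos_inj mem_near_iff GameF ww)

section
variable {o : ℕ} [NeZero o] {r : ZMod o → ℕ} {M s n c q L D θ : ℕ}

/-- an eighth of the window contains more than `c` elements of `r - R` -/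
theorem eighth (N : NumX r M s n c q L D) (hr : ∀ u, r u ≤ M * s) (hL : 1000000 * (L + 1) ≤ M)
    (hθ : 1000 * θ ≤ M) (hc : M + 5 ≤ c) (ho : M < o) (hq : 1000 ≤ q) {R : ZMod o → ℕ}
    (hR8 : ∀ u, R u ≤ 8) {S : Finset ℕ} (hS : S ⊆ range (q + 1)) (hS8 : q ≤ 8 * #S)
    {T : Finset (ZMod o)} (hT : ∀ i ∈ S, (i : ZMod o) ∈ T) : c ≤ ∑ u ∈ T, (r u - R u) := by
  have h1 := nf_fat N hr hL hθ hc hq
  have h2 := nf_c N hr hL hc ho
  have h3 := N.o_large
  set B := (range (q + 1)).filter (fun i : ℕ => 2 * r (i : ZMod o) < M * s + θ) with hB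
  have hinj : Set.InjOn (fun i : ℕ => (i : ZMod o)) (S \ B : Finset ℕ) := by
    intro i hi j hj hij
    have hi' := mem_range.1 (hS (mem_sdiff.1 (mem_coe.1 hi)).1)
    have hj' := mem_range.1 (hS (mem_sdiff.1 (mem_coe.1 hj)).1)
    by_contra hne
    refine N.cast_ne (i := (i : ℤ)) (j := (j : ℤ)) (by exact_mod_cast hne) ?_ (by exact_mod_cast hij)
    rw [abs_lt]
    constructor <;> omega
  have h4 : ∑ u ∈ (S \ B).image (fun i : ℕ => (i : ZMod o)), (r u - R u) ≤ ∑ u ∈ T, (r u - R u) := by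
    refine sum_le_sum_of_subset ?_
    intro u hu
    obtain ⟨i, hi, rfl⟩ := mem_image.1 hu
    exact hT i (mem_sdiff.1 hi).1
  refine le_trans ?_ h4
  rw [sum_image hinj]
  have h5 : #(S \ B) • ((M - 16) / 2) ≤ ∑ i ∈ S \ B, (r (i : ZMod o) - R (i : ZMod o)) := by
    refine card_nsmul_le_sum _ _ _ fun i hi => ?_
    have h6 := (mem_sdiff.1 hi).2
    rw [hB, mem_filter, not_and] at h6
    have h7 := h6 (hS (mem_sdiff.1 hi).1)
    have h8 := hR8 (i : ZMod o)
    have h9 : M ≤ M * s := Nat.le_mul_of_pos_right _ N.s1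
    omega
  refine le_trans ?_ h5
  rw [smul_eq_mul]
  have h6 : #S ≤ #(S \ B) + #B := by
    have := le_card_sdiff B S
    omega
  have h7 : 121 ≤ #(S \ B) := by omega
  have h8 := N.M_pos
  calc c ≤ 121 * ((M - 16) / 2) := by omega
    _ ≤ #(S \ B) * ((M - 16) / 2) := Nat.mul_le_mul_right _ h7

theorem loc_l (N : NumX r M s n c q L D) (hr : ∀ u, r u ≤ M * s) (hL : 1000000 * (L + 1) ≤ M)
    (hθ : 1000 * θ ≤ M) (hc : M + 5 ≤ c) (ho : M < o) (hq : 1000 ≤ q) {R : ZMod o → ℕ}
    (hR8 : ∀ u, R u ≤ 8) (hR : ∀ u, R u ≠ 0 → (q : ℤ) ≤ 8 * pos o q u ∧ 8 * pos o q u ≤ 7 * q)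
    {c' : ℕ} (hcc : c = c' + 5) {i₀ i₁ : ℤ}
    (h0 : ∑ u with pos o q u < i₀, (r u - R u) < c')
    (h1 : ∑ u with i₁ < pos o q u, (r u - R u) < c') :
    ∀ u, R u ≠ 0 → i₀ ≤ pos o q u ∧ pos o q u ≤ i₁ := by
  intro u hu
  obtain ⟨h2, h3⟩ := hR u hu
  have h4 := N.o_large
  have hpos : ∀ i : ℕ, i ≤ q → pos o q (i : ZMod o) = (i : ℤ) := by
    intro i hi
    have h5 := pos_of (o := o) q (i := (i : ℤ)) (by omega) (by omega)
    rwa [Int.cast_natCast] at h5
  constructor
  · by_contra hcon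
    rw [not_le] at hcon
    have h5 := eighth N hr hL hθ hc ho hq hR8 (S := range ((q + 7) / 8))
      (range_subset_range.2 (by omega)) (by rw [card_range]; omega)
      (T := univ.filter (fun u => pos o q u < i₀)) (fun i hi => by
        rw [mem_range] at hi
        rw [mem_filter, hpos i (by omega)]
        exact ⟨mem_univ _, by omega⟩)
    omega
  · by_contra hcon
    rw [not_le] at hcon
    have h5 := eighth N hr hL hθ hc ho hq hR8
      (S := (range ((q + 7) / 8)).image (fun i => q - i))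
      (fun i hi => by
        obtain ⟨j, _, rfl⟩ := mem_image.1 hi
        rw [mem_range]
        omega)
      (by
        rw [card_image_of_injOn, card_range]
        · omega
        · intro i hi j hj hij
          rw [mem_coe, mem_range] at hi hj
          simp only at hij
          omega)
      (T := univ.filter (fun u => i₁ < pos o q u)) (fun i hi => by
        obtain ⟨j, hj, rfl⟩ := mem_image.1 hi
        rw [mem_range] at hj
        rw [mem_filter, hpos (q - j) (by omega)]
        exact ⟨mem_univ _, by omega⟩)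
    omega

end

end Pool.Agent.Lib.MPa7239a.RX
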