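import Pool.Agent.Lib.MP_a7239a_co.RX.NUMX
import Pool.Agent.Lib.MP_a7239a_co.RF.RES

/-!
# RX, module RESL: the reserved elements for `q ≥ 1000`
-/

set_option autoImplicit false

open Finset

namespace Pool.Agent.Lib.MPa7239a.RX

open Pool.Agent.Lib.MPa7239a.RB
open Pool.Agent.Lib.MPa7239a.RH
open Pool.Agent.Lib.MPa7239a.RF (exc excess pos pos_cast pos_ge pos_lt pos_of pos_inj mem_near_iff GameF ww)

namespace RESL

section

variable {o : ℕ} [NeZero o]

/-- the reserve in many rows -/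
theorem many_rows {r : ZMod o → ℕ} {q h : ℕ} (hqo : q < o) (hq : 1000 ≤ q) (hh : 16 ≤ h)
    (hfew : 1000 * #((range (q + 1)).filter (fun i : ℕ => 2 * r (i : ZMod o) < h)) ≤ 3000 + q) :
    ∃ (R : ZMod o → ℕ) (α : ℤ), (∀ u, R u ≤ 8) ∧ (∀ u, R u ≤ r u) ∧
      (∀ u, R u ≠ 0 → (q : ℤ) ≤ 8 * pos o q u ∧ 8 * pos o q u ≤ 7 * q) ∧
      ∀ y : ℕ, y ≤ q + q / 4 → ∃ d : ZMod o → ℕ, (∀ u, d u ≤ R u) ∧ ∑ u, d u = 5 ∧
        ∑ u, (d u : ℤ) * pos o q u = α + y ∧
        ∃ u, h ≤ 2 * r u ∧ 3 ≤ d u ∧ d u + 3 ≤ R u := by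
  classical
  obtain ⟨a, ha⟩ : ∃ a, a = (q + 7) / 8 := ⟨_, rfl⟩
  obtain ⟨b, hb⟩ : ∃ b, b = 7 * q / 8 := ⟨_, rfl⟩
  set P : Finset ℕ := (Icc a b).filter (fun i : ℕ => h ≤ 2 * r (i : ZMod o)) with hP
  have hPm : ∀ i, i ∈ P ↔ (a ≤ i ∧ i ≤ b) ∧ h ≤ 2 * r (i : ZMod o) := by
    intro i
    rw [hP, mem_filter, mem_Icc]
  have hPq : ∀ i ∈ P, i ≤ q := by
    intro i hi
    have := ((hPm i).1 hi).1.2
    omega
  have hg : 1000 * #(Icc a b \ P) ≤ 3000 + q := by
    refine le_trans (Nat.mul_le_mul_left _ (card_le_card ?_)) hfew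
    intro i hi
    rw [mem_sdiff, mem_Icc, hPm] at hi
    rw [mem_filter, mem_range]
    refine ⟨by omega, ?_⟩
    by_contra hcon
    exact hi.2 ⟨hi.1, by omega⟩
  set g := #(Icc a b \ P) with hgd
  obtain ⟨p₀, hp₀, -⟩ := RF.RESM.pair_sum (a := a) (b := b) (m := 2 * a + 2 * g) (P := P) le_rfl
    (by omega)
  have hinj : ∀ i ∈ P, ∀ j ∈ P, (i : ZMod o) = (j : ZMod o) → i = j := by
    intro i hi j hj hij
    have h1 := RF.RESM.pos_nat hqo (hPq i hi)
    have h2 := RF.RESM.pos_nat hqo (hPq j hj)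
    rw [hij, h2] at h1
    exact_mod_cast h1.symm
  set Q : Finset (ZMod o) := P.image (fun i : ℕ => (i : ZMod o)) with hQ
  refine ⟨fun u => (if u ∈ Q then 2 else 0) + (if u = (p₀ : ZMod o) then 6 else 0),
    3 * (p₀ : ℤ) + (2 * a + 2 * g : ℕ), ?_, ?_, ?_, ?_⟩
  · intro u
    dsimp only
    split_ifs <;> omega
  · intro u
    dsimp only
    by_cases h1 : u ∈ Q
    · rw [hQ, mem_image] at h1
      obtain ⟨i, hi, rfl⟩ := h1
      have := ((hPm i).1 hi).2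
      split_ifs <;> omega
    · have h2 : u ≠ (p₀ : ZMod o) := by
        rintro rfl
        exact h1 (mem_image.2 ⟨p₀, hp₀, rfl⟩)
      rw [if_neg h1, if_neg h2]
      omega
  · intro u hu
    have h1 : u ∈ Q := by
      by_contra h1
      have h2 : u ≠ (p₀ : ZMod o) := by
        rintro rfl
        exact h1 (mem_image.2 ⟨p₀, hp₀, rfl⟩)
      apply hu
      dsimp only
      rw [if_neg h1, if_neg h2]
    rw [hQ, mem_image] at h1
    obtain ⟨i, hi, rfl⟩ := h1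
    rw [RF.RESM.pos_nat hqo (hPq i hi)]
    have := ((hPm i).1 hi).1
    omega
  · intro y hy
    obtain ⟨x₁, hx₁, x₂, hx₂, hxs⟩ := RF.RESM.pair_sum (a := a) (b := b) (m := 2 * a + 2 * g + y)
      (P := P) (by omega) (by omega)
    have hQ₀ : (p₀ : ZMod o) ∈ Q := mem_image.2 ⟨p₀, hp₀, rfl⟩
    have hQ₁ : (x₁ : ZMod o) ∈ Q := mem_image.2 ⟨x₁, hx₁, rfl⟩
    have hQ₂ : (x₂ : ZMod o) ∈ Q := mem_image.2 ⟨x₂, hx₂, rfl⟩
    refine ⟨fun u => (if u = (p₀ : ZMod o) then 3 else 0) + ((if u = (x₁ : ZMod o) then 1 else 0) +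
      (if u = (x₂ : ZMod o) then 1 else 0)), ?_, ?_, ?_, ?_⟩
    · intro u
      dsimp only
      by_cases h1 : u ∈ Q
      · rw [if_pos h1]
        split_ifs <;> omega
      · rw [if_neg h1, if_neg, if_neg, if_neg]
        · omega
        · rintro rfl
          exact h1 hQ₂
        · rintro rfl
          exact h1 hQ₁
        · rintro rfl
          exact h1 hQ₀
    · rw [sum_add_distrib, sum_add_distrib, sum_ite_eq' univ (p₀ : ZMod o) (fun _ => 3),
        sum_ite_eq' univ (x₁ : ZMod o) (fun _ => 1), sum_ite_eq' univ (x₂ : ZMod o) (fun _ => 1),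
        if_pos (mem_univ _), if_pos (mem_univ _), if_pos (mem_univ _)]
      rfl
    · have e : ∀ u : ZMod o, (((if u = (p₀ : ZMod o) then 3 else 0) +
          ((if u = (x₁ : ZMod o) then 1 else 0) + (if u = (x₂ : ZMod o) then 1 else 0)) : ℕ) :
          ℤ) * pos o q u =
          (if u = (p₀ : ZMod o) then 3 * pos o q u else 0) +
          ((if u = (x₁ : ZMod o) then pos o q u else 0) +
          (if u = (x₂ : ZMod o) then pos o q u else 0)) := by
        intro u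
        push_cast
        rw [add_mul, add_mul]
        congr 1
        · split_ifs <;> ring
        · congr 1 <;> (split_ifs <;> ring)
      rw [sum_congr rfl fun u _ => e u, sum_add_distrib, sum_add_distrib,
        sum_ite_eq' univ (p₀ : ZMod o) (fun u => 3 * pos o q u),
        sum_ite_eq' univ (x₁ : ZMod o) (fun u => pos o q u),
        sum_ite_eq' univ (x₂ : ZMod o) (fun u => pos o q u), if_pos (mem_univ _),
        if_pos (mem_univ _), if_pos (mem_univ _), RF.RESM.pos_nat hqo (hPq _ hp₀),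
        RF.RESM.pos_nat hqo (hPq _ hx₁), RF.RESM.pos_nat hqo (hPq _ hx₂)]
      have h3 : (x₁ : ℤ) + x₂ = ((2 * a + 2 * g + y : ℕ) : ℤ) := by
        rw [← hxs]
        push_cast
        rfl
      rw [h3]
      push_cast
      ring
    · refine ⟨(p₀ : ZMod o), ((hPm p₀).1 hp₀).2, ?_, ?_⟩
      · dsimp only
        rw [if_pos rfl]
        omega
      · dsimp only
        rw [if_pos rfl, if_pos hQ₀, if_pos rfl]
        split_ifs <;> omega

end

end RESL

section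

variable {o : ℕ} [NeZero o] {r : ZMod o → ℕ} {M s n c q L D θ : ℕ}

/-- **RESL.** The reserve for `q ≥ 1000`. -/
theorem reserve_l (N : NumX r M s n c q L D) (hr : ∀ u, r u ≤ M * s) (hL : 1000000 * (L + 1) ≤ M)
    (hθ : 1000 * θ ≤ M) (hc : M + 5 ≤ c) (ho : M < o) (hq : 1000 ≤ q) :
    ∃ (R : ZMod o → ℕ) (α : ℤ), (∀ u, R u ≤ 8) ∧ (∀ u, R u ≤ r u) ∧
      (∀ u, R u ≠ 0 → (q : ℤ) ≤ 8 * pos o q u ∧ 8 * pos o q u ≤ 7 * q) ∧
      ∀ y : ℕ, y ≤ q + q / 4 → ∃ d : ZMod o → ℕ, (∀ u, d u ≤ R u) ∧ ∑ u, d u = 5 ∧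
        ∑ u, (d u : ℤ) * pos o q u = α + y ∧
        ∃ u, M * s + θ ≤ 2 * r u ∧ 3 ≤ d u ∧ d u + 3 ≤ R u := by
  have hs1 := N.s1
  have hMs : M ≤ M * s := Nat.le_mul_of_pos_right _ hs1
  have hqo : q < o := by
    have h1 := N.o_large
    omega
  exact RESL.many_rows hqo hq (by omega) (nf_fat N hr hL hθ hc hq)

end

end Pool.Agent.Lib.MPa7239a.RX
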