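import Pool.Agent.Lib.MP_a7239a_co.RX.CORES
import Pool.Agent.Lib.MP_a7239a_co.RX.RESL
import Pool.Agent.Lib.MP_a7239a_co.RX.LOCL

/-!
# The explicit formula up to 4: the composition for `q ≥ 1000` (module COREL)
-/

set_option autoImplicit false

open Finset

namespace Pool.Agent.Lib.MPa7239a.RX

open Pool.Agent.Lib.MPa7239a.RB
open Pool.Agent.Lib.MPa7239a.RH
open Pool.Agent.Lib.MPa7239a.RF (exc excess pos pos_cast pos_ge pos_lt pos_of pos_inj mem_near_iff GameF ww)

section
variable {o : ℕ} [NeZero o] {r : ZMod o → ℕ} {M s n c q L D θ : ℕ}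

namespace CORELM

/-- sums of positions and sums of classes -/
theorem cast_sum (d : ZMod o → ℕ) :
    ((∑ u, (d u : ℤ) * pos o q u : ℤ) : ZMod o) = ∑ u, d u • u := by
  rw [Int.cast_sum]
  refine sum_congr rfl fun u _ => ?_
  rw [Int.cast_mul, pos_cast, Int.cast_natCast, nsmul_eq_mul]

/-- the number of the reserved elements -/
theorem sum_R (N : NumX r M s n c q L D) {R : ZMod o → ℕ} (hR8 : ∀ u, R u ≤ 8)
    (hR : ∀ u, R u ≠ 0 → (q : ℤ) ≤ 8 * pos o q u ∧ 8 * pos o q u ≤ 7 * q) (T : Finset (ZMod o)) :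
    ∑ u ∈ T, R u ≤ 8 * (q + 3) := by
  have h1 := N.o_large
  have h2 : ∑ u ∈ T, R u ≤ ∑ u ∈ near o q 1, R u := by
    calc ∑ u ∈ T, R u ≤ ∑ u, R u := sum_le_sum_of_subset (subset_univ _)
      _ = ∑ u ∈ near o q 1, R u := by
          refine (sum_subset (subset_univ _) fun u _ hu => ?_).symm
          by_contra hne
          have h3 := hR u hne
          exact hu ((mem_near_iff q (by omega) u).2 ⟨by push_cast; omega, by push_cast; omega⟩)
  have h3 : #(near o q 1) ≤ q + 3 := by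
    rw [near]
    refine card_image_le.trans ?_
    rw [Int.card_Icc]
    push_cast
    omega
  calc ∑ u ∈ T, R u ≤ ∑ u ∈ near o q 1, R u := h2
    _ ≤ #(near o q 1) • 8 := sum_le_card_nsmul _ _ _ fun u _ => hR8 u
    _ ≤ 8 * (q + 3) := by
        rw [smul_eq_mul, mul_comm]
        exact Nat.mul_le_mul_left _ h3

/-- a fat row among many rows of the window -/
theorem fat_between (N : NumX r M s n c q L D) (hr : ∀ u, r u ≤ M * s)
    (hL : 1000000 * (L + 1) ≤ M) (hθ : 1000 * θ ≤ M) (hc : M + 5 ≤ c) (hq : 1000 ≤ q) {a b : ℕ}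
    (hab : a + q / 4 ≤ b + 9) (hb : b ≤ q) :
    ∃ i : ℕ, a ≤ i ∧ i ≤ b ∧ M * s + θ ≤ 2 * r (i : ZMod o) := by
  by_contra hcon
  push Not at hcon
  have h1 := nf_fat N hr hL hθ hc hq
  have h2 : Icc a b ⊆ (range (q + 1)).filter (fun i : ℕ => 2 * r (i : ZMod o) < M * s + θ) := by
    intro i hi
    rw [mem_Icc] at hi
    rw [mem_filter, mem_range]
    exact ⟨by omega, hcon i hi.1 hi.2⟩
  have h3 := card_le_card h2
  rw [Nat.card_Icc] at h3
  omega

theorem div_le (N : NumX r M s n c q L D) (hr : ∀ u, r u ≤ M * s) (hL : 1000000 * (L + 1) ≤ M)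
    (hc : M + 5 ≤ c) (hq : 1000 ≤ q) : o / M + 1 ≤ q + q / 4 := by
  have h1 := nf_o1 N hr hc
  have hM0 := N.M_pos
  refine Nat.succ_le_of_lt ((Nat.div_lt_iff_lt_mul (by omega)).2 ?_)
  have h2 : q + 2 + 1 ≤ q + q / 4 := by omega
  have h3 : (q + 2 + 1) * M ≤ (q + q / 4) * M := Nat.mul_le_mul_right _ h2
  have h2' : 100 * (q + 2) ≤ 100 * (q + q / 4) := by omega
  have h4 : (q + 2) * (L + 1) * 1000000 ≤ (q + 2) * M := by
    calc (q + 2) * (L + 1) * 1000000 = (q + 2) * (1000000 * (L + 1)) := by ring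
      _ ≤ (q + 2) * M := Nat.mul_le_mul_left _ hL
  have h5 : (q + 2) * M + (q / 4 - 2) * M = (q + q / 4) * M := by
    rw [← add_mul]
    congr 1
    omega
  have h6 : (q + 2) * M ≤ 10 * ((q / 4 - 2) * M) := by
    rw [← mul_assoc]
    exact Nat.mul_le_mul_right _ (by omega)
  have e1 : (q + 2) * (M + L) = (q + 2) * M + (q + 2) * L := by ring
  have e2 : (q + 2) * (L + 1) = (q + 2) * L + (q + 2) := by ring
  omega

end CORELM

open CORELM

theorem core_large (N : NumX r M s n c q L D) (g : GameF r (M * s) θ c) (hθ : 1000 * θ ≤ M)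
    (hL : 1000000 * (L + 1) ≤ M) (hc : M + exc M n o + 5 ≤ c) (ho : M < o) (hq : 1000 ≤ q) :
    False := by
  have hr := g.row_le
  have hc' : M + 5 ≤ c := by omega
  have hM0 := N.M_pos
  have hoL := N.o_large
  obtain ⟨R, α, hR8, hRr, hR, hres⟩ := reserve_l N hr hL hθ hc' ho hq
  obtain ⟨c', hcc⟩ : ∃ c', c = c' + 5 := ⟨c - 5, by omega⟩
  obtain ⟨d₀, hd₀, hd₀c, hα, -⟩ := hres 0 (Nat.zero_le _)
  rw [Nat.cast_zero, add_zero] at hα
  have h2n := nf_cn N hr hL hc' ho
  have hsumR := sum_R N hR8 hR univ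
  have hsub : ∑ u, (r u - R u) + ∑ u, R u = n + c := by
    rw [← sum_add_distrib, ← N.total]
    exact sum_congr rfl fun u _ => Nat.sub_add_cancel (hRr u)
  have hww : ww q = q + 9 := by rw [ww, if_neg (by omega)]
  have hnear : ∀ u, u ∈ near o q (ww q) ↔ -((q : ℤ) + 9) ≤ pos o q u ∧ pos o q u ≤ 2 * (q : ℤ) + 9 := by
    intro u
    rw [hww, mem_near_iff q (by omega) u]
    push_cast
    constructor <;> intro h <;> constructor <;> omega
  have hpos : ∀ i : ℕ, i ≤ q → pos o q (i : ZMod o) = i := by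
    intro i hi
    have := pos_of (o := o) q (i := (i : ℤ)) (by omega) (by omega)
    rwa [Int.cast_natCast] at this
  have hgap : ∀ u ∈ near o q (ww q), ∀ v ∈ near o q (ww q), 0 < r u - R u → 0 < r v - R v →
      pos o q u + (q + q / 4 : ℕ) + 1 < pos o q v →
      ∃ w ∈ near o q (ww q), 0 < r w - R w ∧ pos o q u < pos o q w ∧ pos o q w < pos o q v := by
    intro u hu v hv _ _ huv
    rw [hnear] at hu hv
    have key : ∀ i : ℕ, i ≤ q → M * s + θ ≤ 2 * r (i : ZMod o) → pos o q u < i →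
        (i : ℤ) < pos o q v → ∃ w ∈ near o q (ww q), 0 < r w - R w ∧ pos o q u < pos o q w ∧
          pos o q w < pos o q v := by
      intro i hi hri h1 h2
      have h3 := hpos i hi
      refine ⟨(i : ZMod o), (hnear _).2 ?_, ?_, ?_, ?_⟩
      · rw [h3]
        omega
      · have h4 := hR8 (i : ZMod o)
        have h5 : M * 1 ≤ M * s := Nat.mul_le_mul_left _ N.s1
        omega
      · rw [h3]
        exact h1
      · rw [h3]
        exact h2
    rcases lt_or_ge (pos o q u) 0 with h0 | h0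
    · -- the rows `0 .. min q (pos v - 1)`
      obtain ⟨b, hb⟩ : ∃ b : ℕ, (b : ℤ) = min (q : ℤ) (pos o q v - 1) :=
        ⟨(min (q : ℤ) (pos o q v - 1)).toNat, by
          rw [Int.toNat_of_nonneg]
          omega⟩
      obtain ⟨i, -, hi2, hi3⟩ := fat_between N hr hL hθ hc' hq (a := 0) (b := b) (by omega)
        (by omega)
      exact key i (by omega) hi3 (by omega) (by omega)
    · obtain ⟨a, ha⟩ := Int.eq_ofNat_of_zero_le h0
      obtain ⟨i, hi1, hi2, hi3⟩ := fat_between N hr hL hθ hc' hq (a := a + 1) (b := q) (by omega)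
        le_rfl
      exact key i hi2 hi3 (by omega) (by omega)
  have hVV : ∑ u ∈ univ \ near o q (ww q), (r u - R u) ≤ far r q (ww q) := by
    rw [far]
    exact sum_le_sum fun u _ => Nat.sub_le _ _
  have hWW : ∀ k : ℕ, k ≤ c' → c' ≤ k + far r q (ww q) →
      (k : ℤ) + (((o + q) / 2 + 1 : ℕ) : ℤ) ≤
        ((∑ u ∈ near o q (ww q), min k (r u - R u) : ℕ) : ℤ) := by
    intro k hk hk2
    have h1 := width N hr hL hc ho (k := k) (by omega) (by omega)
    have h2 : ∑ u ∈ near o q (ww q), min k (r u) ≤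
        ∑ u ∈ near o q (ww q), min k (r u - R u) + ∑ u ∈ near o q (ww q), R u := by
      rw [← sum_add_distrib]
      refine sum_le_sum fun u _ => ?_
      omega
    have h3 := sum_R N hR8 hR (near o q (ww q))
    have h4 : k + ((o + q) / 2 + 1) ≤ ∑ u ∈ near o q (ww q), min k (r u - R u) := by omega
    exact_mod_cast h4
  have hfar : ∀ u, u ∉ near o q (ww q) → ∀ v ∈ near o q (ww q),
      |pos o q u - pos o q v| ≤ (((o + q) / 2 + 1 : ℕ) : ℤ) + (q + q / 4 : ℕ) + 1 := by
    intro u _ v hv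
    rw [hnear] at hv
    have h1 := pos_ge (o := o) q u
    have h2 := pos_lt (o := o) q u
    rw [abs_le]
    constructor <;> omega
  -- omitted: `d` and the reserve with the sum `α + y`
  have key : ∀ (d : ZMod o → ℕ) (y : ℕ), (∀ u, d u ≤ r u - R u) → ∑ u, d u = c' → y ≤ q + q / 4 →
      ((∑ u, (d u : ℤ) * pos o q u + (α + y) : ℤ) : ZMod o) ≠ ∑ u, r u • u := by
    intro d y hd hdc hy hbad
    obtain ⟨e, he, hec, hes, u, hfat, hu3, huR⟩ := hres y hy
    have hadm : Adm r c (fun u => d u + e u) := by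
      refine ⟨fun u => ?_, ?_, ?_⟩
      · have h1 := hd u
        have h2 := he u
        have h3 := hRr u
        show d u + e u ≤ r u
        omega
      · rw [sum_add_distrib, hdc, hec, hcc]
      · have h1 : ∑ u, (d u + e u) • u = ∑ u, d u • u + ∑ u, e u • u := by
          rw [← sum_add_distrib]
          exact sum_congr rfl fun u _ => add_smul _ _ _
        rw [h1, ← cast_sum (q := q) d, ← cast_sum (q := q) e, hes, ← Int.cast_add, ← hbad]
    refine g.rule1 _ hadm u hfat ?_ ?_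
    · show 3 ≤ d u + e u
      omega
    · have h1 := hd u
      have h3 := hRr u
      show d u + e u + 3 ≤ r u
      omega
  refine finish_x (q := q) (J := q + q / 4) N.os (by omega) ho N.total hr hRr hcc (by omega)
    (Or.inr ⟨by omega, div_le N hr hL hc' hq⟩) hd₀ hd₀c hα ?_ ?_
  · intro d₁ d₂ hd₁ hd₂ hd₁c hd₂c v hv1 hv2 hbad
    rcases le_or_gt v (∑ u, (d₂ u : ℤ) * pos o q u) with hv | hv
    · obtain ⟨d, hd, hdc, hdv1, hdv2⟩ := interval_two (pos o q) (pos_inj q) (subset_refl _)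
        (by positivity) (by positivity) hgap hVV hVV hWW hWW (fun u hu hu' => absurd hu hu') hfar
        hd₁ hd₂ hd₁c hd₂c hv1 hv
      obtain ⟨y, hy⟩ := Int.eq_ofNat_of_zero_le
        (show 0 ≤ v - ∑ u, (d u : ℤ) * pos o q u by omega)
      refine key d y hd hdc (by omega) ?_
      rw [← hbad]
      congr 1
      omega
    · obtain ⟨y, hy⟩ := Int.eq_ofNat_of_zero_le
        (show 0 ≤ v - ∑ u, (d₂ u : ℤ) * pos o q u by omega)
      refine key d₂ y hd₂ hd₂c (by omega) ?_
      rw [← hbad]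
      congr 1
      omega
  · intro i₀ i₁ h0 h1
    exact loc_l N hr hL hθ hc' ho hq hR8 hR hcc h0 h1

/-- the core: no admissible numbers for `c ≥ M + exc M n o + 5` -/
theorem core_X (N : NumX r M s n c q L D) (g : GameF r (M * s) θ c) (hθ : 1000 * θ ≤ M)
    (hL : 1000000 * (L + 1) ≤ M) (hc : M + exc M n o + 5 ≤ c) (ho : M < o) : False := by
  rcases Nat.lt_or_ge q 1000 with hq | hq
  · exact core_small N g hθ hL hc ho hq
  · exact core_large N g hθ hL hc ho hq

end

end Pool.Agent.Lib.MPa7239a.RX
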