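import Pool.Agent.Lib.MP_a7239a_co.RX.Defs
import Pool.Agent.Lib.MP_a7239a_co.RF.FINISH

/-!
# RX, module FINX: the quantile rows and the final count, sharp form
-/

set_option autoImplicit false

open Finset

namespace Pool.Agent.Lib.MPa7239a.RX

open Pool.Agent.Lib.MPa7239a.RF (exc pos pos_cast pos_ge pos_lt pos_of pos_inj)

namespace FINXAux

open Pool.Agent.Lib.MPa7239a.RF.FINISHAux (top split3)

/-- the first moment about the middle -/
theorem moment {ι : Type*} [Fintype ι] [DecidableEq ι] (p : ι → ℤ) (x y e d : ι → ℕ) {i₀ i₁ : ℤ}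
    {h c' T Hi κ : ℕ} (hi : i₀ ≤ i₁) (hrow : ∀ u, x u + y u ≤ h)
    (hm0 : ∑ u with (i₀ ≤ p u ∧ p u ≤ i₁), (2 * p u - (i₀ + i₁)) = 0)
    (hmc : (#{u | i₀ ≤ p u ∧ p u ≤ i₁} : ℤ) = i₁ - i₀ + 1)
    (hd1 : ∀ u, i₁ < p u → d u = x u) (hd2 : ∀ u, p u < i₁ → d u = 0) (hdc : ∑ u, d u = c')
    (he : ∀ u, e u ≤ y u) (hec : ∑ u, e u = κ)
    (hy : ∀ u, y u ≠ 0 → i₀ ≤ p u ∧ p u ≤ i₁) (hT : ∑ u, (x u + y u) = T)
    (hHi : ∑ u with i₁ < p u, x u = Hi) :
    ∑ u, ((x u : ℤ) + y u - d u - e u) * (2 * p u - (i₀ + i₁)) ≤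
      (i₁ - i₀) * ((i₁ - i₀ + 1) * h - T - c' + 2 * Hi + κ) := by
  have hq : 0 ≤ i₁ - i₀ := by omega
  have hy0 : ∀ u, (p u < i₀ ∨ i₁ < p u) → y u = 0 := by
    intro u hu
    by_contra h0
    have := hy u h0
    omega
  have he0 : ∀ u, (p u < i₀ ∨ i₁ < p u) → e u = 0 := fun u hu => by
    have := he u
    have := hy0 u hu
    omega
  -- pointwise bounds
  have hR : ∀ u, i₁ < p u → ((x u : ℤ) + y u - d u - e u) * (2 * p u - (i₀ + i₁)) = 0 := by
    intro u hu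
    rw [hd1 u hu, hy0 u (Or.inr hu), he0 u (Or.inr hu)]
    simp
  have hM : ∀ u, i₀ ≤ p u → p u ≤ i₁ → ((x u : ℤ) + y u - d u - e u) * (2 * p u - (i₀ + i₁)) ≤
      h * (2 * p u - (i₀ + i₁)) + (i₁ - i₀) * (h - x u - y u) - (i₁ - i₀) * d u +
        (i₁ - i₀) * e u := by
    intro u h1 h2
    have h3 : (0 : ℤ) ≤ h - x u - y u := by
      have := hrow u
      omega
    have h4 : -((d u : ℤ) * (2 * p u - (i₀ + i₁))) = -((i₁ - i₀) * d u) := by
      rcases eq_or_lt_of_le h2 with h5 | h5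
      · rw [h5]
        ring
      · rw [hd2 u h5]
        simp
    have h5 : (0 : ℤ) ≤ e u := by positivity
    have h6 : -(i₁ - i₀) ≤ 2 * p u - (i₀ + i₁) := by omega
    have h7 : -((h - x u - y u) * (2 * p u - (i₀ + i₁))) ≤ (i₁ - i₀) * (h - x u - y u) := by
      nlinarith
    have h8 : -((e u : ℤ) * (2 * p u - (i₀ + i₁))) ≤ (i₁ - i₀) * e u := by
      nlinarith
    nlinarith
  have hL : ∀ u, p u < i₀ → ((x u : ℤ) + y u - d u - e u) * (2 * p u - (i₀ + i₁)) ≤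
      -((i₁ - i₀) * x u) := by
    intro u hu
    rw [hd2 u (by omega), hy0 u (Or.inl hu), he0 u (Or.inl hu)]
    have h3 : (0 : ℤ) ≤ x u := by positivity
    have h4 : 2 * p u - (i₀ + i₁) ≤ -(i₁ - i₀) := by omega
    push_cast
    nlinarith
  -- sums
  have sL : ∑ u with p u < i₀, ((x u : ℤ) + y u - d u - e u) * (2 * p u - (i₀ + i₁)) ≤
      -((i₁ - i₀) * ∑ u with p u < i₀, (x u : ℤ)) := by
    rw [mul_sum, ← sum_neg_distrib]
    exact sum_le_sum fun u hu => hL u (mem_filter.1 hu).2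
  have sR : ∑ u with i₁ < p u, ((x u : ℤ) + y u - d u - e u) * (2 * p u - (i₀ + i₁)) = 0 :=
    sum_eq_zero fun u hu => hR u (mem_filter.1 hu).2
  have sM : ∑ u with (i₀ ≤ p u ∧ p u ≤ i₁),
      ((x u : ℤ) + y u - d u - e u) * (2 * p u - (i₀ + i₁)) ≤
      (i₁ - i₀) * ((i₁ - i₀ + 1) * h - ∑ u with (i₀ ≤ p u ∧ p u ≤ i₁), ((x u : ℤ) + y u)) -
        (i₁ - i₀) * ∑ u with (i₀ ≤ p u ∧ p u ≤ i₁), (d u : ℤ) +
        (i₁ - i₀) * ∑ u with (i₀ ≤ p u ∧ p u ≤ i₁), (e u : ℤ) := by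
    refine (sum_le_sum fun u hu => hM u (mem_filter.1 hu).2.1 (mem_filter.1 hu).2.2).trans ?_
    rw [sum_add_distrib, sum_sub_distrib, sum_add_distrib, ← mul_sum, ← mul_sum, ← mul_sum,
      ← mul_sum, hm0]
    have h1 : ∑ u with (i₀ ≤ p u ∧ p u ≤ i₁), ((h : ℤ) - x u - y u) =
        (i₁ - i₀ + 1) * h - ∑ u with (i₀ ≤ p u ∧ p u ≤ i₁), ((x u : ℤ) + y u) := by
      rw [← hmc, ← nsmul_eq_mul, ← sum_const, ← sum_sub_distrib]
      exact sum_congr rfl fun u _ => by ring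
    rw [h1]
    apply le_of_eq
    ring
  -- bookkeeping
  have bd := split3 p hi (fun u => (d u : ℤ))
  have hdL : ∑ u with p u < i₀, (d u : ℤ) = 0 := by
    refine sum_eq_zero fun u hu => ?_
    rw [hd2 u (by have := (mem_filter.1 hu).2; omega)]
    rfl
  have hdR : ∑ u with i₁ < p u, (d u : ℤ) = Hi := by
    rw [← hHi, Nat.cast_sum]
    exact sum_congr rfl fun u hu => by rw [hd1 u (mem_filter.1 hu).2]
  have hdc' : ∑ u, (d u : ℤ) = c' := by
    rw [← hdc, Nat.cast_sum]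
  rw [hdL, hdR, hdc', zero_add] at bd
  have be : ∑ u with (i₀ ≤ p u ∧ p u ≤ i₁), (e u : ℤ) ≤ κ := by
    have h1 : ∑ u with (i₀ ≤ p u ∧ p u ≤ i₁), (e u : ℤ) ≤ ∑ u, (e u : ℤ) :=
      sum_le_sum_of_subset_of_nonneg (filter_subset _ _) fun u _ _ => by positivity
    have h2 : ∑ u, (e u : ℤ) = κ := by
      rw [← Nat.cast_sum, hec]
    linarith
  have bt := split3 p hi (fun u => (x u : ℤ) + y u)
  have hT' : ∑ u, ((x u : ℤ) + y u) = T := by
    rw [← hT, Nat.cast_sum]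
    exact sum_congr rfl fun u _ => by push_cast; rfl
  have hLx : ∑ u with p u < i₀, ((x u : ℤ) + y u) = ∑ u with p u < i₀, (x u : ℤ) :=
    sum_congr rfl fun u hu => by rw [hy0 u (Or.inl (mem_filter.1 hu).2)]; simp
  have hRx : ∑ u with i₁ < p u, ((x u : ℤ) + y u) = Hi := by
    rw [← hHi, Nat.cast_sum]
    exact sum_congr rfl fun u hu => by rw [hy0 u (Or.inr (mem_filter.1 hu).2)]; simp
  rw [hT', hLx, hRx] at bt
  rw [split3 p hi, sR, add_zero]
  set q := i₁ - i₀ with hqd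
  set XL := ∑ u with p u < i₀, (x u : ℤ)
  set XM := ∑ u with (i₀ ≤ p u ∧ p u ≤ i₁), ((x u : ℤ) + y u)
  set DM := ∑ u with (i₀ ≤ p u ∧ p u ≤ i₁), (d u : ℤ)
  set EM := ∑ u with (i₀ ≤ p u ∧ p u ≤ i₁), (e u : ℤ)
  have e1 : XM = T - XL - Hi := by linarith
  have e2 : DM = c' - Hi := by linarith
  rw [e1, e2] at sM
  have e4 : q * EM ≤ q * κ := mul_le_mul_of_nonneg_left be hq
  nlinarith

/-- the final arithmetic -/
theorem arith {M n o s c' b Lo Hi κ J : ℕ} (hM : 1 ≤ M) (ho : M < o) (hos : o * s = n)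
    (hc : M + exc M n o + 1 ≤ c' ∨ (M + exc M n o ≤ c' ∧ o / M + 1 ≤ J)) (hs : 1 ≤ s)
    (hE1 : c' * b + Lo + Hi + J + 2 ≤ o)
    (hcount : n + c' + κ ≤ (b + 1) * (M * s) + Lo + Hi)
    (h3 : Even (s * b) → 1 ≤ b → o ≤ (b + 1) * M →
      2 * c' + 1 ≤ s * ((b + 1) * M - o) + 2 * Hi ∨
      2 * c' + 1 ≤ s * ((b + 1) * M - o) + 2 * Lo) : False := by
  have hstar : n + c' * (b + 1) + κ + J + 2 ≤ (b + 1) * (M * s) + o := by nlinarith
  have hcM : M ≤ c' := by omega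
  have hMb : M * b < o := by nlinarith
  obtain ⟨t, rfl⟩ : ∃ t, s = t + 1 := ⟨s - 1, by omega⟩
  have hoM' : o < (b + 1) * M := by
    by_contra hcon
    rw [not_lt] at hcon
    have e1 : (b + 1) * M * t ≤ o * t := Nat.mul_le_mul_right _ hcon
    rw [← hos] at hstar
    nlinarith
  have hb : 1 ≤ b := by
    rcases Nat.eq_zero_or_pos b with h | h
    · rw [h] at hoM'
      omega
    · exact h
  have hdiv : o / M = b := by
    rw [Nat.div_eq_iff (by omega)]
    constructor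
    · nlinarith
    · have : (b + 1) * M = b * M + M := by ring
      omega
  have hmod : o % M + M * b = o := by
    have := Nat.mod_add_div o M
    rw [hdiv] at this
    exact this
  have hns : n / o = t + 1 := by
    rw [← hos, Nat.mul_div_cancel_left _ (by omega)]
  have h3 := fun h => h3 h hb hoM'.le
  rw [hdiv] at hc
  set a := o % M with ha
  have haM : a < M := Nat.mod_lt _ (by omega)
  obtain ⟨f, hf⟩ : ∃ f, M = a + f := ⟨M - a, by omega⟩
  have hfo : (b + 1) * M - o = f := by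
    have : (b + 1) * M = M * b + M := by ring
    omega
  have hfe : M - a = f := by omega
  have hoe : o + f = (b + 1) * M := by
    have : (b + 1) * M = M * b + M := by ring
    omega
  rw [hfo] at h3
  -- the form of the hypothesis: `w` is a lower bound of the gain
  obtain ⟨g, hg, hgJ⟩ : ∃ g, c' = M + g ∧ (exc M n o + 1 ≤ g ∨ (exc M n o ≤ g ∧ b + 1 ≤ J)) :=
    ⟨c' - M, by omega, by omega⟩
  -- (i)
  have hi : g * b + J + 2 ≤ a := by
    rw [hg] at hE1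
    nlinarith
  -- (ii)
  have hii : g * (b + 1) + κ + J + 2 ≤ t * f := by
    rw [hg, ← hos] at hstar
    have e1 : (b + 1) * (M * (t + 1)) = (t + 1) * (o + f) := by rw [hoe]; ring
    rw [e1] at hstar
    have e2 : (M + g) * (b + 1) = (o + f) + g * (b + 1) := by rw [hoe]; ring
    rw [e2] at hstar
    nlinarith
  have hkey : ∀ e m : ℕ, (e + 1 ≤ g ∨ (e ≤ g ∧ b + 1 ≤ J)) → m < (e + 1) * (b + 1) →
      m < g * (b + 1) + J := by
    intro e m h1 h2
    rcases h1 with h1 | ⟨h1, h4⟩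
    · have := Nat.mul_le_mul_right (b + 1) h1
      omega
    · have := Nat.mul_le_mul_right (b + 1) h1
      nlinarith
  have hfirst : exc M n o ≠ a / b := by
    intro h
    rw [h] at hgJ
    have h1 : a < (a / b + 1) * b := by
      have := Nat.lt_div_mul_add (a := a) (b := b) (by omega)
      nlinarith
    rcases hgJ with h2 | ⟨h2, h4⟩
    · have := Nat.mul_le_mul_right b h2
      omega
    · have := Nat.mul_le_mul_right b h2
      nlinarith
  have hsecond : exc M n o =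
      (((if Even (n / o * (o / M)) then 1 else 2) * (n / o) - 2) * (M - a) / (2 * (o / M + 1))) := by
    rcases min_choice (a / (o / M))
      (((if Even (n / o * (o / M)) then 1 else 2) * (n / o) - 2) * (M - a) / (2 * (o / M + 1)))
      with h | h
    · exfalso
      apply hfirst
      rw [← hdiv]
      exact h
    · exact h
  rw [hns, hdiv, hfe] at hsecond
  by_cases hev : Even ((t + 1) * b)
  · rw [if_pos hev, one_mul] at hsecond
    have h4 : (t + 1 - 2) * f < (exc M n o + 1) * (2 * (b + 1)) := by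
      rw [hsecond]
      have := Nat.lt_div_mul_add (a := (t + 1 - 2) * f) (b := 2 * (b + 1)) (by omega)
      nlinarith
    rcases Nat.eq_zero_or_pos t with ht | ht
    · rw [ht] at hii
      omega
    obtain ⟨t', rfl⟩ : ∃ t', t = t' + 1 := ⟨t - 1, by omega⟩
    have e1 : t' + 1 + 1 - 2 = t' := by omega
    rw [e1] at h4
    have h7 : 2 * (g * (b + 1)) + 5 + 2 * J ≤ t' * f := by
      have e2 : 2 * ((M + g) * (b + 1)) = 2 * (o + f) + 2 * (g * (b + 1)) := by rw [hoe]; ring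
      rw [hg] at hE1 h3
      rcases h3 hev with h | h
      · nlinarith
      · nlinarith
    have h8 : t' * f < 2 * (g * (b + 1)) + 2 * J := by
      rcases hgJ with h2 | ⟨h2, h5⟩
      · have := Nat.mul_le_mul_right (2 * (b + 1)) h2
        nlinarith
      · have := Nat.mul_le_mul_right (2 * (b + 1)) h2
        nlinarith
    omega
  · rw [if_neg hev] at hsecond
    have e1 : (2 * (t + 1) - 2) * f = 2 * (t * f) := by
      have : 2 * (t + 1) - 2 = 2 * t := by omega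
      rw [this]
      ring
    rw [e1] at hsecond
    have h4 : 2 * (t * f) < (exc M n o + 1) * (2 * (b + 1)) := by
      rw [hsecond]
      have := Nat.lt_div_mul_add (a := 2 * (t * f)) (b := 2 * (b + 1)) (by omega)
      nlinarith
    have h5 := hkey _ (t * f) hgJ (by nlinarith)
    omega

/-- the quantile rows, the extreme sums and the forbidden interval -/
theorem ends {o : ℕ} [NeZero o] {r R : ZMod o → ℕ} {q c' J : ℕ} {α : ℤ}
    (hRr : ∀ u, R u ≤ r u) (hc1 : 1 ≤ c') (h2c : 2 * c' ≤ ∑ u, (r u - R u))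
    (hav : ∀ d₁ d₂ : ZMod o → ℕ, (∀ u, d₁ u ≤ r u - R u) → (∀ u, d₂ u ≤ r u - R u) →
      ∑ u, d₁ u = c' → ∑ u, d₂ u = c' → ∀ v : ℤ, ∑ u, (d₁ u : ℤ) * pos o q u ≤ v →
      v ≤ ∑ u, (d₂ u : ℤ) * pos o q u + J → ((v + α : ℤ) : ZMod o) ≠ ∑ u, r u • u) :
    ∃ (i₀ i₁ : ℤ) (b : ℕ) (d₁ d₂ : ZMod o → ℕ), i₁ = i₀ + b ∧
      (∀ u, d₁ u ≤ r u - R u) ∧ (∀ u, d₂ u ≤ r u - R u) ∧ ∑ u, d₁ u = c' ∧ ∑ u, d₂ u = c' ∧
      (∀ u, pos o q u < i₀ → d₁ u = r u - R u) ∧ (∀ u, i₀ < pos o q u → d₁ u = 0) ∧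
      (∀ u, i₁ < pos o q u → d₂ u = r u - R u) ∧ (∀ u, pos o q u < i₁ → d₂ u = 0) ∧
      ∑ u with pos o q u < i₀, (r u - R u) < c' ∧ ∑ u with i₁ < pos o q u, (r u - R u) < c' ∧
      (#{u : ZMod o | i₀ ≤ pos o q u ∧ pos o q u ≤ i₁} : ℤ) = i₁ - i₀ + 1 ∧
      ∑ u with (i₀ ≤ pos o q u ∧ pos o q u ≤ i₁), (2 * pos o q u - (i₀ + i₁)) = 0 ∧
      (∀ k : ℤ, ∑ u, (d₁ u : ℤ) * pos o q u ≤ ∑ u, (r u : ℤ) * pos o q u - α + o * k →
        ∑ u, (r u : ℤ) * pos o q u - α + o * k ≤ ∑ u, (d₂ u : ℤ) * pos o q u → False) ∧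
      c' * b + ∑ u with pos o q u < i₀, (r u - R u) + ∑ u with i₁ < pos o q u, (r u - R u) +
        J + 2 ≤ o := by
  classical
  have ho0 : 0 < o := Nat.pos_of_ne_zero (NeZero.ne o)
  set x : ZMod o → ℕ := fun u => r u - R u with hx
  set P : ZMod o → ℤ := pos o q with hP
  have hinj : Function.Injective P := pos_inj q
  have hinj' : Function.Injective fun u => -P u := fun u v h => hinj (neg_injective h)
  have h2c' : 2 * c' ≤ ∑ u, x u := h2c
  have hsum : c' ≤ ∑ u, x u := by omega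
  obtain ⟨i₁, d₂, ⟨u₁, hu₁⟩, h2x, h2s, h2a, h2b, h2h, h2P⟩ := top P hinj x c' hc1 hsum
  obtain ⟨j₀, d₁, ⟨u₀, hu₀⟩, h1x, h1s, h1a, h1b, h1h, h1P⟩ :=
    top (fun u => -P u) hinj' x c' hc1 hsum
  obtain ⟨i₀, rfl⟩ : ∃ i₀, j₀ = -i₀ := ⟨-j₀, by omega⟩
  have hlt : ∀ u, -i₀ < -P u ↔ P u < i₀ := fun u => by omega
  simp only [hlt] at h1h h1P h1a
  set Hi := ∑ u with i₁ < P u, x u with hHi
  set Lo := ∑ u with P u < i₀, x u with hLo
  have hu₀' : P u₀ = i₀ := by linarith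
  have h1P' : ∑ u, (d₁ u : ℤ) * P u ≤ c' * i₀ - Lo := by
    have e1 : ∑ u, (d₁ u : ℤ) * -P u = -∑ u, (d₁ u : ℤ) * P u := by
      rw [← sum_neg_distrib]
      exact sum_congr rfl fun u _ => by ring
    rw [e1] at h1P
    linarith
  have hi01 : i₀ ≤ i₁ := by
    by_contra hcon
    rw [not_le] at hcon
    have h3 : ∑ u, x u ≤ Lo + Hi := by
      have h4 : (univ : Finset (ZMod o)) ⊆
          (univ.filter fun u => P u < i₀) ∪ (univ.filter fun u => i₁ < P u) := by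
        intro u _
        simp only [mem_union, mem_filter, mem_univ, true_and]
        omega
      refine (sum_le_sum_of_subset h4).trans ?_
      rw [hLo, hHi, ← sum_union_inter]
      exact Nat.le_add_right _ _
    omega
  obtain ⟨b, hb⟩ : ∃ b : ℕ, i₁ = i₀ + b := ⟨(i₁ - i₀).toNat, by omega⟩
  -- the middle
  have hmem : ∀ i : ℤ, i₀ ≤ i → i ≤ i₁ → P (i : ZMod o) = i := by
    intro i h3 h4
    have e1 := pos_ge (o := o) q u₀
    have e2 := pos_lt (o := o) q u₁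
    rw [← hP, hu₀'] at e1
    rw [← hP, hu₁] at e2
    exact pos_of q (by omega) (by omega)
  have hmid : (univ.filter fun u : ZMod o => i₀ ≤ P u ∧ P u ≤ i₁) =
      (Icc i₀ i₁).image (fun i : ℤ => (i : ZMod o)) := by
    ext u
    simp only [mem_filter, mem_univ, true_and, mem_image, mem_Icc]
    constructor
    · intro h
      exact ⟨P u, h, pos_cast q u⟩
    · rintro ⟨i, hi, rfl⟩
      rw [hmem i hi.1 hi.2]
      exact hi
  have hinjOn : Set.InjOn (fun i : ℤ => (i : ZMod o)) (Icc i₀ i₁ : Finset ℤ) := by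
    intro i hi j hj hij
    rw [mem_coe, mem_Icc] at hi hj
    have := congrArg P hij
    simp only at this
    rwa [hmem i hi.1 hi.2, hmem j hj.1 hj.2] at this
  have hmc : (#{u : ZMod o | i₀ ≤ P u ∧ P u ≤ i₁} : ℤ) = i₁ - i₀ + 1 := by
    rw [hmid, card_image_of_injOn hinjOn, Int.card_Icc]
    omega
  have hm0 : ∑ u with (i₀ ≤ P u ∧ P u ≤ i₁), (2 * P u - (i₀ + i₁)) = 0 := by
    rw [hmid, sum_image hinjOn]
    have e1 : ∑ i ∈ Icc i₀ i₁, (2 * P (i : ZMod o) - (i₀ + i₁)) =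
        ∑ i ∈ Icc i₀ i₁, (2 * i - (i₀ + i₁)) :=
      sum_congr rfl fun i hi => by rw [hmem i (mem_Icc.1 hi).1 (mem_Icc.1 hi).2]
    have e2 : ∑ i ∈ Icc i₀ i₁, (2 * i - (i₀ + i₁)) = ∑ i ∈ Icc i₀ i₁, -(2 * i - (i₀ + i₁)) := by
      refine sum_bij (fun i _ => i₀ + i₁ - i) ?_ ?_ ?_ ?_
      · intro i hi
        rw [mem_Icc] at hi ⊢
        omega
      · intro i _ j _ h
        omega
      · intro j hj
        refine ⟨i₀ + i₁ - j, ?_, by omega⟩
        rw [mem_Icc] at hj ⊢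
        omega
      · intro i _
        ring
    rw [sum_neg_distrib] at e2
    rw [e1]
    linarith
  -- the forbidden values
  set σ : ℤ := ∑ u, (r u : ℤ) * P u with hσ
  have hσc : ((σ : ℤ) : ZMod o) = ∑ u, r u • u := by
    rw [hσ, Int.cast_sum]
    refine sum_congr rfl fun u _ => ?_
    rw [Int.cast_mul, Int.cast_natCast, nsmul_eq_mul, hP, pos_cast]
  have hforb : ∀ k : ℤ, ∑ u, (d₁ u : ℤ) * P u ≤ σ - α + o * k →
      σ - α + o * k ≤ ∑ u, (d₂ u : ℤ) * P u + J → False := by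
    intro k h3 h4
    refine hav d₁ d₂ h1x h2x h1s h2s _ h3 h4 ?_
    rw [← hσc]
    push_cast
    rw [ZMod.natCast_self]
    ring
  set P1 := ∑ u, (d₁ u : ℤ) * P u with hP1
  set P2 := ∑ u, (d₂ u : ℤ) * P u with hP2
  have hE1 : P2 + J - P1 + 2 ≤ o := by
    by_contra hcon
    refine hforb (-((σ - α - P1) / o)) ?_ ?_
    · have e1 := Int.emod_nonneg (σ - α - P1) (show (o : ℤ) ≠ 0 by positivity)
      have e2 := Int.mul_ediv_add_emod (σ - α - P1) o
      linarith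
    · have e1 := Int.emod_lt_of_pos (σ - α - P1) (show (0 : ℤ) < o by positivity)
      have e2 := Int.mul_ediv_add_emod (σ - α - P1) o
      rw [not_le] at hcon
      have e3 : (σ - α - P1) % o ≤ (o : ℤ) - 1 := by omega
      have e4 : (o : ℤ) - 1 ≤ P2 + J - P1 := by omega
      linarith
  have hE1' : c' * b + Lo + Hi + J + 2 ≤ o := by
    have e1 : (c' : ℤ) * i₁ - c' * i₀ = c' * b := by rw [hb]; ring
    have e2 : ((c' * b + Lo + Hi + J + 2 : ℕ) : ℤ) ≤ (o : ℤ) := by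
      push_cast
      linarith
    exact_mod_cast e2
  exact ⟨i₀, i₁, b, d₁, d₂, hb, h1x, h2x, h1s, h2s, h1a, fun u hu => h1b u (by omega), h2a, h2b,
    h1h, h2h, hmc, hm0, fun k h3 h4 => hforb k h3 (by omega), hE1'⟩

end FINXAux

open FINXAux in
open Pool.Agent.Lib.MPa7239a.RF.FINISHAux (split3) in
theorem finish_x {o : ℕ} [NeZero o] {r : ZMod o → ℕ} {M s n c q : ℕ}
    {R d₀ : ZMod o → ℕ} {c' κ J : ℕ} {α : ℤ} (hos : o * s = n) (hM : 1 ≤ M) (ho : M < o)
    (htot : ∑ u, r u = n + c) (hr : ∀ u, r u ≤ M * s) (hRr : ∀ u, R u ≤ r u) (hcc : c = c' + κ)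
    (h2c : 2 * c' ≤ ∑ u, (r u - R u))
    (hc : M + exc M n o + 1 ≤ c' ∨ (M + exc M n o ≤ c' ∧ o / M + 1 ≤ J))
    (hd₀ : ∀ u, d₀ u ≤ R u) (hd₀c : ∑ u, d₀ u = κ) (hα : ∑ u, (d₀ u : ℤ) * pos o q u = α)
    (hav : ∀ d₁ d₂ : ZMod o → ℕ, (∀ u, d₁ u ≤ r u - R u) → (∀ u, d₂ u ≤ r u - R u) →
      ∑ u, d₁ u = c' → ∑ u, d₂ u = c' → ∀ v : ℤ, ∑ u, (d₁ u : ℤ) * pos o q u ≤ v →
      v ≤ ∑ u, (d₂ u : ℤ) * pos o q u + J → ((v + α : ℤ) : ZMod o) ≠ ∑ u, r u • u)
    (hloc : ∀ i₀ i₁ : ℤ, ∑ u with pos o q u < i₀, (r u - R u) < c' →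
      ∑ u with i₁ < pos o q u, (r u - R u) < c' →
      ∀ u, R u ≠ 0 → i₀ ≤ pos o q u ∧ pos o q u ≤ i₁) : False := by
  classical
  obtain ⟨i₀, i₁, b, d₁, d₂, hb, h1x, h2x, h1s, h2s, h1a, h1b, h2a, h2b, h1h, h2h, hmc, hm0,
    hforb, hE1⟩ := ends hRr (by omega) h2c hav
  have hRp := hloc i₀ i₁ h1h h2h
  set x : ZMod o → ℕ := fun u => r u - R u with hx
  have hxr : ∀ u, x u + R u = r u := fun u => Nat.sub_add_cancel (hRr u)
  set P : ZMod o → ℤ := pos o q with hP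
  have hi01 : i₀ ≤ i₁ := by omega
  set Hi := ∑ u with i₁ < P u, x u with hHi
  set Lo := ∑ u with P u < i₀, x u with hLo
  have htotx : ∑ u, (x u + R u) = n + c := by
    rw [← htot]
    exact sum_congr rfl fun u _ => hxr u
  have hR0 : ∀ u, (P u < i₀ ∨ i₁ < P u) → R u = 0 := by
    intro u hu
    by_contra h0
    have := hRp u h0
    omega
  have hcount : n + c' + κ ≤ (b + 1) * (M * s) + Lo + Hi := by
    have e1 := split3 P hi01 (fun u => (r u : ℤ))
    have e2 : ∑ u with (i₀ ≤ P u ∧ P u ≤ i₁), (r u : ℤ) ≤ (b + 1) * (M * s) := by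
      have e3 : ∑ u with (i₀ ≤ P u ∧ P u ≤ i₁), (r u : ℤ) ≤
          ∑ _u with (i₀ ≤ P _u ∧ P _u ≤ i₁), ((M * s : ℕ) : ℤ) :=
        sum_le_sum fun u _ => by exact_mod_cast hr u
      rw [sum_const, nsmul_eq_mul, hmc] at e3
      have e4 : i₁ - i₀ + 1 = (b : ℤ) + 1 := by omega
      rw [e4] at e3
      push_cast at e3
      linarith
    have e4 : ∑ u with P u < i₀, (r u : ℤ) = Lo := by
      rw [hLo, Nat.cast_sum]
      refine sum_congr rfl fun u hu => ?_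
      have := hxr u
      rw [hR0 u (Or.inl (mem_filter.1 hu).2)] at this
      exact_mod_cast this.symm
    have e5 : ∑ u with i₁ < P u, (r u : ℤ) = Hi := by
      rw [hHi, Nat.cast_sum]
      refine sum_congr rfl fun u hu => ?_
      have := hxr u
      rw [hR0 u (Or.inr (mem_filter.1 hu).2)] at this
      exact_mod_cast this.symm
    have e7 : ∑ u, (r u : ℤ) = n + c := by
      rw [← Nat.cast_sum, htot]
      push_cast
      rfl
    rw [e7, hcc, e4, e5] at e1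
    have e8 : ((n + c' + κ : ℕ) : ℤ) ≤ (((b + 1) * (M * s) + Lo + Hi : ℕ) : ℤ) := by
      push_cast at e1 ⊢
      linarith
    exact_mod_cast e8
  have hs : 1 ≤ s := by
    rcases Nat.eq_zero_or_pos s with h | h
    · exfalso
      rw [h, mul_zero] at hr
      have : ∑ u, r u = 0 := sum_eq_zero fun u _ => Nat.le_zero.1 (hr u)
      omega
    · exact h
  refine arith hM ho hos hc hs hE1 hcount ?_
  intro hev hb1 hoM
  -- the two moments
  have hfs : (n : ℤ) + s * (((b + 1) * M - o : ℕ) : ℤ) = (b + 1) * (M * s) := by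
    rw [← hos, Nat.cast_sub hoM]
    push_cast
    ring
  obtain ⟨m, hm⟩ := hev
  set σ : ℤ := ∑ u, (r u : ℤ) * P u with hσ
  set P1 := ∑ u, (d₁ u : ℤ) * P u with hP1
  set P2 := ∑ u, (d₂ u : ℤ) * P u with hP2
  have hSS : (s : ℤ) * (i₀ + i₁) = 2 * (s * i₀ + m) := by
    have e1 : (s : ℤ) * b = m + m := by exact_mod_cast hm
    rw [hb]
    linear_combination e1
  have hvn : (o : ℤ) * (2 * (s * i₀ + m)) = n * (i₀ + i₁) := by
    rw [← hSS, ← hos]
    push_cast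
    ring
  have hTn : ((n + c : ℕ) : ℤ) = n + c' + κ := by rw [hcc]; push_cast; ring
  have hα' : ∑ u, (d₀ u : ℤ) * P u = α := hα
  have hd₀' : ∑ u, (d₀ u : ℤ) = κ := by
    rw [← Nat.cast_sum, hd₀c]
  have hxR : ∀ u, (x u : ℤ) + R u = r u := fun u => by exact_mod_cast hxr u
  have hrt : ∑ u, (r u : ℤ) = n + c' + κ := by
    rw [← Nat.cast_sum, htot]
    exact hTn
  by_cases hv : σ - α + o * (-(s * i₀ + m)) ≤ P2
  · right
    have hv1 : σ - α + o * (-(s * i₀ + m)) < P1 := by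
      by_contra hcon
      exact hforb _ (not_lt.1 hcon) hv
    have hm0' : ∑ u with (-i₁ ≤ -P u ∧ -P u ≤ -i₀), (2 * -P u - (-i₁ + -i₀)) = 0 := by
      have e1 : (univ.filter fun u : ZMod o => -i₁ ≤ -P u ∧ -P u ≤ -i₀) =
          (univ.filter fun u : ZMod o => i₀ ≤ P u ∧ P u ≤ i₁) := by
        ext u
        simp only [mem_filter, mem_univ, true_and]
        omega
      rw [e1, ← neg_eq_zero, ← sum_neg_distrib, ← hm0]
      exact sum_congr rfl fun u _ => by ring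
    have hmc' : (#{u : ZMod o | -i₁ ≤ -P u ∧ -P u ≤ -i₀} : ℤ) = -i₀ - -i₁ + 1 := by
      have e1 : (univ.filter fun u : ZMod o => -i₁ ≤ -P u ∧ -P u ≤ -i₀) =
          (univ.filter fun u : ZMod o => i₀ ≤ P u ∧ P u ≤ i₁) := by
        ext u
        simp only [mem_filter, mem_univ, true_and]
        omega
      rw [e1, hmc]
      ring
    have hmo := moment (fun u => -P u) x R d₀ d₁ (i₀ := -i₁) (i₁ := -i₀) (h := M * s) (c' := c')
      (T := n + c) (Hi := Lo) (κ := κ) (by omega) (fun u => by rw [hxr]; exact hr u) hm0' hmc'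
      (fun u hu => h1a u (by omega)) (fun u hu => h1b u (by omega)) h1s hd₀ hd₀c
      (fun u hu => by have := hRp u hu; constructor <;> omega) htotx
      (by
        rw [hLo]
        refine sum_congr ?_ fun _ _ => rfl
        ext u
        simp only [mem_filter, mem_univ, true_and]
        omega)
    have hlhs : ∑ u, ((x u : ℤ) + R u - d₁ u - d₀ u) * (2 * -P u - (-i₁ + -i₀)) =
        -(2 * σ - 2 * P1 - 2 * α) + (i₀ + i₁) * n := by
      have e1 : ∀ u, ((x u : ℤ) + R u - d₁ u - d₀ u) * (2 * -P u - (-i₁ + -i₀)) =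
          -(2 * ((r u : ℤ) * P u) - 2 * ((d₁ u : ℤ) * P u) - 2 * ((d₀ u : ℤ) * P u)) +
            (i₀ + i₁) * ((r u : ℤ) - d₁ u - d₀ u) := by
        intro u
        rw [hxR]
        ring
      rw [sum_congr rfl fun u _ => e1 u, sum_add_distrib, sum_neg_distrib, sum_sub_distrib,
        sum_sub_distrib, ← mul_sum, ← mul_sum, ← mul_sum, ← mul_sum, sum_sub_distrib,
        sum_sub_distrib, hα', hd₀', hrt, ← Nat.cast_sum, h1s]
      ring
    rw [hlhs, hTn] at hmo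
    have e9 : -i₀ - -i₁ = (b : ℤ) := by rw [hb]; ring
    rw [e9] at hmo
    have e10 : 0 < -(2 * σ - 2 * P1 - 2 * α) + (i₀ + i₁) * n := by
      have : 2 * (σ - α + o * (-(s * i₀ + m))) = 2 * σ - 2 * α - n * (i₀ + i₁) := by
        linear_combination -hvn
      linarith
    have e11 : (2 * c' + 1 : ℤ) ≤ s * (((b + 1) * M - o : ℕ) : ℤ) + 2 * Lo := by
      by_contra hcon
      rw [not_le] at hcon
      have e12 : (b : ℤ) * ((b + 1) * ((M * s : ℕ) : ℤ) - (n + c' + κ) - c' + 2 * Lo + κ) ≤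
          b * 0 := by
        refine mul_le_mul_of_nonneg_left ?_ (by positivity)
        push_cast
        linarith
      linarith
    exact_mod_cast e11
  · left
    rw [not_le] at hv
    have hmo := moment P x R d₀ d₂ (i₀ := i₀) (i₁ := i₁) (h := M * s) (c' := c')
      (T := n + c) (Hi := Hi) (κ := κ) hi01 (fun u => by rw [hxr]; exact hr u) hm0 hmc
      h2a h2b h2s hd₀ hd₀c hRp htotx rfl
    have hlhs : ∑ u, ((x u : ℤ) + R u - d₂ u - d₀ u) * (2 * P u - (i₀ + i₁)) =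
        2 * σ - 2 * P2 - 2 * α - (i₀ + i₁) * n := by
      have e1 : ∀ u, ((x u : ℤ) + R u - d₂ u - d₀ u) * (2 * P u - (i₀ + i₁)) =
          (2 * ((r u : ℤ) * P u) - 2 * ((d₂ u : ℤ) * P u) - 2 * ((d₀ u : ℤ) * P u)) -
            (i₀ + i₁) * ((r u : ℤ) - d₂ u - d₀ u) := by
        intro u
        rw [hxR]
        ring
      rw [sum_congr rfl fun u _ => e1 u, sum_sub_distrib, sum_sub_distrib,
        sum_sub_distrib, ← mul_sum, ← mul_sum, ← mul_sum, ← mul_sum, sum_sub_distrib,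
        sum_sub_distrib, hα', hd₀', hrt, ← Nat.cast_sum, h2s]
      ring
    rw [hlhs, hTn] at hmo
    have e9 : i₁ - i₀ = (b : ℤ) := by rw [hb]; ring
    rw [e9] at hmo
    have e10 : 0 < 2 * σ - 2 * P2 - 2 * α - (i₀ + i₁) * n := by
      have : 2 * (σ - α + o * (-(s * i₀ + m))) = 2 * σ - 2 * α - n * (i₀ + i₁) := by
        linear_combination -hvn
      linarith
    have e11 : (2 * c' + 1 : ℤ) ≤ s * (((b + 1) * M - o : ℕ) : ℤ) + 2 * Hi := by
      by_contra hcon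
      rw [not_le] at hcon
      have e12 : (b : ℤ) * ((b + 1) * ((M * s : ℕ) : ℤ) - (n + c' + κ) - c' + 2 * Hi + κ) ≤
          b * 0 := by
        refine mul_le_mul_of_nonneg_left ?_ (by positivity)
        push_cast
        linarith
      linarith
    exact_mod_cast e11

open FINXAux in
open Pool.Agent.Lib.MPa7239a.RF.FINISHAux (split3) in
/-- the case `s = 1` without a condition on the position of `R`: c' (b + 1) + 5 <= (b + 1) M + 6 -/
theorem finish_one {o : ℕ} [NeZero o] {r : ZMod o → ℕ} {M c q : ℕ}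
    {R d₀ : ZMod o → ℕ} {c' : ℕ} {α : ℤ} (hM : 1 ≤ M) (ho : M < o)
    (htot : ∑ u, r u = o + c) (hr : ∀ u, r u ≤ M) (hRr : ∀ u, R u ≤ r u) (hcc : c = c' + 3)
    (h2c : 2 * c' ≤ ∑ u, (r u - R u)) (hR6 : ∑ u, R u ≤ 6)
    (hc : M + 2 ≤ c')
    (hd₀ : ∀ u, d₀ u ≤ R u) (hd₀c : ∑ u, d₀ u = 3) (hα : ∑ u, (d₀ u : ℤ) * pos o q u = α)
    (hav : ∀ d₁ d₂ : ZMod o → ℕ, (∀ u, d₁ u ≤ r u - R u) → (∀ u, d₂ u ≤ r u - R u) →
      ∑ u, d₁ u = c' → ∑ u, d₂ u = c' → ∀ v : ℤ, ∑ u, (d₁ u : ℤ) * pos o q u ≤ v →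
      v ≤ ∑ u, (d₂ u : ℤ) * pos o q u → ((v + α : ℤ) : ZMod o) ≠ ∑ u, r u • u) : False := by
  classical
  obtain ⟨i₀, i₁, b, d₁, d₂, hb, h1x, h2x, h1s, h2s, h1a, h1b, h2a, h2b, h1h, h2h, hmc, hm0,
    hforb, hE1⟩ := ends (J := 0) (α := α) hRr (by omega) h2c
      (fun d₁ d₂ e1 e2 e3 e4 v e5 e6 => hav d₁ d₂ e1 e2 e3 e4 v e5 (by simpa using e6))
  set x : ZMod o → ℕ := fun u => r u - R u with hx
  have hxr : ∀ u, x u + R u = r u := fun u => Nat.sub_add_cancel (hRr u)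
  set P : ZMod o → ℤ := pos o q with hP
  have hi01 : i₀ ≤ i₁ := by omega
  set Hi := ∑ u with i₁ < P u, x u with hHi
  set Lo := ∑ u with P u < i₀, x u with hLo
  have hcount : o + c' + 3 ≤ (b + 1) * M + Lo + Hi + 6 := by
    have e1 := split3 P hi01 (fun u => (r u : ℤ))
    have e2 : ∑ u with (i₀ ≤ P u ∧ P u ≤ i₁), (r u : ℤ) ≤ (b + 1) * M := by
      have e3 : ∑ u with (i₀ ≤ P u ∧ P u ≤ i₁), (r u : ℤ) ≤
          ∑ _u with (i₀ ≤ P _u ∧ P _u ≤ i₁), (M : ℤ) :=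
        sum_le_sum fun u _ => by exact_mod_cast hr u
      rw [sum_const, nsmul_eq_mul, hmc] at e3
      have e4 : i₁ - i₀ + 1 = (b : ℤ) + 1 := by omega
      rw [e4] at e3
      linarith
    have e4 : ∑ u with P u < i₀, (r u : ℤ) + ∑ u with i₁ < P u, (r u : ℤ) ≤ Lo + Hi + 6 := by
      have e5 : ∀ u, (r u : ℤ) = x u + R u := fun u => by exact_mod_cast (hxr u).symm
      have e6 : ∑ u with P u < i₀, (R u : ℤ) + ∑ u with i₁ < P u, (R u : ℤ) ≤ 6 := by
        rw [← sum_union (by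
          rw [disjoint_filter]
          intro u _ h3 h4
          omega)]
        refine (sum_le_sum_of_subset_of_nonneg (subset_univ _)
          fun u _ _ => by positivity).trans ?_
        exact_mod_cast hR6
      rw [sum_congr rfl fun u _ => e5 u, sum_congr (s₁ := univ.filter fun u => i₁ < P u) rfl
        fun u _ => e5 u, sum_add_distrib, sum_add_distrib, hHi, hLo]
      push_cast
      linarith
    have e7 : ∑ u, (r u : ℤ) = o + c := by
      rw [← Nat.cast_sum, htot]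
      push_cast
      rfl
    rw [e7, hcc] at e1
    have e8 : ((o + c' + 3 : ℕ) : ℤ) ≤ (((b + 1) * M + Lo + Hi + 6 : ℕ) : ℤ) := by
      push_cast at e1 ⊢
      linarith
    exact_mod_cast e8
  have h1 : (M + 2) * (b + 1) ≤ c' * (b + 1) := Nat.mul_le_mul_right _ hc
  nlinarith

end Pool.Agent.Lib.MPa7239a.RX
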