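import Pool.Agent.Lib.MP_a7239a_co.RX.NUMX

/-!
# The sharp formula, module TOPX: a fat row of the window with more than `c` elements
-/

set_option autoImplicit false

open Finset

namespace Pool.Agent.Lib.MPa7239a.RX

open Pool.Agent.Lib.MPa7239a.RB
open Pool.Agent.Lib.MPa7239a.RH
open Pool.Agent.Lib.MPa7239a.RF (exc excess pos pos_cast pos_ge pos_lt pos_of pos_inj mem_near_iff
  GameF ww)

section
variable {o : ℕ} [NeZero o] {r : ZMod o → ℕ} {M s n c q L D θ : ℕ}

/-- `(s q + 1) (c - M - L) ≤ (s - 1) M` -/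
theorem nf_cq (N : NumX r M s n c q L D) (hr : ∀ u, r u ≤ M * s) (hs : 1 ≤ s) :
    (s * q + 1) * c ≤ (s * q + 1) * (M + L) + (s - 1) * M := by
  have h1 := nf_star N hr
  have h2 := N.win
  obtain ⟨a, ha⟩ : ∃ a, s = a + 1 := ⟨s - 1, by omega⟩
  subst ha
  rw [Nat.add_sub_cancel] at h1 ⊢
  have h3 : a * (q * c) ≤ a * (o + q * L) := Nat.mul_le_mul_left _ (by omega)
  have e1 : ((a + 1) * q + 1) * c = a * (q * c) + (q + 1) * c := by ring
  have e2 : ((a + 1) * q + 1) * (M + L) + a * M + a * (q * L) =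
      (q + 1) * (M * (a + 1) + L) + a * (q * L) + a * (q * L) := by ring
  have e3 : a * (o + q * L) = a * o + a * (q * L) := by ring
  omega

/-- a fat row of the window with more than `c` elements if `s ≥ 2` -/
theorem top_row (N : NumX r M s n c q L D) (hr : ∀ u, r u ≤ M * s) (hL : 1000000 * (L + 1) ≤ M)
    (hθ : 1000 * θ ≤ M) (hc : M + exc M n o + 5 ≤ c) (ho : M < o) (hq : q < 1000) :
    ∃ i : ℕ, i ≤ q ∧ M * s + θ ≤ 2 * r (i : ZMod o) ∧ 48 * M ≤ 100 * r (i : ZMod o) ∧
      (2 ≤ s → c + 3 ≤ r (i : ZMod o)) := by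
  have hs1 := N.s1
  have hMs : M ≤ M * s := Nat.le_mul_of_pos_right _ hs1
  rcases Nat.eq_zero_or_pos q with rfl | hq1
  · obtain ⟨h1, h2, -⟩ := nf_q0 N hr hL (by omega) ho
    refine ⟨0, le_rfl, ?_, ?_, fun hs => ?_⟩
    · rw [Nat.cast_zero]
      omega
    · rw [Nat.cast_zero]
      omega
    · rw [Nat.cast_zero]
      have h3 : M * 2 ≤ M * s := Nat.mul_le_mul_left _ hs
      omega
  · have h1 := nf_pair N hr hL hc ho hq1 hq (i := 0) (j := 1) (Nat.zero_le _) hq1 (by norm_num)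
    obtain ⟨i, hi, h2⟩ : ∃ i : ℕ, i ≤ q ∧ 100 * (M * s) + 98 * M ≤ 200 * r (i : ZMod o) := by
      rcases Nat.le_total (r ((0 : ℕ) : ZMod o)) (r ((1 : ℕ) : ZMod o)) with h3 | h3
      · exact ⟨1, hq1, by omega⟩
      · exact ⟨0, Nat.zero_le _, by omega⟩
    refine ⟨i, hi, by omega, by omega, fun hs => ?_⟩
    have h3 := nf_cq N hr hs1
    have h4 := nf_c N hr hL (by omega) ho
    rcases (by omega : s = 2 ∨ s = 3 ∨ 4 ≤ s) with rfl | rfl | hs4
    · -- `(2 q + 1) (c - M - L) ≤ M`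
      have h5 : c ≤ M + L + M / 3 + 1 := by
        by_contra hcon
        push Not at hcon
        have h6 : (2 * q + 1) * (M + L + M / 3 + 2) ≤ (2 * q + 1) * c :=
          Nat.mul_le_mul_left _ hcon
        have e1 : (2 * q + 1) * (M + L + M / 3 + 2) =
            (2 * q + 1) * (M + L) + (2 * q + 1) * (M / 3 + 2) := by ring
        have h7 : 3 * (M / 3 + 2) ≤ (2 * q + 1) * (M / 3 + 2) :=
          Nat.mul_le_mul_right _ (by omega)
        omega
      omega
    · have h5 : c ≤ M + L + M / 2 + 1 := by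
        by_contra hcon
        push Not at hcon
        have h6 : (3 * q + 1) * (M + L + M / 2 + 2) ≤ (3 * q + 1) * c :=
          Nat.mul_le_mul_left _ hcon
        have e1 : (3 * q + 1) * (M + L + M / 2 + 2) =
            (3 * q + 1) * (M + L) + (3 * q + 1) * (M / 2 + 2) := by ring
        have h7 : 4 * (M / 2 + 2) ≤ (3 * q + 1) * (M / 2 + 2) :=
          Nat.mul_le_mul_right _ (by omega)
        omega
      omega
    · have h5 : M * 4 ≤ M * s := Nat.mul_le_mul_left _ hs4
      omega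

end

end Pool.Agent.Lib.MPa7239a.RX
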