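import Pool.Agent.Lib.MP_a7239a_co.RX.EXS
import Pool.Agent.Lib.MP_a7239a_co.RX.TOPX
import Pool.Agent.Lib.MP_a7239a_co.RX.FINX

/-!
# The explicit formula up to 4: the composition for `q < 1000` (module CORES)
-/

set_option autoImplicit false

open Finset

namespace Pool.Agent.Lib.MPa7239a.RX

open Pool.Agent.Lib.MPa7239a.RB
open Pool.Agent.Lib.MPa7239a.RH
open Pool.Agent.Lib.MPa7239a.RF (exc excess pos pos_cast pos_ge pos_lt pos_of pos_inj mem_near_iff GameF ww)

section
variable {o : ℕ} [NeZero o] {r : ZMod o → ℕ} {M s n c q L D θ : ℕ}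

/-- sums of positions and sums of classes -/
theorem cast_sum_pos (d : ZMod o → ℕ) :
    ((∑ u, (d u : ℤ) * pos o q u : ℤ) : ZMod o) = ∑ u, d u • u := by
  rw [Int.cast_sum]
  refine sum_congr rfl fun u _ => ?_
  rw [Int.cast_mul, pos_cast, Int.cast_natCast, nsmul_eq_mul]

theorem core_small (N : NumX r M s n c q L D) (g : GameF r (M * s) θ c) (hθ : 1000 * θ ≤ M)
    (hL : 1000000 * (L + 1) ≤ M) (hc : M + exc M n o + 5 ≤ c) (ho : M < o) (hq : q < 1000) :
    False := by
  have hr := g.row_le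
  have hc' : M + 5 ≤ c := by omega
  have hM0 := N.M_pos
  have hoL := N.o_large
  obtain ⟨i, hi, hfat, h48, hbig⟩ := top_row N hr hL hθ hc ho hq
  set u₀ : ZMod o := (i : ZMod o) with hu₀
  obtain ⟨c', hcc⟩ : ∃ c', c = c' + 3 := ⟨c - 3, by omega⟩
  set R : ZMod o → ℕ := fun u => if u = u₀ then 6 else 0 with hR
  set e : ZMod o → ℕ := fun u => if u = u₀ then 3 else 0 with he
  have hR6 : ∑ u, R u = 6 := by
    rw [hR, sum_ite_eq', if_pos (mem_univ _)]
  have he3 : ∑ u, e u = 3 := by
    rw [he, sum_ite_eq', if_pos (mem_univ _)]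
  have hRr : ∀ u, R u ≤ r u := by
    intro u
    rw [hR]
    beta_reduce
    split_ifs with h
    · rw [h]
      omega
    · exact Nat.zero_le _
  have heR : ∀ u, e u ≤ R u := by
    intro u
    rw [hR, he]
    beta_reduce
    split_ifs <;> omega
  have hRu₀ : R u₀ = 6 := by
    rw [hR]
    exact if_pos rfl
  have heu₀ : e u₀ = 3 := by
    rw [he]
    exact if_pos rfl
  have hsub : ∑ u, (r u - R u) + ∑ u, R u = n + c := by
    rw [← sum_add_distrib, ← N.total]
    exact sum_congr rfl fun u _ => Nat.sub_add_cancel (hRr u)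
  have h2n := nf_cn N hr hL hc' ho
  have hav : ∀ d₁ d₂ : ZMod o → ℕ, (∀ u, d₁ u ≤ r u - R u) → (∀ u, d₂ u ≤ r u - R u) →
      ∑ u, d₁ u = c' → ∑ u, d₂ u = c' → ∀ v : ℤ, ∑ u, (d₁ u : ℤ) * pos o q u ≤ v →
      v ≤ ∑ u, (d₂ u : ℤ) * pos o q u →
      ((v + ∑ u, (e u : ℤ) * pos o q u : ℤ) : ZMod o) ≠ ∑ u, r u • u := by
    intro d₁ d₂ hd₁ hd₂ hd₁c hd₂c v hv1 hv2 hbad
    obtain ⟨d, hd, hdc, hdv⟩ := exact_small N hr hL hc ho hq hR6.le hcc hd₁ hd₂ hd₁c hd₂c hv1 hv2
    have hadm : Adm r c (fun u => d u + e u) := by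
      refine ⟨fun u => ?_, ?_, ?_⟩
      · have h1 := hd u
        have h2 := heR u
        have h3 := hRr u
        show d u + e u ≤ r u
        omega
      · rw [sum_add_distrib, hdc, he3, hcc]
      · have h1 : ∑ u, (d u + e u) • u = ∑ u, d u • u + ∑ u, e u • u := by
          rw [← sum_add_distrib]
          exact sum_congr rfl fun u _ => add_smul _ _ _
        rw [h1, ← cast_sum_pos (q := q) d, ← cast_sum_pos (q := q) e, hdv, ← Int.cast_add, hbad]
    refine g.rule1 _ hadm u₀ hfat ?_ ?_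
    · show 3 ≤ d u₀ + e u₀
      omega
    · have h1 := hd u₀
      have h3 := hRr u₀
      show d u₀ + e u₀ + 3 ≤ r u₀
      omega
  rcases Nat.lt_or_ge s 2 with hs | hs
  · have hs1 : s = 1 := by have := N.s1; omega
    subst hs1
    have hos := N.os
    rw [Nat.mul_one] at hos
    subst hos
    refine finish_one (q := q) (M := M) (by omega) ho N.total (fun u => ?_) hRr hcc (by omega)
      hR6.le (by omega) heR he3 rfl hav
    have := hr u
    rwa [Nat.mul_one] at this
  · have hb := hbig hs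
    refine finish_x (q := q) (J := 0) N.os (by omega) ho N.total hr hRr hcc (by omega)
      (Or.inl (by omega)) heR he3 rfl ?_ ?_
    · intro d₁ d₂ hd₁ hd₂ hd₁c hd₂c v hv1 hv2
      refine hav d₁ d₂ hd₁ hd₂ hd₁c hd₂c v hv1 ?_
      push_cast at hv2
      omega
    · intro i₀ i₁ h0 h1 u hu
      have hu' : u = u₀ := by
        by_contra hne
        apply hu
        rw [hR]
        exact if_neg hne
      subst hu'
      constructor
      · by_contra hlt
        push Not at hlt
        have h3 : r u₀ - R u₀ ≤ ∑ u with pos o q u < i₀, (r u - R u) :=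
          single_le_sum (f := fun u => r u - R u) (fun _ _ => Nat.zero_le _)
            (mem_filter.2 ⟨mem_univ _, hlt⟩)
        omega
      · by_contra hlt
        push Not at hlt
        have h3 : r u₀ - R u₀ ≤ ∑ u with i₁ < pos o q u, (r u - R u) :=
          single_le_sum (f := fun u => r u - R u) (fun _ _ => Nat.zero_le _)
            (mem_filter.2 ⟨mem_univ _, hlt⟩)
        omega

end

end Pool.Agent.Lib.MPa7239a.RX
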