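import Pool.Agent.Lib.MP_a7239a_co.RF.Defs

/-!
# The explicit formula up to 4: definitions (folder RX, captain helper14)
-/

set_option autoImplicit false

open Finset

namespace Pool.Agent.Lib.MPa7239a.RX

open Pool.Agent.Lib.MPa7239a.RB
open Pool.Agent.Lib.MPa7239a.RH
open Pool.Agent.Lib.MPa7239a.RF (exc excess pos pos_cast pos_ge pos_lt pos_of pos_inj mem_near_iff GameF ww)

/-- the numbers of the input for the formula (real `t = n / M ≥ 1.01`, `c ≥ M + 5`) -/
structure NumX {o : ℕ} [NeZero o] (r : ZMod o → ℕ) (M s n c q L D : ℕ) : Prop where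
  os : o * s = n
  s1 : 1 ≤ s
  mn : 101 * M ≤ 100 * n
  total : ∑ u, r u = n + c
  mc : M + 5 ≤ c
  win : q * c + D + 2 ≤ o + q * L
  mo : c ≤ o + 2 * L
  hL : 1000000 * (L + 1) ≤ M
  far_mul : ∀ w : ℕ, (w + 1) * far r q w ≤ D + (w + 1) * L
  far_two : far r q 0 + far r q 1 ≤ D + 2 * L

section

variable {o : ℕ} [NeZero o] {r d : ZMod o → ℕ} {M s n c q L D h : ℕ}

theorem NumX.M_pos (N : NumX r M s n c q L D) : 1000000 ≤ M := by
  have h3 := N.hL
  omega

theorem NumX.o_large (N : NumX r M s n c q L D) : 100000 * (q + 1) ≤ o := by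
  have h1 := N.win
  have h2 := N.mo
  have h3 := N.hL
  have h4 := N.mc
  rcases Nat.eq_zero_or_pos q with rfl | hq
  · omega
  · have h5 : q * (L + 397999) ≤ q * c := Nat.mul_le_mul_left _ (by omega)
    have h6 : q * (L + 397999) = q * L + 397999 * q := by ring
    omega

theorem NumX.cast_ne (N : NumX r M s n c q L D) {i j : ℤ} (hij : i ≠ j)
    (h : |i - j| < 100000 * (q + 1)) : (i : ZMod o) ≠ (j : ZMod o) := by
  intro he
  rw [ZMod.intCast_eq_intCast_iff_dvd_sub] at he
  have h1 := N.o_large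
  have h2 : (100000 * (q + 1) : ℤ) ≤ o := by exact_mod_cast h1
  have h3 : |j - i| < (o : ℤ) := by
    rw [abs_sub_comm]
    omega
  have h4 := Int.eq_zero_of_abs_lt_dvd he h3
  omega

/-- the sum over the near classes -/
theorem NumX.sum_near (N : NumX r M s n c q L D) (f : ZMod o → ℕ) {w : ℕ} (hw : w ≤ 1) :
    ∑ u ∈ near o q w, f u = ∑ i ∈ Icc (-(w : ℤ)) ((q : ℤ) + w), f (i : ZMod o) := by
  rw [near, sum_image]
  intro i hi j hj hij
  by_contra hne
  rw [mem_coe, mem_Icc] at hi hj
  refine N.cast_ne hne ?_ hij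
  rw [abs_lt]
  constructor <;> omega

theorem NumX.sum_main (N : NumX r M s n c q L D) (f : ZMod o → ℕ) :
    ∑ i ∈ range (q + 1), f (i : ZMod o) + far f q 0 = ∑ u, f u := by
  rw [← sum_near_add_far f q 0, N.sum_near f (Nat.zero_le _)]
  congr 1
  simp only [Nat.cast_zero, neg_zero, add_zero]
  rw [sum_Icc_range (fun i => f (i : ZMod o))]
  refine sum_congr rfl fun i _ => ?_
  simp

theorem NumX.main_sum (N : NumX r M s n c q L D) :
    ∑ i ∈ range (q + 1), r (i : ZMod o) + far r q 0 = n + c := by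
  rw [N.sum_main, N.total]

theorem NumX.far_zero (N : NumX r M s n c q L D) : far r q 0 ≤ D + L := by
  have h1 := N.far_mul 0
  omega

theorem NumX.far_split' (N : NumX r M s n c q L D) (f : ZMod o → ℕ) :
    far f q 0 = far f q 1 + f (-1) + f ((q : ZMod o) + 1) := by
  have h1 := sum_near_add_far f q 0
  have h2 := sum_near_add_far f q 1
  rw [N.sum_near f (Nat.zero_le _)] at h1
  rw [N.sum_near f le_rfl] at h2
  simp only [Nat.cast_zero, neg_zero, add_zero] at h1
  simp only [Nat.cast_one] at h2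
  have h3 : Icc (-1 : ℤ) ((q : ℤ) + 1) = insert (-1) (insert ((q : ℤ) + 1) (Icc (0 : ℤ) q)) := by
    ext i
    simp only [mem_Icc, mem_insert]
    omega
  rw [h3, sum_insert, sum_insert] at h2
  · push_cast at h2
    omega
  · rw [mem_Icc]
    omega
  · rw [mem_insert, mem_Icc]
    omega

theorem NumX.far_split (N : NumX r M s n c q L D) :
    far r q 0 = far r q 1 + r (-1) + r ((q : ZMod o) + 1) := N.far_split' r

theorem NumX.one_row (N : NumX r M s n c q L D) (hr : ∀ u, r u ≤ h) {i : ℕ} (hi : i ≤ q) :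
    n + c ≤ r (i : ZMod o) + q * h + far r q 0 := by
  rw [← N.main_sum]
  have h1 : i ∈ range (q + 1) := mem_range.2 (by omega)
  rw [← add_sum_erase _ (fun i : ℕ => r (i : ZMod o)) h1]
  have h2 : ∑ x ∈ (range (q + 1)).erase i, r (x : ZMod o) ≤ #((range (q + 1)).erase i) • h :=
    sum_le_card_nsmul _ _ _ fun x _ => hr _
  rw [card_erase_of_mem h1, card_range, Nat.add_sub_cancel, smul_eq_mul] at h2
  omega

theorem NumX.two_row (N : NumX r M s n c q L D) (hr : ∀ u, r u ≤ h) {i j : ℕ} (hi : i ≤ q)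
    (hj : j ≤ q) (hij : i ≠ j) :
    n + c + h ≤ r (i : ZMod o) + r (j : ZMod o) + q * h + far r q 0 := by
  rw [← N.main_sum]
  have h1 : i ∈ range (q + 1) := mem_range.2 (by omega)
  have h1' : j ∈ (range (q + 1)).erase i := mem_erase.2 ⟨hij.symm, mem_range.2 (by omega)⟩
  rw [← add_sum_erase _ (fun i : ℕ => r (i : ZMod o)) h1,
    ← add_sum_erase _ (fun i : ℕ => r (i : ZMod o)) h1']
  have h2 : ∑ x ∈ ((range (q + 1)).erase i).erase j, r (x : ZMod o) ≤
      #(((range (q + 1)).erase i).erase j) • h :=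
    sum_le_card_nsmul _ _ _ fun x _ => hr _
  rw [card_erase_of_mem h1', card_erase_of_mem h1, card_range, Nat.add_sub_cancel,
    smul_eq_mul] at h2
  have h3 : (q - 1) * h + h = q * h := by
    obtain ⟨a, ha⟩ : ∃ a, q = a + 1 := ⟨q - 1, by omega⟩
    rw [ha, Nat.add_sub_cancel]
    ring
  omega

/-- the omitted elements: main classes and the rest -/
theorem NumX.omit_sum (N : NumX r M s n c q L D) (hd : Adm r c d) :
    ∑ i ∈ range (q + 1), d (i : ZMod o) + far d q 0 = c := by
  rw [N.sum_main, hd.card]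

theorem NumX.mirror (N : NumX r M s n c q L D) :
    NumX (fun u => r ((q : ZMod o) - u)) M s n c q L D where
  os := N.os
  s1 := N.s1
  mn := N.mn
  total := by
    rw [← N.total]
    exact sum_equiv (Equiv.subLeft (q : ZMod o)) (fun _ => by simp) fun u _ => by
      rw [Equiv.subLeft_apply]
  mc := N.mc
  win := N.win
  mo := N.mo
  hL := N.hL
  far_mul := fun w => by
    rw [far_mirror]
    exact N.far_mul w
  far_two := by
    rw [far_mirror, far_mirror]
    exact N.far_two

/-- `99 q M ≤ 100 o` -/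
theorem NumX.q_le (N : NumX r M s n c q L D) : 99 * (q * M) ≤ 100 * o := by
  have h1 := N.mc
  have h2 := N.hL
  have h3 := N.win
  have h4 : 99 * M + 100 * L ≤ 100 * c := by omega
  have h5 := Nat.mul_le_mul_left q h4
  have e1 : q * (99 * M + 100 * L) = 99 * (q * M) + 100 * (q * L) := by ring
  have e2 : q * (100 * c) = 100 * (q * c) := by ring
  omega

end


end Pool.Agent.Lib.MPa7239a.RX
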