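import Pool.Agent.Lib.MP_a7239a_co.RX.NUMX

/-!
# The explicit formula up to 4, module WIDX (from RF/WIDTH): the sums of `k` near elements spread out

`T`, the number of near elements, is `n + c - V`, where `V` is the number of the others.  Rows have
at most `h = M s` elements.  `conc`: if `T ≥ a h + e` and `k ≤ h`, then the rows cut at `k` have
together at least `a k + min k e` elements.
-/

set_option autoImplicit false

open Finset

namespace Pool.Agent.Lib.MPa7239a.RX

open Pool.Agent.Lib.MPa7239a.RB
open Pool.Agent.Lib.MPa7239a.RH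
open Pool.Agent.Lib.MPa7239a.RF (exc excess pos pos_cast pos_ge pos_lt pos_of pos_inj mem_near_iff GameF ww)

/-- concavity: rows of at most `h` elements, cut at `k ≤ h` -/
theorem conc {ι : Type*} [DecidableEq ι] (S : Finset ι) (r : ι → ℕ) {h k a e : ℕ} (hk : k ≤ h)
    (hr : ∀ u ∈ S, r u ≤ h) (hT : a * h + e ≤ ∑ u ∈ S, r u) :
    a * k + min k e ≤ ∑ u ∈ S, min k (r u) := by
  set P := S.filter (fun u => k ≤ r u) with hP
  set Q := S.filter (fun u => ¬ k ≤ r u) with hQ
  have h1 : ∑ u ∈ S, min k (r u) = #P * k + ∑ u ∈ Q, r u := by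
    rw [← sum_filter_add_sum_filter_not S (fun u => k ≤ r u)]
    congr 1
    · rw [← smul_eq_mul, ← sum_const]
      refine sum_congr rfl fun u hu => ?_
      rw [mem_filter] at hu
      exact min_eq_left hu.2
    · refine sum_congr rfl fun u hu => ?_
      rw [mem_filter] at hu
      exact min_eq_right (by omega)
  have h2 : ∑ u ∈ S, r u ≤ #P * h + ∑ u ∈ Q, r u := by
    rw [← sum_filter_add_sum_filter_not S (fun u => k ≤ r u)]
    refine Nat.add_le_add_right ?_ _
    rw [← smul_eq_mul]
    exact sum_le_card_nsmul _ _ _ fun u hu => hr u (mem_filter.1 hu).1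
  rw [h1]
  rcases Nat.lt_or_ge a (#P) with h3 | h3
  · have h4 : (a + 1) * k ≤ #P * k := Nat.mul_le_mul_right _ h3
    have e1 : (a + 1) * k = a * k + k := by ring
    have h5 : min k e ≤ k := min_le_left _ _
    omega
  · obtain ⟨b, hb⟩ : ∃ b, a = #P + b := ⟨a - #P, by omega⟩
    have h4 : b * k ≤ b * h := Nat.mul_le_mul_left _ hk
    have e1 : a * k = #P * k + b * k := by rw [hb]; ring
    have e2 : a * h = #P * h + b * h := by rw [hb]; ring
    have h5 : min k e ≤ e := min_le_right _ _
    omega

/-- proportional version -/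
theorem prop {ι : Type*} (S : Finset ι) (r : ι → ℕ) {h k : ℕ} (hk : k ≤ h)
    (hr : ∀ u ∈ S, r u ≤ h) :
    k * ∑ u ∈ S, r u ≤ h * ∑ u ∈ S, min k (r u) := by
  rw [mul_sum, mul_sum]
  refine sum_le_sum fun u hu => ?_
  rcases Nat.le_or_ge k (r u) with h1 | h1
  · rw [min_eq_left h1, mul_comm]
    exact Nat.mul_le_mul_right _ (hr u hu)
  · rw [min_eq_right h1]
    exact Nat.mul_le_mul_right _ hk

section
variable {o : ℕ} [NeZero o] {r : ZMod o → ℕ} {M s n c q L D : ℕ}

/-- the case `s = 1` -/
theorem width_one (N : NumX r M 1 n c q L D) (hr : ∀ u, r u ≤ M) (hL : 1000000 * (L + 1) ≤ M)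
    (hc : M + 5 ≤ c) {k : ℕ} (hk : k + 3 ≤ c)
    (hk2 : c ≤ k + 16 + far r q (ww q)) :
    k + (o + q) / 2 + 1 + 20 * (q + 3) ≤ ∑ u ∈ near o q (ww q), min k (r u) := by
  have hr' : ∀ u, r u ≤ M * 1 := fun u => by rw [Nat.mul_one]; exact hr u
  have hT := sum_near_add_far r q (ww q)
  rw [N.total] at hT
  have hV := nf_V1 N hr' hL hc
  have ho := N.o_large
  have hos := N.os
  rw [Nat.mul_one] at hos
  have hmn := N.mn
  have hc1 := nf_c1 N hr' rfl
  set V := far r q (ww q) with hVdef
  rcases Nat.lt_or_ge M k with hkM | hkM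
  · have h1 : ∑ u ∈ near o q (ww q), min k (r u) = ∑ u ∈ near o q (ww q), r u := by
      refine sum_congr rfl fun u _ => min_eq_right ?_
      have := hr u
      omega
    rw [h1]
    omega
  · have h1 := prop (near o q (ww q)) r hkM fun u _ => hr u
    set T := ∑ u ∈ near o q (ww q), r u with hTdef
    set S := ∑ u ∈ near o q (ww q), min k (r u) with hSdef
    -- `T ≥ M + (n - V)`
    obtain ⟨g, hg⟩ : ∃ g, T = M + g := ⟨T - M, by omega⟩
    have hg1 : 799 * n ≤ 1000 * g := by omega
    have hk1 : 798 * M ≤ 1000 * k := by omega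
    have h2 : (798 * M) * (799 * n) ≤ (1000 * k) * (1000 * g) := Nat.mul_le_mul hk1 hg1
    have h3 : M * (k + (o + q) / 2 + 1 + 20 * (q + 3)) ≤ M * S := by
      refine le_trans ?_ h1
      rw [hg]
      have h4 : 1000000 * (M * ((o + q) / 2 + 1 + 20 * (q + 3))) ≤ 1000000 * (k * g) := by
        calc 1000000 * (M * ((o + q) / 2 + 1 + 20 * (q + 3)))
            = M * (1000000 * ((o + q) / 2 + 1 + 20 * (q + 3))) := by ring
          _ ≤ M * (637602 * n) := by
            refine Nat.mul_le_mul_left _ ?_
            omega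
          _ = (798 * M) * (799 * n) := by ring
          _ ≤ (1000 * k) * (1000 * g) := h2
          _ = 1000000 * (k * g) := by ring
      have h5 : M * ((o + q) / 2 + 1 + 20 * (q + 3)) ≤ k * g :=
        Nat.le_of_mul_le_mul_left h4 (by norm_num)
      calc M * (k + (o + q) / 2 + 1 + 20 * (q + 3))
          = k * M + M * ((o + q) / 2 + 1 + 20 * (q + 3)) := by ring
        _ ≤ k * M + k * g := Nat.add_le_add_left h5 _
        _ = k * (M + g) := by ring
    have hM0 := N.M_pos
    exact Nat.le_of_mul_le_mul_left h3 (by omega)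

/-- the case `s ≥ 2` -/
theorem width_two (N : NumX r M s n c q L D) (hr : ∀ u, r u ≤ M * s)
    (hL : 1000000 * (L + 1) ≤ M) (hc : M + exc M n o + 5 ≤ c) (ho : M < o) (hs : 2 ≤ s) {k : ℕ}
    (hk : k + 3 ≤ c) (hk2 : c ≤ k + 16 + far r q (ww q)) :
    k + (o + q) / 2 + 1 + 20 * (q + 3) ≤ ∑ u ∈ near o q (ww q), min k (r u) := by
  have hc' : M + 5 ≤ c := by omega
  have hT := sum_near_add_far r q (ww q)
  rw [N.total] at hT
  have hV := nf_V2 N hr hL hc' hs
  have hol := N.o_large
  have hos := N.os
  have hwin := N.win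
  have hcc := nf_c N hr hL hc' ho
  have hM0 := N.M_pos
  have hqc : q * (M + 5) ≤ q * c := Nat.mul_le_mul_left _ hc'
  -- `k ≤ h`
  have hkh : k ≤ M * s := by
    rcases Nat.lt_or_ge s 3 with hs3 | hs3
    · have hs2 : s = 2 := by omega
      subst hs2
      have hstar := nf_star N hr
      have h1 : (q + 1) * c ≤ (q + 1) * (M * 2 + L) := by
        have : 0 ≤ (2 - 1) * o := Nat.zero_le _
        omega
      have e1 : (2 - 1) * o = o := Nat.one_mul _
      rw [e1] at hstar
      -- `(2 q + 1) c ≤ (q + 1) (2 M + L) + q L`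
      by_contra hcon
      push Not at hcon
      have h2 : (q + 1) * (M * 2) ≤ (q + 1) * c := Nat.mul_le_mul_left _ (by omega)
      have h3 : (q + 1) * L < o := by
        have h4 := N.o_large
        have h5 := N.q_le
        have h6 : 1000000 * ((q + 1) * (L + 1)) ≤ (q + 1) * M := by
          calc 1000000 * ((q + 1) * (L + 1)) = (q + 1) * (1000000 * (L + 1)) := by ring
            _ ≤ (q + 1) * M := Nat.mul_le_mul_left _ hL
        have e2 : (q + 1) * (L + 1) = (q + 1) * L + q + 1 := by ring
        have e3 : (q + 1) * M = q * M + M := by ring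
        omega
      have e2 : (q + 1) * (M * 2 + L) = (q + 1) * (M * 2) + (q + 1) * L := by ring
      omega
    · have h1 : M * 3 ≤ M * s := Nat.mul_le_mul_left _ hs3
      omega
  set V := far r q (ww q) with hVdef
  have hkV : 898 * M ≤ 1000 * k := by omega
  have hrn : ∀ u ∈ near o q (ww q), r u ≤ M * s := fun u _ => hr u
  rcases Nat.le_or_ge (5 * M) (2 * o) with hx | hx
  · -- `x ≥ 5 / 2`
    have h1 := prop (near o q (ww q)) r hkh hrn
    set T := ∑ u ∈ near o q (ww q), r u with hTdef
    set S := ∑ u ∈ near o q (ww q), min k (r u) with hSdef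
    have hTn : n ≤ T := by omega
    -- `M S ≥ k o`
    have h2 : s * (k * o) ≤ s * (M * S) := by
      calc s * (k * o) = k * (o * s) := by ring
        _ = k * n := by rw [hos]
        _ ≤ k * T := Nat.mul_le_mul_left _ hTn
        _ ≤ M * s * S := h1
        _ = s * (M * S) := by ring
    have h3 : k * o ≤ M * S := Nat.le_of_mul_le_mul_left h2 (by omega)
    obtain ⟨g, hg⟩ : ∃ g, o = M + g := ⟨o - M, by omega⟩
    have hg1 : 6 * o ≤ 10 * g := by omega
    have h4 : (898 * M) * (6 * o) ≤ (1000 * k) * (10 * g) := Nat.mul_le_mul hkV hg1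
    have h5 : 10000 * (M * ((o + q) / 2 + 1 + 20 * (q + 3))) ≤ 10000 * (k * g) := by
      calc 10000 * (M * ((o + q) / 2 + 1 + 20 * (q + 3)))
          = M * (10000 * ((o + q) / 2 + 1 + 20 * (q + 3))) := by ring
        _ ≤ M * (5388 * o) := by
          refine Nat.mul_le_mul_left _ ?_
          omega
        _ = (898 * M) * (6 * o) := by ring
        _ ≤ (1000 * k) * (10 * g) := h4
        _ = 10000 * (k * g) := by ring
    have h6 : M * ((o + q) / 2 + 1 + 20 * (q + 3)) ≤ k * g :=
      Nat.le_of_mul_le_mul_left h5 (by norm_num)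
    have h7 : M * (k + (o + q) / 2 + 1 + 20 * (q + 3)) ≤ M * S := by
      calc M * (k + (o + q) / 2 + 1 + 20 * (q + 3))
          = k * M + M * ((o + q) / 2 + 1 + 20 * (q + 3)) := by ring
        _ ≤ k * M + k * g := Nat.add_le_add_left h6 _
        _ = k * (M + g) := by ring
        _ = k * o := by rw [hg]
        _ ≤ M * S := h3
    exact Nat.le_of_mul_le_mul_left h7 (by omega)
  rcases Nat.le_or_ge (2 * M) o with hx2 | hx2
  · -- `2 ≤ x < 5 / 2`
    have h1 : 2 * (M * s) ≤ n := by
      rw [← hos]
      calc 2 * (M * s) = 2 * M * s := by ring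
        _ ≤ o * s := Nat.mul_le_mul_right _ hx2
    have h2 := conc (near o q (ww q)) r (h := M * s) (k := k) (a := 2) (e := c - V) hkh hrn
      (by omega)
    have h3 : c - 16 - V ≤ min k (c - V) := le_min (by omega) (by omega)
    omega
  · -- `1 < x ≤ 2`
    have hq2 : q ≤ 2 := by
      by_contra hcon
      push Not at hcon
      obtain ⟨q', hq'⟩ : ∃ q', q = q' + 3 := ⟨q - 3, by omega⟩
      have h1 : q * (M + 5) ≤ o + q * L := by omega
      have h2 : q * (L + 5) + (q * M - q * L) ≤ o + q * L := by
        have e1 : q * (M + 5) = q * M + q * 5 := by ring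
        have e2 : q * (L + 5) = q * L + q * 5 := by ring
        have h3 : q * L ≤ q * M := Nat.mul_le_mul_left _ (by omega)
        omega
      have h3 : 3 * M ≤ q * M := Nat.mul_le_mul_right _ hcon
      have h4 : 1000000 * (q * (L + 1)) ≤ q * M := by
        calc 1000000 * (q * (L + 1)) = q * (1000000 * (L + 1)) := by ring
          _ ≤ q * M := Nat.mul_le_mul_left _ hL
      have e3 : q * (L + 1) = q * L + q := by ring
      have e4 : q * (M + 5) = q * M + q * 5 := by ring
      omega
    obtain ⟨f, hf⟩ : ∃ f, o + f = 2 * M := ⟨2 * M - o, by omega⟩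
    have hsf : n + s * f = 2 * (M * s) := by
      rw [← hos]
      calc o * s + s * f = (o + f) * s := by ring
        _ = 2 * (M * s) := by rw [hf]; ring
    rcases Nat.lt_or_ge (2 * (c - M) + f) (2 * V + 400) with h1 | h1
    · -- little excess
      have hfM : f < M := by omega
      have hno : n / o = s := by
        rw [← hos]
        exact Nat.mul_div_cancel_left _ (by omega)
      have hs2f : (s - 2) * f < 4 * (c - M) := by
        rcases Nat.eq_zero_or_pos f with rfl | hf0
        · rw [Nat.mul_zero]
          omega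
        have e4 : o = M * 1 + (M - f) := by omega
        have hdiv : o / M = 1 := by
          rw [e4, Nat.mul_add_div (by omega), Nat.div_eq_of_lt (by omega)]
        have hmod : o % M = M - f := by
          rw [e4, Nat.mul_add_mod, Nat.mod_eq_of_lt (by omega)]
        have h9 : exc M n o = min (o % M / (o / M))
          (((if Even (n / o * (o / M)) then 1 else 2) * (n / o) - 2) * (M - o % M) /
            (2 * (o / M + 1))) := rfl
        have h10 : ((if Even (n / o * (o / M)) then 1 else 2) * (n / o) - 2) * (M - o % M) /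
            (2 * (o / M + 1)) ≤ exc M n o := by
          rcases le_total (o % M / (o / M))
            (((if Even (n / o * (o / M)) then 1 else 2) * (n / o) - 2) * (M - o % M) /
              (2 * (o / M + 1))) with h10 | h10
          · exfalso
            rw [min_eq_left h10, hdiv, hmod, Nat.div_one] at h9
            omega
          · rw [min_eq_right h10] at h9
            exact h9.ge
        rw [hdiv, hmod, hno] at h10
        have e5 : M - (M - f) = f := by omega
        rw [e5] at h10
        have h11 : (s - 2) * f / 4 ≤ exc M n o := by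
          refine le_trans (Nat.div_le_div_right (Nat.mul_le_mul_right _ ?_)) h10
          refine Nat.sub_le_sub_right ?_ 2
          split_ifs <;> omega
        omega
      have e6 : s * f = (s - 2) * f + 2 * f := by
        obtain ⟨t, ht⟩ : ∃ t, s = t + 2 := ⟨s - 2, by omega⟩
        rw [ht, Nat.add_sub_cancel]
        ring
      have h2 := conc (near o q (ww q)) r (h := M * s) (k := k) (a := 2) (e := c - V - s * f) hkh
        hrn (by omega)
      have h3 : 49 * M ≤ 100 * min k (c - V - s * f) := by
        rcases le_total k (c - V - s * f) with h4 | h4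
        · rw [min_eq_left h4]
          omega
        · rw [min_eq_right h4]
          omega
      omega
    · -- one full row and a half
      have h2 : M * s + s * (o - M) = n := by
        rw [← hos]
        obtain ⟨g, hg⟩ : ∃ g, o = M + g := ⟨o - M, by omega⟩
        rw [hg, Nat.add_sub_cancel_left]
        ring
      have h3 := conc (near o q (ww q)) r (h := M * s) (k := k) (a := 1) (e := s * (o - M) + (c - V))
        hkh hrn (by omega)
      have h4 : 2 * (o - M) ≤ s * (o - M) := Nat.mul_le_mul_right _ hs
      have h5 : c - 16 - V ≤ min k (s * (o - M) + (c - V)) := le_min (by omega) (by omega)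
      omega

/-- **WIDTH**: the sums of `k` near elements spread out -/
theorem width (N : NumX r M s n c q L D) (hr : ∀ u, r u ≤ M * s) (hL : 1000000 * (L + 1) ≤ M)
    (hc : M + exc M n o + 5 ≤ c) (ho : M < o) {k : ℕ} (hk : k + 3 ≤ c)
    (hk2 : c ≤ k + 16 + far r q (ww q)) :
    k + (o + q) / 2 + 1 + 20 * (q + 3) ≤ ∑ u ∈ near o q (ww q), min k (r u) := by
  rcases Nat.lt_or_ge s 2 with hs | hs
  · have hs1 : s = 1 := by have := N.s1; omega
    subst hs1
    exact width_one N (fun u => by have := hr u; rwa [Nat.mul_one] at this) hL (by omega) hk hk2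
  · exact width_two N hr hL hc ho hs hk hk2

end

end Pool.Agent.Lib.MPa7239a.RX
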