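import Pool.Agent.Lib.MP_a7239a_co.RX.IVX
import Pool.Agent.Lib.MP_a7239a_co.RX.WIDX

/-!
# The explicit formula up to 4: the sums of `c - 3` elements fill an interval (module EXS)
-/

set_option autoImplicit false

open Finset

namespace Pool.Agent.Lib.MPa7239a.RX

open Pool.Agent.Lib.MPa7239a.RB
open Pool.Agent.Lib.MPa7239a.RH
open Pool.Agent.Lib.MPa7239a.RF (exc excess pos pos_cast pos_ge pos_lt pos_of pos_inj mem_near_iff GameF ww)

section
variable {o : ℕ} [NeZero o] {r : ZMod o → ℕ} {M s n c q L D θ : ℕ}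

namespace EXSM

theorem far_one (N : NumX r M s n c q L D) (hr : ∀ u, r u ≤ M * s) (hL : 1000000 * (L + 1) ≤ M)
    (hc : M + 5 ≤ c) (hq : q < 1000) : 1000 * far r q 1 ≤ 502 * M := by
  have h2 := N.win
  have h3 := N.far_two
  have h4 := N.far_split
  have h5 : q * (M + 5) ≤ q * c := Nat.mul_le_mul_left _ hc
  have e5 : q * (M + 5) = q * M + q * 5 := by ring
  have hqL : q * L ≤ 1000 * L := Nat.mul_le_mul_right _ hq.le
  rcases Nat.lt_or_ge s 2 with hs | hs
  · have hs1 : s = 1 := by have := N.s1; omega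
    subst hs1
    have h1 := N.main_sum
    have h6 : ∑ i ∈ range (q + 1), r (i : ZMod o) ≤ #(range (q + 1)) • (M * 1) :=
      sum_le_card_nsmul _ _ _ fun x _ => hr _
    rw [card_range, smul_eq_mul, Nat.mul_one] at h6
    have h8 := N.os
    rw [Nat.mul_one] at h8
    have e4 : (q + 1) * M = q * M + M := by ring
    omega
  · have h1 := nf_o2 N hr hc hs
    have e1 : (q + 1) * (M + L) = q * M + M + q * L + L := by ring
    omega

/-- the rows of the window are occupied -/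
theorem window (N : NumX r M s n c q L D) (hr : ∀ u, r u ≤ M * s) (hL : 1000000 * (L + 1) ≤ M)
    (hc : M + exc M n o + 5 ≤ c) (ho : M < o) (hq : q < 1000) {i : ℕ} (hi : i ≤ q) :
    98 * M ≤ 100 * r (i : ZMod o) := by
  rcases Nat.eq_zero_or_pos q with h0 | h0
  · subst h0
    obtain ⟨-, h4, -⟩ := nf_q0 N hr hL (by omega) ho
    obtain rfl : i = 0 := by omega
    rw [Nat.cast_zero]
    have h5 : M * 1 ≤ M * s := Nat.mul_le_mul_left _ N.s1
    omega
  · exact nf_rows N hr hL hc ho h0 hq hi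

theorem two_rows (N : NumX r M s n c q L D) (hr : ∀ u, r u ≤ M * s) (hL : 1000000 * (L + 1) ≤ M)
    (hc : M + exc M n o + 5 ≤ c) (ho : M < o) (hq : q < 1000) :
    ∃ u v : ZMod o, u ≠ v ∧ u ∈ near o q 1 ∧ v ∈ near o q 1 ∧ 49 * M ≤ 100 * r u ∧
      49 * M ≤ 100 * r v := by
  have hoL := N.o_large
  have hn : ∀ i : ℤ, -1 ≤ i → i ≤ q + 1 → (i : ZMod o) ∈ near o q 1 := by
    intro i h1 h2
    rw [near, mem_image]
    exact ⟨i, mem_Icc.2 ⟨by push_cast; omega, by push_cast; omega⟩, rfl⟩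
  rcases Nat.eq_zero_or_pos q with h0 | h0
  · subst h0
    obtain ⟨-, h4, h5⟩ := nf_q0 N hr hL (by omega) ho
    have h6 : M * 1 ≤ M * s := Nat.mul_le_mul_left _ N.s1
    have h00 := hn 0 (by omega) (by omega)
    rw [Int.cast_zero] at h00
    rcases h5 with h5 | h5
    · refine ⟨0, 1, ?_, h00, ?_, by omega, h5⟩
      · have := N.cast_ne (i := 0) (j := 1) (by omega) (by rw [abs_lt]; constructor <;> omega)
        rwa [Int.cast_zero, Int.cast_one] at this
      · have := hn 1 (by omega) (by omega)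
        rwa [Int.cast_one] at this
    · refine ⟨0, -1, ?_, h00, ?_, by omega, h5⟩
      · have := N.cast_ne (i := 0) (j := -1) (by omega) (by rw [abs_lt]; constructor <;> omega)
        rwa [Int.cast_zero, Int.cast_neg, Int.cast_one] at this
      · have := hn (-1) (by omega) (by omega)
        rwa [Int.cast_neg, Int.cast_one] at this
  · have h1 := nf_rows N hr hL hc ho h0 hq (i := 0) (Nat.zero_le _)
    have h2 := nf_rows N hr hL hc ho h0 hq (i := 1) h0
    rw [Nat.cast_zero] at h1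
    rw [Nat.cast_one] at h2
    refine ⟨0, 1, ?_, ?_, ?_, by omega, by omega⟩
    · have := N.cast_ne (i := 0) (j := 1) (by omega) (by rw [abs_lt]; constructor <;> omega)
      rwa [Int.cast_zero, Int.cast_one] at this
    · have := hn 0 (by omega) (by omega)
      rwa [Int.cast_zero] at this
    · have := hn 1 (by omega) (by omega)
      rwa [Int.cast_one] at this

end EXSM

open EXSM

theorem exact_small (N : NumX r M s n c q L D) (hr : ∀ u, r u ≤ M * s) (hL : 1000000 * (L + 1) ≤ M)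
    (hc : M + exc M n o + 5 ≤ c) (ho : M < o) (hq : q < 1000) {R : ZMod o → ℕ} (hR6 : ∑ u, R u ≤ 6)
    {c' : ℕ} (hcc : c = c' + 3)
    {d₁ d₂ : ZMod o → ℕ} (h1 : ∀ u, d₁ u ≤ r u - R u) (h2 : ∀ u, d₂ u ≤ r u - R u)
    (hc1 : ∑ u, d₁ u = c') (hc2 : ∑ u, d₂ u = c') {v : ℤ} (hv1 : ∑ u, (d₁ u : ℤ) * pos o q u ≤ v)
    (hv2 : v ≤ ∑ u, (d₂ u : ℤ) * pos o q u) :
    ∃ d : ZMod o → ℕ, (∀ u, d u ≤ r u - R u) ∧ ∑ u, d u = c' ∧ ∑ u, (d u : ℤ) * pos o q u = v := by
  have hc' : M + 5 ≤ c := by omega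
  have hoL := N.o_large
  have hM0 := N.M_pos
  have hmn := N.mn
  have hRu : ∀ u, R u ≤ 6 := fun u =>
    (single_le_sum (f := R) (fun _ _ => Nat.zero_le _) (mem_univ u)).trans hR6
  have hww : ww q = 9 := by rw [ww, if_pos hq]
  have hF1 := far_one N hr hL hc' hq
  have n1 : ∀ u, u ∈ near o q 1 ↔ -1 ≤ pos o q u ∧ pos o q u ≤ (q : ℤ) + 1 := fun u => by
    have := mem_near_iff q (w := 1) (by omega) u
    rwa [Nat.cast_one] at this
  have n9 : ∀ u, u ∈ near o q 9 ↔ -9 ≤ pos o q u ∧ pos o q u ≤ (q : ℤ) + 9 := fun u => by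
    have := mem_near_iff q (w := 9) (by omega) u
    rwa [Nat.cast_ofNat] at this
  set N₀ : Finset (ZMod o) := (near o q 1).filter fun u => 0 < r u - R u with hN₀
  have hN : N₀ ⊆ near o q 9 := by
    intro u hu
    rw [hN₀, mem_filter, n1] at hu
    rw [n9]
    omega
  have hgap : ∀ u ∈ N₀, ∀ v ∈ N₀, 0 < r u - R u → 0 < r v - R v →
      pos o q u + (0 : ℕ) + 1 < pos o q v →
      ∃ w ∈ N₀, 0 < r w - R w ∧ pos o q u < pos o q w ∧ pos o q w < pos o q v := by
    intro u hu v hv _ _ huv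
    rw [hN₀, mem_filter, n1] at hu hv
    obtain ⟨i, hi⟩ : ∃ i : ℕ, (i : ℤ) = pos o q u + 1 := ⟨(pos o q u + 1).toNat, by omega⟩
    have hiq : i ≤ q := by
      push_cast at huv
      omega
    have hpi : pos o q (i : ZMod o) = i := by
      have := pos_of (o := o) q (i := (i : ℤ)) (by omega) (by omega)
      rwa [Int.cast_natCast] at this
    have h3 := window N hr hL hc ho hq hiq
    have h4 := hRu (i : ZMod o)
    have h5 : 0 < r (i : ZMod o) - R (i : ZMod o) := by omega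
    refine ⟨(i : ZMod o), ?_, h5, by omega, ?_⟩
    · rw [hN₀, mem_filter, n1, hpi]
      exact ⟨⟨by omega, by omega⟩, h5⟩
    · rw [hpi]
      push_cast at huv
      omega
  have hxr : ∑ u, (r u - R u) + ∑ u, R u ≥ n + c := by
    rw [← sum_add_distrib, ← N.total]
    exact sum_le_sum fun u _ => by omega
  have hV₀ : ∑ u ∈ univ \ N₀, (r u - R u) ≤ far r q 1 := by
    have h3 : ∑ u ∈ univ \ N₀, (r u - R u) = ∑ u ∈ univ \ near o q 1, (r u - R u) := by
      refine (sum_subset (sdiff_subset_sdiff le_rfl (filter_subset _ _)) fun u hu hu' => ?_).symm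
      rw [mem_sdiff] at hu hu'
      by_contra hne
      refine hu.2 (mem_filter.2 ⟨?_, Nat.pos_of_ne_zero hne⟩)
      by_contra hno
      exact hu' ⟨mem_univ _, hno⟩
    rw [h3, far]
    exact sum_le_sum fun u _ => Nat.sub_le _ _
  have hV₁ : ∑ u ∈ univ \ near o q 9, (r u - R u) ≤ far r q 9 := by
    rw [far]
    exact sum_le_sum fun u _ => Nat.sub_le _ _
  obtain ⟨u₁, u₂, hne, hu₁, hu₂, hr₁, hr₂⟩ := two_rows N hr hL hc ho hq
  have hu₁' : u₁ ∈ N₀ := by
    rw [hN₀, mem_filter]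
    have := hRu u₁
    exact ⟨hu₁, by omega⟩
  have hu₂' : u₂ ∈ N₀ := by
    rw [hN₀, mem_filter]
    have := hRu u₂
    exact ⟨hu₂, by omega⟩
  have htwo : ∀ k : ℕ, ∀ u ∈ N₀, ∀ v ∈ N₀, u ≠ v →
      min k (r u - R u) + min k (r v - R v) ≤ ∑ w ∈ N₀, min k (r w - R w) := by
    intro k u hu v hv huv
    rw [← sum_pair (f := fun w => min k (r w - R w)) huv]
    refine sum_le_sum_of_subset ?_
    intro w hw
    rw [mem_insert, mem_singleton] at hw
    rcases hw with rfl | rfl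
    · exact hu
    · exact hv
  have hW₀ : ∀ k : ℕ, k ≤ c' → c' ≤ k + far r q 1 →
      (k : ℤ) + ((q : ℤ) + 9) ≤ ((∑ u ∈ N₀, min k (r u - R u) : ℕ) : ℤ) := by
    intro k hk hk2
    have hgoal : k + (q + 9) ≤ ∑ u ∈ N₀, min k (r u - R u) := by
      have hR1 := hRu u₁
      have hR2 := hRu u₂
      have hk3 : 497 * M ≤ 1000 * k := by omega
      by_cases hex : ∃ w ∈ N₀, k ≤ r w - R w
      · obtain ⟨w, hw, hkw⟩ := hex
        have h3 : ∃ w' ∈ N₀, w' ≠ w ∧ 49 * M ≤ 100 * r w' := by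
          by_cases h4 : u₁ = w
          · exact ⟨u₂, hu₂', by rw [← h4]; exact hne.symm, hr₂⟩
          · exact ⟨u₁, hu₁', h4, hr₁⟩
        obtain ⟨w', hw', hww', hrw'⟩ := h3
        have h5 := htwo k w hw w' hw' hww'.symm
        rw [min_eq_left hkw] at h5
        have h6 := hRu w'
        have h7 : q + 9 ≤ min k (r w' - R w') := le_min (by omega) (by omega)
        omega
      · push Not at hex
        have h3 : ∑ u ∈ N₀, min k (r u - R u) = ∑ u ∈ N₀, (r u - R u) :=
          sum_congr rfl fun u hu => min_eq_right (hex u hu).le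
        have h4 : ∑ u ∈ N₀, (r u - R u) + ∑ u ∈ univ \ N₀, (r u - R u) = ∑ u, (r u - R u) := by
          rw [add_comm, sum_sdiff (subset_univ _)]
        rw [h3]
        omega
    exact_mod_cast hgoal
  have hW₁ : ∀ k : ℕ, k ≤ c' → c' ≤ k + far r q 9 →
      (k : ℤ) + (((o + q) / 2 + 9 : ℕ) : ℤ) ≤
        ((∑ u ∈ near o q 9, min k (r u - R u) : ℕ) : ℤ) := by
    intro k hk hk2
    have h3 := width N hr hL hc ho (k := k) (by omega) (by rw [hww]; omega)
    rw [hww] at h3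
    have h4 : ∑ u ∈ near o q 9, min k (r u) ≤
        ∑ u ∈ near o q 9, min k (r u - R u) + ∑ u ∈ near o q 9, R u := by
      rw [← sum_add_distrib]
      refine sum_le_sum fun u _ => ?_
      omega
    have h5 : ∑ u ∈ near o q 9, R u ≤ ∑ u, R u := sum_le_sum_of_subset (subset_univ _)
    have h6 : k + ((o + q) / 2 + 9) ≤ ∑ u ∈ near o q 9, min k (r u - R u) := by omega
    exact_mod_cast h6
  have hfar₀ : ∀ u ∈ near o q 9, u ∉ N₀ → ∀ v ∈ N₀,
      |pos o q u - pos o q v| ≤ ((q : ℤ) + 9) + (0 : ℕ) + 1 := by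
    intro u hu _ v hv
    rw [n9] at hu
    rw [hN₀, mem_filter, n1] at hv
    rw [abs_le]
    push_cast
    constructor <;> omega
  have hfar₁ : ∀ u, u ∉ near o q 9 → ∀ v ∈ near o q 9,
      |pos o q u - pos o q v| ≤ (((o + q) / 2 + 9 : ℕ) : ℤ) + (0 : ℕ) + 1 := by
    intro u _ v hv
    rw [n9] at hv
    have h3 := pos_ge (o := o) q u
    have h4 := pos_lt (o := o) q u
    rw [abs_le]
    constructor <;> omega
  obtain ⟨d, hd, hdc, hdv1, hdv2⟩ := interval_two (pos o q) (pos_inj q) hN (by positivity)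
    (by positivity) hgap hV₀ hV₁ hW₀ hW₁ hfar₀ hfar₁ h1 h2 hc1 hc2 hv1 hv2
  refine ⟨d, hd, hdc, ?_⟩
  push_cast at hdv1
  omega

end

end Pool.Agent.Lib.MPa7239a.RX
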