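import Pool.Agent.Lib.MP_a7239a_co.RX.Defs

/-!
# The explicit formula up to 4: `q ≠ 1`, `o ≤ M` (folder RX, helper25)
-/

set_option autoImplicit false

open Finset

namespace Pool.Agent.Lib.MPa7239a.RX

open Pool.Agent.Lib.MPa7239a.RB

/-- `o ≤ M` and `q ≠ 1`: row 0 is fat -/
theorem fat_q0 {o : ℕ} [NeZero o] {r : ZMod o → ℕ} {M s n c q L D θ : ℕ}
    (N : NumX r M s n c q L D) (hθ : 1000 * θ ≤ M) (hL : 1000000 * (L + 1) ≤ M)
    (hc : M + 5 ≤ c) (ho : o ≤ M) (hq : q ≠ 1) : M * s + θ ≤ 2 * r 0 := by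
  have hwin := N.win
  have hmo := N.mo
  have hs := N.s1
  rcases Nat.lt_or_ge q 2 with hq2 | hq2
  · obtain rfl : q = 0 := by omega
    have h1 := N.main_sum
    have h2 := N.far_zero
    rw [zero_add, sum_range_one, Nat.cast_zero] at h1
    have hos := N.os
    obtain ⟨y, hy⟩ : ∃ y, o + 2 * L = M + 5 + y := ⟨o + 2 * L - (M + 5), by omega⟩
    have h3 : (M - 2 * L) * s ≤ n := by
      rw [← hos]
      exact Nat.mul_le_mul_right _ (by omega)
    obtain ⟨x, hx⟩ : ∃ x, M = x + 2 * L := ⟨M - 2 * L, by omega⟩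
    have h4 : M - 2 * L = x := by omega
    rw [h4] at h3
    have h5 : M * s = x * s + 2 * L * s := by rw [hx]; ring
    have h6 : 4 * L * s + θ + 2 * L ≤ x * s := by
      have h7 : (4 * L + (θ + 2 * L)) * s ≤ x * s := Nat.mul_le_mul_right _ (by omega)
      have h8 : (4 * L + (θ + 2 * L)) * s = 4 * L * s + (θ + 2 * L) * s := by ring
      have h9 : θ + 2 * L ≤ (θ + 2 * L) * s := Nat.le_mul_of_pos_right _ hs
      omega
    have h10 : 4 * L * s = 2 * (2 * L * s) := by ring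
    omega
  · have h1 : q * (c - L) ≤ o := by
      obtain ⟨y, hy⟩ : ∃ y, c = y + L := ⟨c - L, by omega⟩
      have h2 : c - L = y := by omega
      rw [h2]
      have h3 : q * c = q * y + q * L := by rw [hy]; ring
      omega
    have h4 : 2 * (c - L) ≤ q * (c - L) := Nat.mul_le_mul_right _ hq2
    omega

end Pool.Agent.Lib.MPa7239a.RX
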