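import Pool.Agent.Lib.MP_a7239a_co.RF.HALF

/-!
# A set of about half of a coset, `6 ≤ d` (RX, module HALX)

The proof of `RF.half` does not need more.
-/

set_option autoImplicit false

open Finset
open scoped Pointwise

namespace Pool.Agent.Lib.MPa7239a.RX

open Pool.Agent.Lib.MPa7239a
open Pool.Agent.Lib.MPa7239a.GC

open RF.HALFM in
/-- a set of about half of a coset of `H` -/
theorem half {G : Type*} [AddCommGroup G] [Fintype G] [DecidableEq G] {H : AddSubgroup G} {θ : ℕ}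
    (hFF : ∀ K : AddSubgroup G, RG.FatFull3 K θ) (hH : 10 ^ 12 ≤ Nat.card H)
    (hθ : 1000 * θ ≤ Nat.card H) {X : Finset G} {x₀ : G} (hX : ∀ x ∈ X, x - x₀ ∈ H)
    (hX1 : 499 * Nat.card H ≤ 1000 * #X) :
    (∃ K ≤ H, 2 * Nat.card K = Nat.card H ∧ ∀ x ∈ X, ∀ y ∈ X, x - y ∈ K) ∨
      (∀ d, 6 ≤ d → 45 * d ≤ #X → ∀ g, g - d • x₀ ∈ H → ∃ T ⊆ X, #T = d ∧ ∑ x ∈ T, x = g) := by
  classical
  by_cases hfirst : ∃ K ≤ H, 2 * Nat.card K = Nat.card H ∧ ∀ x ∈ X, ∀ y ∈ X, x - y ∈ K
  · exact Or.inl hfirst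
  right
  intro d hd hdX g hg
  have hXH : #X ≤ Nat.card H := card_le_of_coset H x₀ hX
  obtain ⟨W, hWX, hWc⟩ := exists_subset_card_eq (show d - 4 ≤ #X by omega)
  have hX'c : #(X \ W) = #X - (d - 4) := by rw [card_sdiff_of_subset hWX, hWc]
  have hX' : ∀ x ∈ X \ W, x - x₀ ∈ H := fun x hx => hX x (mem_sdiff.1 hx).1
  set P : Finset G := (univ : Finset G).filter
    (fun s => Nat.card H ≤ 10 ^ 4 * #((X \ W).filter (fun x => s - x ∈ X \ W))) with hP
  rcases Nat.lt_or_ge (502 * Nat.card H) (1000 * #P) with h | h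
  · -- many popular sums
    obtain ⟨T, hT, hTc, hTs⟩ := many hH hX' (P := P) (fun s hs => (mem_filter.1 hs).2) h.le
      (g := g - ∑ x ∈ W, x) (by
        have h1 := RK.sum_mem_coset (K := H) (x₀ := x₀) (T := W) fun x hx => hX x (hWX hx)
        rw [hWc] at h1
        have h2 : g - ∑ x ∈ W, x - 4 • x₀ = (g - d • x₀) - (∑ x ∈ W, x - (d - 4) • x₀) := by
          have h3 : d • x₀ = (d - 4) • x₀ + 4 • x₀ := by
            rw [← add_nsmul]
            congr 1
            omega
          rw [h3]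
          abel
        rw [h2]
        exact H.sub_mem hg h1)
    have hdis : Disjoint W T := disjoint_of_subset_right hT disjoint_sdiff
    refine ⟨W ∪ T, union_subset hWX (hT.trans sdiff_subset), ?_, ?_⟩
    · rw [card_union_of_disjoint hdis, hWc, hTc]
      omega
    · rw [sum_union hdis, hTs]
      abel
  · -- few popular sums
    obtain ⟨K, hKH, hKc, X₁, hX₁, hX₁c, hX₁K⟩ := few hX' (P := P) (fun s hs => by
      by_contra hcon
      exact hs (mem_filter.2 ⟨mem_univ _, (not_le.1 hcon).le⟩)) h (by omega)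
    obtain ⟨x₁, hx₁⟩ : X₁.Nonempty := card_pos.1 (by omega)
    have hx₁H : x₁ - x₀ ∈ H := hX' x₁ (hX₁ hx₁)
    obtain ⟨x, hx, hxK⟩ : ∃ x ∈ X, x - x₁ ∉ K := by
      by_contra hcon
      push Not at hcon
      refine hfirst ⟨K, hKH, hKc, fun x hx y hy => ?_⟩
      have h1 := K.sub_mem (hcon x hx) (hcon y hy)
      rwa [sub_sub_sub_cancel_right] at h1
    have hX₁X : X₁ ⊆ X := hX₁.trans sdiff_subset
    have hX₁K' : ∀ x ∈ X₁, x - x₁ ∈ K := fun x hx => hX₁K x hx x₁ hx₁
    have hcoset : ∀ y ∈ X, y - x₁ ∈ H := fun y hy => by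
      have h1 : y - x₁ = (y - x₀) - (x₁ - x₀) := by abel
      rw [h1]
      exact H.sub_mem (hX y hy) hx₁H
    have hgH : g - d • x₁ ∈ H := by
      have h1 : g - d • x₁ = (g - d • x₀) - d • (x₁ - x₀) := by
        rw [nsmul_sub]
        abel
      rw [h1]
      exact H.sub_mem hg (H.nsmul_mem hx₁H d)
    by_cases hgK : g - d • x₁ ∈ K
    · obtain ⟨T, hT, hTc, hTs⟩ := hFF K X₁ x₁ hX₁K' (by omega) d (by omega) (by omega) g hgK
      exact ⟨T, hT.trans hX₁X, hTc, hTs⟩
    · obtain ⟨T, hT, hTc, hTs⟩ := hFF K X₁ x₁ hX₁K' (by omega) (d - 1) (by omega) (by omega)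
        (g - x) (by
          have h1 := sub_mem_of_index hKH hKc hgH (hcoset x hx) hgK hxK
          have h2 : g - x - (d - 1) • x₁ = g - d • x₁ - (x - x₁) := by
            have h3 : d • x₁ = (d - 1) • x₁ + x₁ := by
              rw [← succ_nsmul]
              congr 1
              omega
            rw [h3]
            abel
          rw [h2]
          exact h1)
      have hxT : x ∉ T := fun h => hxK (hX₁K' x (hT h))
      refine ⟨insert x T, insert_subset hx (hT.trans hX₁X), ?_, ?_⟩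
      · rw [card_insert_of_notMem hxT, hTc]
        omega
      · rw [sum_insert hxT, hTs]
        abel

end Pool.Agent.Lib.MPa7239a.RX
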