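import Pool.Agent.Lib.MP_a7239a_co.RF.IVL

/-! # RX/IVX: the sums of `c` elements of a multiset of integers are `J`-dense, in two phases

As `RF.interval_full`, but gaps `J + 1` in the base are allowed, and the elements outside the base
`N₀` are added in two phases: first those in `N₁`, then the others. -/

set_option autoImplicit false

open Finset

namespace Pool.Agent.Lib.MPa7239a.RX

namespace IVX

open Pool.Agent.Lib.MPa7239a.RF.IVL

variable {ι : Type*} [Fintype ι] [DecidableEq ι]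

/-- BASE: all gaps between occupied positions are at most `J + 1` -/
theorem iv_base1 (p : ι → ℤ) {r : ι → ℕ} {J : ℕ}
    (hgap : ∀ u v, 0 < r u → 0 < r v → p u + J + 1 < p v → ∃ w, 0 < r w ∧ p u < p w ∧ p w < p v)
    (k : ℕ) : IV p r J k := by
  intro d₁ d₂ h1 h2 hc1 hc2 v hv1 hv2
  -- the finite set of admissible multisets below `v`
  have hfin : (univ : Finset (∀ u : ι, Fin (r u + 1))).Nonempty := ⟨fun _ => 0, mem_univ _⟩
  let toN : (∀ u : ι, Fin (r u + 1)) → (ι → ℕ) := fun f u => (f u : ℕ)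
  let S : Finset (∀ u : ι, Fin (r u + 1)) :=
    univ.filter (fun f => ∑ u, toN f u = k ∧ PS p (toN f) ≤ v)
  have hofN : ∀ d : ι → ℕ, (∀ u, d u ≤ r u) → ∃ f : (∀ u : ι, Fin (r u + 1)), toN f = d := by
    intro d hd
    exact ⟨fun u => ⟨d u, Nat.lt_succ_of_le (hd u)⟩, rfl⟩
  have hSne : S.Nonempty := by
    obtain ⟨f, hf⟩ := hofN d₁ h1
    refine ⟨f, ?_⟩
    simp only [S, mem_filter, mem_univ, true_and]
    rw [hf]
    exact ⟨hc1, hv1⟩
  obtain ⟨f, hfS, hfmax⟩ := exists_max_image S (fun f => PS p (toN f)) hSne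
  have hf' : ∑ u, toN f u = k ∧ PS p (toN f) ≤ v := by
    simpa only [S, mem_filter, mem_univ, true_and] using hfS
  set d : ι → ℕ := toN f with hd
  have hdr : ∀ u, d u ≤ r u := fun u => Nat.le_of_lt_succ (f u).2
  have hmax : ∀ e : ι → ℕ, (∀ u, e u ≤ r u) → ∑ u, e u = k → PS p e ≤ v → PS p e ≤ PS p d := by
    intro e he hek hev
    obtain ⟨g, hg⟩ := hofN e he
    have := hfmax g (by
      simp only [S, mem_filter, mem_univ, true_and]
      rw [hg]
      exact ⟨hek, hev⟩)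
    simpa [hg] using this
  refine ⟨d, hdr, hf'.1, ?_, hf'.2⟩
  by_contra hlt
  push Not at hlt
  -- an exchange exists
  obtain ⟨x₀, y₀, hx₀, hy₀, hxy₀⟩ := exchange p (d := d) (e := d₂) (by rw [hf'.1, hc2])
    (by have : (0 : ℤ) ≤ J := by positivity
        linarith)
  -- choose the shortest one
  let E : Finset (ι × ι) := univ.filter (fun q => 0 < d q.1 ∧ d q.2 < r q.2 ∧ p q.1 < p q.2)
  have hEne : E.Nonempty := by
    refine ⟨(x₀, y₀), ?_⟩
    simp only [E, mem_filter, mem_univ, true_and]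
    have := h2 y₀
    exact ⟨by omega, by omega, hxy₀⟩
  obtain ⟨q, hqE, hqmin⟩ := exists_min_image E (fun q => p q.2 - p q.1) hEne
  obtain ⟨x, y⟩ := q
  have hq : 0 < d x ∧ d y < r y ∧ p x < p y := by
    simpa only [E, mem_filter, mem_univ, true_and] using hqE
  obtain ⟨hx, hy, hxy⟩ := hq
  have hJ : p y ≤ p x + J + 1 := by
    by_contra hJ
    push Not at hJ
    obtain ⟨w, hw, hxw, hwy⟩ := hgap x y (lt_of_lt_of_le hx (hdr x)) (by omega) hJ
    by_cases hdw : 0 < d w
    · have := hqmin (w, y) (by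
        simp only [E, mem_filter, mem_univ, true_and]
        exact ⟨hdw, hy, hwy⟩)
      simp only at this
      linarith
    · have := hqmin (x, w) (by
        simp only [E, mem_filter, mem_univ, true_and]
        exact ⟨hx, by omega, hxw⟩)
      simp only at this
      linarith
  have hxney : x ≠ y := by
    intro h
    rw [h] at hxy
    exact lt_irrefl _ hxy
  have hP := PS_mv p hx hxney
  have := hmax (mv d x y) (mv_le hdr hy) (by rw [sum_mv hx hxney, hf'.1]) (by rw [hP]; linarith)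
  rw [hP] at this
  linarith

/-- from the elements over `N₀` to those over `N₀ ∪ N₁` -/
theorem iv_grow (p : ι → ℤ) (hp : Function.Injective p)
    {r : ι → ℕ} {N₀ N₁ : Finset ι} {J c V : ℕ} {W : ℤ} (hW0 : 0 ≤ W)
    (hbase : ∀ k : ℕ, k ≤ c → c ≤ k + V → IV p (fun u => if u ∈ N₀ then r u else 0) J k)
    (hW : ∀ k : ℕ, k ≤ c → c ≤ k + V → (k : ℤ) + W ≤ ((∑ u ∈ N₀, min k (r u) : ℕ) : ℤ))
    (hfar : ∀ u ∈ N₁, u ∉ N₀ → ∀ v ∈ N₀, |p u - p v| ≤ W + J + 1) :
    ∀ (m : ℕ) (r' : ι → ℕ), (∀ u ∈ N₀, r' u = r u) → (∀ u, u ∉ N₀ → u ∉ N₁ → r' u = 0) →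
      ∑ u ∈ univ \ N₀, r' u = m → ∀ k : ℕ, k ≤ c → c + m ≤ k + V → IV p r' J k := by
  intro m
  induction m with
  | zero =>
    intro r' hr' _ hs k hk1 hk2
    have h0 : r' = fun u => if u ∈ N₀ then r u else 0 := by
      funext u
      by_cases hu : u ∈ N₀
      · rw [if_pos hu, hr' u hu]
      · rw [if_neg hu]
        exact (sum_eq_zero_iff.1 hs) u (by simp [hu])
    rw [h0]
    exact hbase k hk1 (by omega)
  | succ m ih =>
    intro r' hr' hr0 hs k hkc hkV
    rcases Nat.eq_zero_or_pos k with hk0 | hkpos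
    · -- `k = 0`
      subst hk0
      intro d₁ d₂ h1 h2 hc1 hc2 v hv1 hv2
      have e1 : PS p d₁ = 0 := by
        unfold PS
        apply sum_eq_zero
        intro u hu
        rw [(sum_eq_zero_iff.1 hc1) u hu]
        simp
      have e2 : PS p d₂ = 0 := by
        unfold PS
        apply sum_eq_zero
        intro u hu
        rw [(sum_eq_zero_iff.1 hc2) u hu]
        simp
      refine ⟨d₁, h1, hc1, ?_, hv1⟩
      have : (0 : ℤ) ≤ J := by positivity
      linarith
    · obtain ⟨k, rfl⟩ : ∃ j, k = j + 1 := ⟨k - 1, by omega⟩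
      -- an element outside
      have hx : ∃ x ∈ univ \ N₀, 0 < r' x := by
        by_contra hno
        push Not at hno
        have : ∑ u ∈ univ \ N₀, r' u = 0 := sum_eq_zero (fun u hu => by have := hno u hu; omega)
        omega
      obtain ⟨x, hxm, hx0⟩ := hx
      have hxN : x ∉ N₀ := by simpa using hxm
      have hxN1 : x ∈ N₁ := by
        by_contra hno
        have := hr0 x hxN hno
        omega
      have hupd : r' = Function.update (Function.update r' x (r' x - 1)) x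
          (Function.update r' x (r' x - 1) x + 1) := by
        funext u
        by_cases hu : u = x
        · subst hu
          rw [Function.update_self, Function.update_self]
          omega
        · rw [Function.update_of_ne hu, Function.update_of_ne hu]
      set r₁ : ι → ℕ := Function.update r' x (r' x - 1) with hr₁
      have hr₁N : ∀ u ∈ N₀, r₁ u = r u := by
        intro u hu
        have hne : u ≠ x := fun h => hxN (h ▸ hu)
        rw [hr₁, Function.update_of_ne hne]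
        exact hr' u hu
      have hr₁0 : ∀ u, u ∉ N₀ → u ∉ N₁ → r₁ u = 0 := by
        intro u hu hu1
        have hne : u ≠ x := fun h => hu1 (h ▸ hxN1)
        rw [hr₁, Function.update_of_ne hne]
        exact hr0 u hu hu1
      have hs₁ : ∑ u ∈ univ \ N₀, r₁ u = m := by
        have h1 : ∑ u ∈ univ \ N₀, r' u = r' x + ∑ u ∈ (univ \ N₀).erase x, r' u :=
          (add_sum_erase _ _ hxm).symm
        have h2 : ∑ u ∈ univ \ N₀, r₁ u = r₁ x + ∑ u ∈ (univ \ N₀).erase x, r₁ u :=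
          (add_sum_erase _ _ hxm).symm
        have h3 : ∑ u ∈ (univ \ N₀).erase x, r₁ u = ∑ u ∈ (univ \ N₀).erase x, r' u := by
          apply sum_congr rfl
          intro u hu
          rw [hr₁, Function.update_of_ne (ne_of_mem_erase hu)]
        have h4 : r₁ x = r' x - 1 := by rw [hr₁, Function.update_self]
        omega
      have iv1 : IV p r₁ J (k + 1) := ih r₁ hr₁N hr₁0 hs₁ (k + 1) hkc (by omega)
      have iv0 : IV p r₁ J k := ih r₁ hr₁N hr₁0 hs₁ k (by omega) (by omega)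
      -- the spread at `k + 1`
      have hw := hW (k + 1) hkc (by omega)
      let a : ι → ℕ := fun u => if u ∈ N₀ then min (k + 1) (r u) else 0
      have hasum : ∑ u, a u = ∑ u ∈ N₀, min (k + 1) (r u) := by
        simp only [a]
        rw [sum_ite_mem, univ_inter]
      have hT : ∃ t : ℕ, ∑ u, a u = (k + 1) + t ∧ W ≤ (t : ℤ) := by
        have h1 : (k + 1 : ℕ) ≤ ∑ u, a u := by
          rw [hasum]
          have : ((k + 1 : ℕ) : ℤ) ≤ ((∑ u ∈ N₀, min (k + 1) (r u) : ℕ) : ℤ) := by linarith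
          exact_mod_cast this
        obtain ⟨t, ht⟩ := Nat.exists_eq_add_of_le h1
        refine ⟨t, ht, ?_⟩
        have h2 : ((∑ u ∈ N₀, min (k + 1) (r u) : ℕ) : ℤ) = ((k + 1 : ℕ) : ℤ) + t := by
          rw [← hasum, ht]
          push_cast
          ring
        rw [h2] at hw
        linarith
      obtain ⟨t, ht, hWt⟩ := hT
      have hak : ∀ u, a u ≤ k + 1 := by
        intro u
        simp only [a]
        split_ifs
        · exact min_le_left _ _
        · omega
      obtain ⟨Kt, Kb, hKt, hKb, hst, hsb, hP⟩ := spread p hp (k + 1) t a hak ht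
      have haN : ∀ u, 0 < a u → u ∈ N₀ := by
        intro u hu
        by_contra hno
        simp [a, hno] at hu
      have har : ∀ u, a u ≤ r₁ u := by
        intro u
        by_cases hu : u ∈ N₀
        · rw [hr₁N u hu]
          simp only [a, hu, if_true]
          exact min_le_right _ _
        · simp [a, hu]
      rw [hupd]
      apply iv_insert p iv1 iv0
      · obtain ⟨z, hz, hsz, hPz, hlez⟩ := remove_one p hsb
        have hzN : z ∈ N₀ := haN z (lt_of_lt_of_le hz (hKb z))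
        refine ⟨Kt, Function.update Kb z (Kb z - 1), fun u => (hKt u).trans (har u),
          fun u => ((hlez u).trans (hKb u)).trans (har u), hst, hsz, ?_⟩
        rw [hPz]
        have h1 := (abs_le.1 (hfar x hxN1 hxN z hzN)).2
        linarith
      · obtain ⟨z, hz, hsz, hPz, hlez⟩ := remove_one p hst
        have hzN : z ∈ N₀ := haN z (lt_of_lt_of_le hz (hKt z))
        refine ⟨Kb, Function.update Kt z (Kt z - 1), fun u => (hKb u).trans (har u),
          fun u => ((hlez u).trans (hKt u)).trans (har u), hsb, hsz, ?_⟩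
        rw [hPz]
        have h1 := (abs_le.1 (hfar x hxN1 hxN z hzN)).1
        linarith

end IVX

open Pool.Agent.Lib.MPa7239a.RF.IVL in
/-- The intermediate value lemma in two phases. -/
theorem interval_two {o : ℕ} [NeZero o] (p : ZMod o → ℤ) (hp : Function.Injective p)
    {r : ZMod o → ℕ} {N₀ N₁ : Finset (ZMod o)} (hN : N₀ ⊆ N₁) {J c V₀ V₁ : ℕ} {W₀ W₁ : ℤ}
    (hW00 : 0 ≤ W₀) (hW10 : 0 ≤ W₁)
    (hgap : ∀ u ∈ N₀, ∀ v ∈ N₀, 0 < r u → 0 < r v → p u + J + 1 < p v →
      ∃ w ∈ N₀, 0 < r w ∧ p u < p w ∧ p w < p v)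
    (hV₀ : ∑ u ∈ univ \ N₀, r u ≤ V₀) (hV₁ : ∑ u ∈ univ \ N₁, r u ≤ V₁)
    (hW₀ : ∀ k : ℕ, k ≤ c → c ≤ k + V₀ → (k : ℤ) + W₀ ≤ ((∑ u ∈ N₀, min k (r u) : ℕ) : ℤ))
    (hW₁ : ∀ k : ℕ, k ≤ c → c ≤ k + V₁ → (k : ℤ) + W₁ ≤ ((∑ u ∈ N₁, min k (r u) : ℕ) : ℤ))
    (hfar₀ : ∀ u ∈ N₁, u ∉ N₀ → ∀ v ∈ N₀, |p u - p v| ≤ W₀ + J + 1)
    (hfar₁ : ∀ u, u ∉ N₁ → ∀ v ∈ N₁, |p u - p v| ≤ W₁ + J + 1)
    {d₁ d₂ : ZMod o → ℕ} (h1 : ∀ u, d₁ u ≤ r u) (h2 : ∀ u, d₂ u ≤ r u) (hc1 : ∑ u, d₁ u = c)
    (hc2 : ∑ u, d₂ u = c) {v : ℤ} (hv1 : ∑ u, (d₁ u : ℤ) * p u ≤ v)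
    (hv2 : v ≤ ∑ u, (d₂ u : ℤ) * p u) :
    ∃ d : ZMod o → ℕ, (∀ u, d u ≤ r u) ∧ ∑ u, d u = c ∧
      v - J ≤ ∑ u, (d u : ℤ) * p u ∧ ∑ u, (d u : ℤ) * p u ≤ v := by
  -- the base
  have hbase : ∀ k : ℕ, IV p (fun u => if u ∈ N₀ then r u else 0) J k := by
    intro k
    apply IVX.iv_base1
    intro u v hu hv huv
    have hu1 : u ∈ N₀ := by
      by_contra hno
      simp [hno] at hu
    have hv1 : v ∈ N₀ := by
      by_contra hno
      simp [hno] at hv
    simp only [hu1, hv1, if_true] at hu hv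
    obtain ⟨w, hw, hw1, hw2, hw3⟩ := hgap u hu1 v hv1 hu hv huv
    exact ⟨w, by simp only [hw, if_true]; exact hw1, hw2, hw3⟩
  set V₂ := ∑ u ∈ univ \ N₁, r u with hV₂
  have hsplit : ∑ u ∈ univ \ N₀, (if u ∈ N₁ then r u else 0) + V₂ = ∑ u ∈ univ \ N₀, r u := by
    have e1 : ∑ u ∈ univ \ N₀, r u = ∑ u ∈ univ \ N₀, (if u ∈ N₁ then r u else 0) +
        ∑ u ∈ univ \ N₀, (if u ∈ N₁ then 0 else r u) := by
      rw [← sum_add_distrib]
      refine sum_congr rfl fun u _ => ?_
      split_ifs <;> omega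
    have e2 : ∑ u ∈ univ \ N₀, (if u ∈ N₁ then 0 else r u) = V₂ := by
      rw [hV₂]
      have e3 : ∑ u ∈ univ \ N₀, (if u ∈ N₁ then 0 else r u) =
          ∑ u ∈ univ \ N₁, (if u ∈ N₁ then 0 else r u) := by
        refine (sum_subset (sdiff_subset_sdiff le_rfl hN) fun u _ hu => ?_).symm
        rw [mem_sdiff, not_and, not_not] at hu
        rw [if_pos (hu (mem_univ _))]
      rw [e3]
      refine sum_congr rfl fun u hu => ?_
      rw [if_neg (mem_sdiff.1 hu).2]
    rw [e1, e2]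
  have phase1 : ∀ k : ℕ, k ≤ c → c ≤ k + V₂ →
      IV p (fun u => if u ∈ N₁ then r u else 0) J k := by
    intro k hk hk2
    refine IVX.iv_grow p hp (N₁ := N₁) (V := V₀) hW00 (fun k _ _ => hbase k) hW₀ hfar₀ _ _ ?_ ?_ rfl k hk
      ?_
    · intro u hu
      simp only [hN hu, if_true]
    · intro u _ hu1
      simp only [hu1, if_false]
    · omega
  exact IVX.iv_grow p hp (N₀ := N₁) (N₁ := univ) (V := V₂) hW10 phase1
    (fun k hk hk2 => hW₁ k hk (by omega)) (fun u _ hu => hfar₁ u hu) V₂ r (fun _ _ => rfl)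
    (fun u _ hu => absurd (mem_univ u) hu) rfl c le_rfl le_rfl d₁ d₂ h1 h2 hc1 hc2 v hv1 hv2

end Pool.Agent.Lib.MPa7239a.RX
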