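import Pool.Agent.Lib.MP_a7239a_co.RX.Defs
import Pool.Agent.Lib.MP_a7239a_co.RX.HALX
import Pool.Agent.Lib.MP_a7239a_co.RG.CYCG
import Pool.Agent.Lib.MP_a7239a_co.RB.PHI
import Pool.Agent.Lib.MP_a7239a_co.RB.B1

/-!
# Two main rows, no fat row, `o ≤ M` (RX, module NFRX, helper87)

As `RF.nfr` with `c ≥ M + 5`. If one row does not lie in a coset of a subgroup of index two of the
kernel `H`, omit at least `6` elements of this row and use `half` for it; the other row may have any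
number of omitted elements. Otherwise the two subgroups are equal (or the two rows, fat in these
cosets, fill `H`: omit at least `3` elements of both), and in the quotient by this subgroup, cyclic
of order `2 o`, there are again two main rows.
-/

set_option autoImplicit false

open Finset

namespace Pool.Agent.Lib.MPa7239a.RX

open Pool.Agent.Lib.MPa7239a.GC
open Pool.Agent.Lib.MPa7239a.RB

namespace NFRM

/-- the numbers; `s` is large since no row is fat -/
theorem numbers {M s n c L D o θ E r₀ r₁ : ℕ} (os : o * s = n)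
    (win : 1 * c + D + 2 ≤ o + 1 * L) (hE : E ≤ D + L) (htot : r₀ + r₁ + E = n + c)
    (h0 : 2 * r₀ < M * s + θ) (h1 : 2 * r₁ < M * s + θ) (hθ : 1000 * θ ≤ M)
    (hL : 4000000 * (L + 1) ≤ M) (hk : o ≤ M) (hc : M + 5 ≤ c) :
    10 ^ 6 ≤ s ∧ E ≤ 2 * L ∧ 499 * (M * s) ≤ 1000 * r₀ ∧ c ≤ M + L := by
  obtain ⟨e, he⟩ : ∃ e, M = o + e := ⟨M - o, by omega⟩
  have hn : n + e * s = M * s := by
    rw [← os, he]
    ring
  have heL : e ≤ L := by omega
  have hes : e * s ≤ L * s := Nat.mul_le_mul_right _ heL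
  have hLs : 4000000 * (L * s) + 4000000 * s ≤ M * s := by
    calc 4000000 * (L * s) + 4000000 * s = 4000000 * (L + 1) * s := by ring
      _ ≤ M * s := Nat.mul_le_mul_right _ hL
  have hs : 10 ^ 6 ≤ s := by
    by_contra hcon
    have h2 : L * s ≤ L * 10 ^ 6 := Nat.mul_le_mul_left _ (by omega)
    omega
  have hMs : M * 10 ^ 6 ≤ M * s := Nat.mul_le_mul_left _ hs
  exact ⟨hs, by omega, by omega, by omega⟩

/-- omitted elements from two disjoint parts -/
theorem hit_two {G : Type*} [AddCommGroup G] [DecidableEq G] {A T₀ T₁ : Finset G} {n c : ℕ}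
    (hA : #A = n + c) (h0 : T₀ ⊆ A) (h1 : T₁ ⊆ A) (hd : Disjoint T₀ T₁) (hc : #T₀ + #T₁ = c)
    (hs : ∑ x ∈ T₀, x + ∑ x ∈ T₁, x = ∑ x ∈ A, x) : Hit A n 0 :=
  RB.B1M.hit_of_omit hA (union_subset h0 h1) (by rw [card_union_of_disjoint hd, hc])
    (by rw [sum_union hd, hs])

/-- a number of omitted elements with a given residue -/
theorem exists_res {o : ℕ} [NeZero o] (a : ℕ) (σ : ZMod o) :
    ∃ d : ℕ, a ≤ d ∧ d < a + o ∧ (d : ZMod o) = σ := by
  have h1 := ZMod.val_lt (σ - (a : ZMod o))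
  refine ⟨a + (σ - (a : ZMod o)).val, by omega, by omega, ?_⟩
  rw [Nat.cast_add, ZMod.natCast_zmod_val]
  abel

/-- two different subgroups of index two -/
theorem sup_eq {G : Type*} [AddCommGroup G] [Finite G] {H K K' : AddSubgroup G} (hK : K ≤ H)
    (hK' : K' ≤ H) (hc : 2 * Nat.card K = Nat.card H) (hc' : 2 * Nat.card K' = Nat.card H)
    (hne : K ≠ K') : K ⊔ K' = H := by
  refine AddSubgroup.eq_of_le_of_card_ge (sup_le hK hK') ?_
  obtain ⟨k, hk⟩ := AddSubgroup.card_dvd_of_le (le_sup_left : K ≤ K ⊔ K')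
  have hpos : 0 < Nat.card (K ⊔ K' : AddSubgroup G) := Nat.card_pos
  rcases Nat.lt_or_ge k 2 with h | h
  · exfalso
    have hk0 : k ≠ 0 := by
      rintro rfl
      omega
    have hk1 : k = 1 := by omega
    rw [hk1, mul_one] at hk
    have h1 : K = K ⊔ K' := AddSubgroup.eq_of_le_of_card_ge le_sup_left hk.le
    have h2 : K' ≤ K := by
      rw [h1]
      exact le_sup_right
    exact hne (AddSubgroup.eq_of_le_of_card_ge h2 (by omega)).symm
  · rw [hk, ← hc, mul_comm]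
    exact Nat.mul_le_mul_left _ h

end NFRM

open NFRM in
/-- `q = 1`, `o ≤ M`, no fat row: the quotient by a subgroup of index two in the kernel -/
theorem nfr {G : Type*} [AddCommGroup G] [Fintype G] [DecidableEq G] {o : ℕ} [NeZero o]
    (φ : G →+ ZMod o) (hφ : Function.Surjective φ) {A : Finset G} {M s n c L D θ : ℕ}
    (N : NumX (cnt φ A) M s n c 1 L D) (hexp : ∀ x : G, n • x = 0)
    (hker : Nat.card φ.ker = M * s)
    (hFF : ∀ K : AddSubgroup G, RG.FatFull3 K θ) (hθ : 1000 * θ ≤ M) (hL : 4000000 * (L + 1) ≤ M)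
    (hk : o ≤ M) (hc : M + 5 ≤ c) (hfat : ∀ u, 2 * cnt φ A u < M * s + θ)
    (hlow : ∀ K : AddSubgroup G, K ≠ ⊤ → ∀ x₀ : G, ∀ B ⊆ A, (∀ x ∈ B, x - x₀ ∈ K) →
      1000 * #B ≤ 1000 * n + 992 * M)
    (hno : ¬ Hit A n 0) :
    ∃ (_ : NeZero (2 * o)) (ψ : G →+ ZMod (2 * o)) (x₀ : G) (s' : ℕ), Function.Surjective ψ ∧
      s = 2 * s' ∧ Nat.card ψ.ker = M * s' ∧
      NumX (cnt ψ (A.image (fun x => x - x₀))) M s' n c 1 (2 * L) 0 := by
  classical
  have ho1 : 1 < o := by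
    have h1 := N.o_large
    omega
  have h01 : (0 : ZMod o) ≠ 1 := by
    have : Fact (1 < o) := ⟨ho1⟩
    exact zero_ne_one
  have hAc : #A = n + c := by
    rw [← N.total]
    exact card_eq_sum_card_fiberwise (f := φ) (t := univ) fun _ _ => mem_coe.2 (mem_univ _)
  have htot : cnt φ A 0 + cnt φ A 1 + far (cnt φ A) 1 0 = n + c := by
    have h1 := N.main_sum
    rw [sum_range_succ, sum_range_one] at h1
    simpa using h1
  obtain ⟨hs, hE, hr₀, hcM⟩ := numbers N.os N.win N.far_zero htot (hfat 0) (hfat 1) hθ hL hk hc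
  obtain ⟨-, -, hr₁, -⟩ := numbers (r₀ := cnt φ A 1) (r₁ := cnt φ A 0) N.os N.win N.far_zero
    (by omega) (hfat 1) (hfat 0) hθ hL hk hc
  have hMs : M * 10 ^ 6 ≤ M * s := Nat.mul_le_mul_left _ hs
  set R₀ := A.filter (fun x => φ x = 0) with hR₀
  set R₁ := A.filter (fun x => φ x = 1) with hR₁
  have hc₀ : cnt φ A 0 = #R₀ := rfl
  have hc₁ : cnt φ A 1 = #R₁ := rfl
  rw [hc₀] at hr₀ htot
  rw [hc₁] at hr₁ htot
  have hR₀A : R₀ ⊆ A := filter_subset _ _
  have hR₁A : R₁ ⊆ A := filter_subset _ _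
  have hφ₀ : ∀ x ∈ R₀, φ x = 0 := fun x hx => (mem_filter.1 hx).2
  have hφ₁ : ∀ x ∈ R₁, φ x = 1 := fun x hx => (mem_filter.1 hx).2
  have hdis : Disjoint R₀ R₁ := by
    rw [disjoint_left]
    intro x hx hx'
    exact h01 ((hφ₀ x hx).symm.trans (hφ₁ x hx'))
  obtain ⟨α, hα⟩ : R₀.Nonempty := card_pos.1 (by omega)
  obtain ⟨β, hβ⟩ : R₁.Nonempty := card_pos.1 (by omega)
  have hα0 := hφ₀ α hα
  have hβ1 := hφ₁ β hβ
  have hX₀ : ∀ x ∈ R₀, x - α ∈ φ.ker := fun x hx => by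
    rw [AddMonoidHom.mem_ker, map_sub, hφ₀ x hx, hα0, sub_self]
  have hX₁ : ∀ x ∈ R₁, x - β ∈ φ.ker := fun x hx => by
    rw [AddMonoidHom.mem_ker, map_sub, hφ₁ x hx, hβ1, sub_self]
  have hH6 : 10 ^ 12 ≤ Nat.card φ.ker := by
    rw [hker]
    omega
  have hHθ : 1000 * θ ≤ Nat.card φ.ker := by
    rw [hker]
    omega
  -- both rows lie in cosets of subgroups of index two
  obtain ⟨K, hKle, hKc, hK₀⟩ : ∃ K ≤ φ.ker, 2 * Nat.card K = Nat.card φ.ker ∧
      ∀ x ∈ R₀, ∀ y ∈ R₀, x - y ∈ K := by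
    rcases half hFF hH6 hHθ hX₀ (by rw [hker]; exact hr₀) with h | h
    · exact h
    · exfalso
      obtain ⟨d₀, hd₀, hd₀o, hσ₀⟩ := exists_res 6 ((c : ZMod o) - φ (∑ x ∈ A, x))
      obtain ⟨d₁, hdc⟩ : ∃ d₁, d₀ + d₁ = c := ⟨c - d₀, by omega⟩
      have hσ : (d₁ : ZMod o) = φ (∑ x ∈ A, x) := by
        have h1 : (c : ZMod o) = d₀ + d₁ := by rw [← hdc, Nat.cast_add]
        have h2 : (d₁ : ZMod o) = c - d₀ := by
          rw [h1]
          abel
        rw [h2, hσ₀, sub_sub_cancel]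
      obtain ⟨T₁, hT₁, hT₁c⟩ := exists_subset_card_eq (show d₁ ≤ #R₁ by omega)
      obtain ⟨T₀, hT₀, hT₀c, hT₀s⟩ := h d₀ hd₀ (by omega) (∑ x ∈ A, x - ∑ x ∈ T₁, x) (by
        rw [AddMonoidHom.mem_ker, map_sub, map_sub, map_nsmul, hα0, smul_zero, sub_zero,
          map_sum φ _ T₁, sum_congr rfl fun x hx => hφ₁ x (hT₁ hx), sum_const, hT₁c, nsmul_one,
          hσ, sub_self])
      refine hno (hit_two hAc (hT₀.trans hR₀A) (hT₁.trans hR₁A)
        (disjoint_of_subset_left hT₀ (disjoint_of_subset_right hT₁ hdis)) (by omega) ?_)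
      rw [hT₀s, sub_add_cancel]
  obtain ⟨K', hK'le, hK'c, hK₁⟩ : ∃ K ≤ φ.ker, 2 * Nat.card K = Nat.card φ.ker ∧
      ∀ x ∈ R₁, ∀ y ∈ R₁, x - y ∈ K := by
    rcases half hFF hH6 hHθ hX₁ (by rw [hker]; exact hr₁) with h | h
    · exact h
    · exfalso
      obtain ⟨d₁, hd₁, hd₁o, hσ⟩ := exists_res 6 (φ (∑ x ∈ A, x))
      obtain ⟨d₀, hdc⟩ : ∃ d₀, d₀ + d₁ = c := ⟨c - d₁, by omega⟩
      obtain ⟨T₀, hT₀, hT₀c⟩ := exists_subset_card_eq (show d₀ ≤ #R₀ by omega)
      obtain ⟨T₁, hT₁, hT₁c, hT₁s⟩ := h d₁ hd₁ (by omega) (∑ x ∈ A, x - ∑ x ∈ T₀, x) (by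
        rw [AddMonoidHom.mem_ker, map_sub, map_sub, map_nsmul, hβ1, nsmul_one, hσ,
          map_sum φ _ T₀, sum_congr rfl fun x hx => hφ₀ x (hT₀ hx), sum_const_zero, sub_zero,
          sub_self])
      refine hno (hit_two hAc (hT₀.trans hR₀A) (hT₁.trans hR₁A)
        (disjoint_of_subset_left hT₀ (disjoint_of_subset_right hT₁ hdis)) (by omega) ?_)
      rw [hT₁s, add_sub_cancel]
  -- the two subgroups are equal
  have hKK : K = K' := by
    by_contra hne
    have hsup := sup_eq hKle hK'le hKc hK'c hne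
    obtain ⟨d₁, hd₁, hd₁o, hσ⟩ := exists_res 3 (φ (∑ x ∈ A, x))
    obtain ⟨d₀, hdc⟩ : ∃ d₀, d₀ + d₁ = c := ⟨c - d₁, by omega⟩
    have hy : ∑ x ∈ A, x - d₀ • α - d₁ • β ∈ K ⊔ K' := by
      rw [hsup, AddMonoidHom.mem_ker, map_sub, map_sub, map_nsmul, map_nsmul, hα0, hβ1, smul_zero,
        sub_zero, nsmul_one, hσ, sub_self]
    obtain ⟨k, hk0, k', hk', hkk⟩ := AddSubgroup.mem_sup.1 hy
    obtain ⟨T₀, hT₀, hT₀c, hT₀s⟩ := hFF K R₀ α (fun x hx => hK₀ x hx α hα) (by omega) d₀ (by omega)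
      (by omega) (k + d₀ • α) (by rw [add_sub_cancel_right]; exact hk0)
    obtain ⟨T₁, hT₁, hT₁c, hT₁s⟩ := hFF K' R₁ β (fun x hx => hK₁ x hx β hβ) (by omega) d₁ (by omega)
      (by omega) (k' + d₁ • β) (by rw [add_sub_cancel_right]; exact hk')
    refine hno (hit_two hAc (hT₀.trans hR₀A) (hT₁.trans hR₁A)
      (disjoint_of_subset_left hT₀ (disjoint_of_subset_right hT₁ hdis)) (by omega) ?_)
    rw [hT₀s, hT₁s]
    have h1 : k + d₀ • α + (k' + d₁ • β) = k + k' + d₀ • α + d₁ • β := by abel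
    rw [h1, hkk]
    abel
  subst hKK
  have hR₀K : ∀ x ∈ R₀, x - α ∈ K := fun x hx => hK₀ x hx α hα
  have hR₁K : ∀ x ∈ R₁, x - β ∈ K := fun x hx => hK₁ x hx β hβ
  -- the quotient is cyclic
  have htop : K ⊔ AddSubgroup.zmultiples (β - α) = ⊤ := by
    by_contra hcon
    have h1 := hlow _ hcon α (R₀ ∪ R₁) (union_subset hR₀A hR₁A)
      (by
        intro x hx
        rcases mem_union.1 hx with hx | hx
        · exact AddSubgroup.mem_sup_left (hR₀K x hx)
        · have h2 : x - α = (x - β) + (β - α) := by abel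
          rw [h2]
          exact AddSubgroup.add_mem _ (AddSubgroup.mem_sup_left (hR₁K x hx))
            (AddSubgroup.mem_sup_right (AddSubgroup.mem_zmultiples _)))
    rw [card_union_of_disjoint hdis] at h1
    omega
  have hgen : ∀ x : G, ∃ a : ℤ, x - a • (β - α) ∈ K := by
    intro x
    have hx : x ∈ K ⊔ AddSubgroup.zmultiples (β - α) := by
      rw [htop]
      exact AddSubgroup.mem_top x
    obtain ⟨k, hk0, l, hl, rfl⟩ := AddSubgroup.mem_sup.1 hx
    obtain ⟨i, rfl⟩ := AddSubgroup.mem_zmultiples_iff.1 hl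
    exact ⟨i, by rw [add_sub_cancel_right]; exact hk0⟩
  have hcard : Nat.card (G ⧸ K) = 2 * o := by
    have h1 := AddSubgroup.card_eq_card_quotient_mul_card_addSubgroup K
    have h2 := AddSubgroup.card_eq_card_quotient_mul_card_addSubgroup φ.ker
    have h3 : Nat.card (G ⧸ φ.ker) = o := by
      rw [Nat.card_congr (QuotientAddGroup.quotientKerEquivOfSurjective φ hφ).toEquiv,
        Nat.card_zmod]
    rw [h1, h3, ← hKc] at h2
    have h4 : 0 < Nat.card K := Nat.card_pos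
    refine Nat.eq_of_mul_eq_mul_right h4 ?_
    rw [h2]
    ring
  have horder : addOrderOf (((β - α : G)) : G ⧸ K) = 2 * o := by
    rw [← hcard]
    refine addOrderOf_eq_card_of_forall_mem_zmultiples fun y => ?_
    obtain ⟨x, rfl⟩ := QuotientAddGroup.mk_surjective y
    obtain ⟨a, ha⟩ := hgen x
    refine AddSubgroup.mem_zmultiples_iff.2 ⟨a, ?_⟩
    have h1 : (x : G ⧸ K) - a • (((β - α : G)) : G ⧸ K) = 0 := by
      rw [← QuotientAddGroup.mk_zsmul, ← QuotientAddGroup.mk_sub]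
      exact (QuotientAddGroup.eq_zero_iff _).2 ha
    exact (sub_eq_zero.1 h1).symm
  have hne2 : NeZero (2 * o) := ⟨by omega⟩
  obtain ⟨ψ, hψs, hψk, hψ1⟩ := RB.exists_phi horder hgen
  obtain ⟨s', hs'⟩ : 2 ∣ s := by
    have h1 : 2 * o ∣ n := RG.dvd_of_surj hexp hψs
    rw [← N.os, mul_comm 2 o] at h1
    exact Nat.dvd_of_mul_dvd_mul_left (by omega) h1
  have hkerψ : Nat.card ψ.ker = M * s' := by
    have h1 : 2 * (M * s') = M * s := by
      rw [hs']
      ring
    rw [hψk]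
    omega
  -- the rows of the translate
  set B := A.image (fun x => x - α) with hB
  have hBc : #B = n + c := by
    rw [hB, card_image_of_injective _ (sub_left_injective), hAc]
  have htotal : ∑ u, cnt ψ B u = n + c := by
    rw [← hBc]
    exact (card_eq_sum_card_fiberwise (f := ψ) (t := univ) fun _ _ => mem_coe.2 (mem_univ _)).symm
  have hψK : ∀ x ∈ K, ψ x = 0 := fun x hx => by
    rw [← hψk] at hx
    exact hx
  have hB₀ : #R₀ ≤ cnt ψ B 0 := by
    rw [← card_image_of_injective R₀ (sub_left_injective (b := α))]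
    refine card_le_card fun y hy => ?_
    obtain ⟨x, hx, rfl⟩ := mem_image.1 hy
    exact mem_filter.2 ⟨mem_image_of_mem _ (hR₀A hx), hψK _ (hR₀K x hx)⟩
  have hB₁ : #R₁ ≤ cnt ψ B 1 := by
    rw [← card_image_of_injective R₁ (sub_left_injective (b := α))]
    refine card_le_card fun y hy => ?_
    obtain ⟨x, hx, rfl⟩ := mem_image.1 hy
    refine mem_filter.2 ⟨mem_image_of_mem _ (hR₁A hx), ?_⟩
    have h2 : x - α = (x - β) + (β - α) := by abel
    rw [h2, map_add, hψ1, hψK _ (hR₁K x hx), zero_add]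
  have h01' : (0 : ZMod (2 * o)) ≠ 1 := by
    have : Fact (1 < 2 * o) := ⟨by omega⟩
    exact zero_ne_one
  have hfar : ∀ w, far (cnt ψ B) 1 w ≤ 2 * L := by
    intro w
    have hsub : ({0, 1} : Finset (ZMod (2 * o))) ⊆ near (2 * o) 1 w := by
      intro u hu
      rw [near, mem_image]
      rcases mem_insert.1 hu with rfl | hu
      · exact ⟨0, mem_Icc.2 ⟨by omega, by omega⟩, by simp⟩
      · rw [mem_singleton] at hu
        subst hu
        exact ⟨1, mem_Icc.2 ⟨by omega, by omega⟩, by simp⟩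
    have h1 := sum_sdiff (f := cnt ψ B) (subset_univ (near (2 * o) 1 w))
    have h2 := sum_le_sum_of_subset (f := cnt ψ B) hsub
    rw [sum_pair h01'] at h2
    rw [htotal] at h1
    rw [far]
    omega
  have hwin := N.win
  refine ⟨hne2, ψ, α, s', hψs, hs', hkerψ, ?_⟩
  exact
  { os := by
      rw [← N.os, hs']
      ring
    s1 := by omega
    mn := N.mn
    total := htotal
    mc := hc
    win := by omega
    mo := by omega
    hL := by omega
    far_mul := fun w => by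
      rw [zero_add]
      exact Nat.mul_le_mul_left _ (hfar w)
    far_two := by
      have h1 := hfar 0
      have h2 := hfar 1
      change far (cnt ψ B) 1 0 + far (cnt ψ B) 1 1 ≤ 0 + 2 * (2 * L)
      omega }

end Pool.Agent.Lib.MPa7239a.RX
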