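import Pool.Agent.Lib.MP_a7239a_co.RX.ZROX
import Pool.Agent.Lib.MP_a7239a_co.RX.NFRX
import Pool.Agent.Lib.MP_a7239a_co.RX.COREL
import Pool.Agent.Lib.MP_a7239a_co.RH.INPR
import Pool.Agent.Lib.MP_a7239a_co.RH.MAINR
import Pool.Agent.Lib.MP_a7239a_co.RG.RULES3

/-!
# The explicit formula up to 4: the upper bound (folder RX, module MAINX, helper25)
-/

set_option autoImplicit false

open Finset

namespace Pool.Agent.Lib.MPa7239a.RX

open Pool.Agent.Lib.MPa7239a.GC
open Pool.Agent.Lib.MPa7239a.RB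
open Pool.Agent.Lib.MPa7239a.RH
open Pool.Agent.Lib.MPa7239a.RG (FatFull3)
open Pool.Agent.Lib.MPa7239a.RS (Amj Par)
open Pool.Agent.Lib.MPa7239a.RF (exc excess exc_le_excess excess_lt excess_eq_zero GameF)

/-- the rule of a set without a solution -/
theorem gameF_of {G : Type*} [AddCommGroup G] [Finite G] [DecidableEq G] {o : ℕ} [NeZero o]
    (φ : G →+ ZMod o) (hφ : Function.Surjective φ) {A : Finset G} {n c h θ : ℕ}
    (hA : #A = n + c) (hh : Nat.card φ.ker = h) (hFF : FatFull3 φ.ker θ)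
    (hno : ¬ Hit A n 0) : GameF (cnt φ A) h θ c := by
  have R := RG.rules3_of φ hφ hA hh hFF hno
  exact ⟨R.row_le, fun d hd u h1 h2 h3 => absurd (R.rule1 d hd u h1 h2) (not_lt.2 h3)⟩

/-- from the window to the numbers of the end game -/
theorem numX_of {G : Type*} [AddCommGroup G] [DecidableEq G] {o : ℕ} [NeZero o]
    (φ : G →+ ZMod o) {A S : Finset G} (z : G → ℤ) {M s n c k t' q L : ℕ}
    (hos : o * s = n) (hs1 : 1 ≤ s) (ht : 101 * M ≤ 100 * n) (hA : #A = n + c)
    (hc : M + 5 ≤ c) (hS : S ⊆ A) (hloss : #A ≤ #S + L) (hL : 1000000 * (L + 1) ≤ M)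
    (hz : ∀ x ∈ S, φ x = (z x : ZMod o)) (hSc : #S = k + t') (hk : k ≤ n) (hmo : c ≤ o + 2 * L)
    (hwin : t' * q + ∑ x ∈ S.filter (fun x => (q : ℤ) < z x), (z x - q) +
      ∑ x ∈ S.filter (fun x => z x < 0), (0 - z x) + 2 ≤ o) :
    ∃ D, NumX (cnt φ A) M s n c q L D := by
  rw [add_assoc ((t' : ℤ) * q), ← sum_dist0] at hwin
  obtain ⟨D, hD⟩ := Int.eq_ofNat_of_zero_le
    (sum_nonneg fun x _ => dist0_nonneg q (z x) : 0 ≤ ∑ x ∈ S, dist0 q (z x))
  have hcard : ∀ w, #((A.filter (fun x => φ x ∉ near o q w)) ∩ S) + L ≥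
      #(A.filter (fun x => φ x ∉ near o q w)) := by
    intro w
    have h1 := card_inter_add_card_sdiff (A.filter (fun x => φ x ∉ near o q w)) S
    have h2 : #((A.filter (fun x => φ x ∉ near o q w)) \ S) ≤ #(A \ S) :=
      card_le_card (sdiff_subset_sdiff (filter_subset _ _) (Subset.refl S))
    have h3 := card_sdiff_of_subset hS
    omega
  have hfilt : ∀ w, (A.filter (fun x => φ x ∉ near o q w)) ∩ S =
      S.filter (fun x => φ x ∉ near o q w) := by
    intro w
    ext x
    rw [mem_inter, mem_filter, mem_filter]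
    constructor
    · rintro ⟨⟨h1, h2⟩, h3⟩
      exact ⟨h3, h2⟩
    · rintro ⟨h1, h2⟩
      exact ⟨⟨hS h1, h2⟩, h1⟩
  refine ⟨D, ?_⟩
  constructor
  · exact hos
  · exact hs1
  · exact ht
  · rw [cnt_sum, hA]
  · exact hc
  · -- the window
    rw [hD] at hwin
    have h1 : t' * q + D + 2 ≤ o := by exact_mod_cast hwin
    have h2 : c ≤ t' + L := by omega
    have h3 : q * c ≤ q * (t' + L) := Nat.mul_le_mul_left _ h2
    have h4 : q * (t' + L) = t' * q + q * L := by ring
    omega
  · exact hmo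
  · exact hL
  · -- far classes
    intro w
    rw [far_cnt]
    have h1 : ((w + 1) * #(S.filter (fun x => φ x ∉ near o q w)) : ℤ) ≤ D := by
      rw [← hD]
      calc ((w + 1) * #(S.filter (fun x => φ x ∉ near o q w)) : ℤ)
          = ∑ _x ∈ S.filter (fun x => φ x ∉ near o q w), ((w : ℤ) + 1) := by
            rw [sum_const, nsmul_eq_mul, mul_comm]
        _ ≤ ∑ x ∈ S.filter (fun x => φ x ∉ near o q w), dist0 q (z x) := by
            refine sum_le_sum fun x hx => ?_
            rw [mem_filter] at hx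
            apply dist0_ge (o := o)
            rw [← hz x hx.1]
            exact hx.2
        _ ≤ ∑ x ∈ S, dist0 q (z x) :=
            sum_le_sum_of_subset_of_nonneg (filter_subset _ _) fun x _ _ => dist0_nonneg q (z x)
    have h2 : (w + 1) * #(S.filter (fun x => φ x ∉ near o q w)) ≤ D := by exact_mod_cast h1
    have h3 := hcard w
    rw [hfilt] at h3
    calc (w + 1) * #(A.filter (fun x => φ x ∉ near o q w))
        ≤ (w + 1) * (#(S.filter (fun x => φ x ∉ near o q w)) + L) := Nat.mul_le_mul_left _ h3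
      _ = (w + 1) * #(S.filter (fun x => φ x ∉ near o q w)) + (w + 1) * L := by ring
      _ ≤ _ := by omega
  · -- two distances
    rw [far_cnt, far_cnt]
    have h1 : (#(S.filter (fun x => φ x ∉ near o q 0)) : ℤ) +
        #(S.filter (fun x => φ x ∉ near o q 1)) ≤ D := by
      rw [← hD, card_filter, card_filter, Nat.cast_sum, Nat.cast_sum, ← sum_add_distrib]
      refine sum_le_sum fun x hx => ?_
      have h2 := hz x hx
      by_cases h3 : φ x ∉ near o q 1
      · have h4 := dist0_ge (o := o) (q := q) (w := 1) (a := z x) (by rw [← h2]; exact h3)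
        have h5 : φ x ∉ near o q 0 := by
          intro h6
          apply h3
          rw [near, mem_image] at h6 ⊢
          obtain ⟨i, hi, hi'⟩ := h6
          rw [mem_Icc] at hi
          exact ⟨i, mem_Icc.2 ⟨by omega, by omega⟩, hi'⟩
        rw [if_pos h3, if_pos h5]
        push_cast at h4 ⊢
        omega
      · rw [if_neg h3]
        by_cases h5 : φ x ∉ near o q 0
        · have h4 := dist0_ge (o := o) (q := q) (w := 0) (a := z x) (by rw [← h2]; exact h5)
          rw [if_pos h5]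
          push_cast at h4 ⊢
          omega
        · rw [if_neg h5]
          have := dist0_nonneg q (z x)
          push_cast
          omega
    have h2 : #(S.filter (fun x => φ x ∉ near o q 0)) +
        #(S.filter (fun x => φ x ∉ near o q 1)) ≤ D := by exact_mod_cast h1
    have h3 := hcard 0
    have h4 := hcard 1
    rw [hfilt] at h3 h4
    omega

/-- THE END GAME without deletion -/
theorem end_X {G : Type*} [AddCommGroup G] [Fintype G] [DecidableEq G] {o : ℕ} [NeZero o]
    (φ : G →+ ZMod o) (hφ : Function.Surjective φ) {A : Finset G}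
    {M s n c q L D θ : ℕ} (N : NumX (cnt φ A) M s n c q L D) (hexp : ∀ x : G, n • x = 0)
    (hker : Nat.card φ.ker = M * s) (hFF : ∀ K : AddSubgroup G, FatFull3 K θ)
    (hθ : 1000 * θ ≤ M) (hθ' : 300 ≤ θ) (hL : 4000000 * (L + 1) ≤ M) (hA : #A = n + c)
    (hc : c = M + excess M n + 5)
    (hlow : ∀ K : AddSubgroup G, K ≠ ⊤ → ∀ x₀ : G, ∀ B ⊆ A, (∀ x ∈ B, x - x₀ ∈ K) →
      1000 * #B ≤ 1000 * n + 992 * M) : Hit A n 0 := by
  by_contra hno
  have hn0 : n ≠ 0 := by
    have := N.mn
    omega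
  have hos := N.os
  have hmo := N.mo
  have g : GameF (cnt φ A) (M * s) θ c := gameF_of φ hφ hA hker (hFF _) hno
  rcases Nat.lt_or_ge M o with hMo | hMo
  · have h1 := exc_le_excess (M := M) hn0 (Dvd.intro _ hos : o ∣ n)
    exact core_X N g hθ (by omega) (by omega) hMo
  · by_cases hfat : ∃ u, M * s + θ ≤ 2 * cnt φ A u
    · obtain ⟨u, hu⟩ := hfat
      refine zrow N g (by omega) hMo hu ?_
      have h1 := N.mn
      rcases Nat.lt_or_ge s 3 with hs | hs
      · have hs1 := N.s1
        rcases (by omega : s = 1 ∨ s = 2) with rfl | rfl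
        · omega
        · have h2 := excess_eq_zero (M := M) hn0 (by omega)
          omega
      · have h2 : M * 3 ≤ M * s := Nat.mul_le_mul_left _ hs
        omega
    · rcases eq_or_ne q 1 with hq | hq
      · subst hq
        push Not at hfat
        obtain ⟨_, ψ, x₀, s', hψ, hs', hkerψ, N'⟩ := nfr φ hφ N hexp hker hFF hθ hL hMo
          (by omega) hfat hlow hno
        have hno' : ¬ Hit (A.image (fun x => x - x₀)) n 0 := fun h =>
          hno (Hit.translate (hexp x₀) h)
        have hA' : #(A.image (fun x => x - x₀)) = n + c := by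
          rw [card_image_of_injective _ sub_left_injective, hA]
        have g' := gameF_of ψ hψ hA' hkerψ (hFF _) hno'
        have h1 := exc_le_excess (M := M) hn0 (Dvd.intro _ N'.os : 2 * o ∣ n)
        exact core_X N' g' hθ (by omega) (by omega) (by omega)
      · exact hfat ⟨0, fat_q0 N hθ (by omega) (by omega) hMo hq⟩

/-- the end game for the structure of Theorem R* -/
theorem false_of_amjX {G : Type*} [AddCommGroup G] [Fintype G] [DecidableEq G] {A S : Finset G}
    {H : AddSubgroup G} {e q : G} {z : G → ℤ} {M n c o τ loss k t' Z θ : ℕ} {u v : ℤ}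
    (h : Amj ⊤ ⊤ H e q A S z M n c 1 o τ loss k t' Z u v) (ht : 101 * M ≤ 100 * n)
    (hc : c = M + excess M n + 5) (hL : 4000000 * (loss + 1) ≤ M)
    (hτ : 1000 * τ ≤ 992 * M + 50) (hG : ∀ x : G, n • x = 0)
    (hFF : ∀ K : AddSubgroup G, FatFull3 K θ) (hθ : 1000 * θ ≤ M) (hθ' : 300 ≤ θ)
    (hno : ¬ Hit A n 0) : False := by
  classical
  have hn1 : 1 ≤ n := by omega
  have ho0 : 0 < o := by
    rw [← h.order]
    exact addOrderOf_pos _
  have : NeZero o := ⟨by omega⟩
  obtain ⟨φ, hφ, hker, hφe⟩ := exists_phi h.order fun x => h.gen x (AddSubgroup.mem_top x)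
  obtain ⟨s, hs⟩ := h.on
  have hos : o * s = n := hs.symm
  have hs1 : 1 ≤ s := by
    rcases Nat.eq_zero_or_pos s with h | h
    · rw [h, mul_zero] at hos
      omega
    · exact h
  have hφH : ∀ x, φ x = 0 ↔ x ∈ H := by
    intro x
    rw [← AddMonoidHom.mem_ker, hker]
  have hkc : Nat.card φ.ker = M * s := by
    rw [hker]
    have h3 := h.cardH
    have h5 := h.cardΓ
    rw [h5] at h3
    have h6 : o * Nat.card H = o * (M * s) := by
      rw [mul_comm o, h3, ← hos]
      ring
    exact Nat.eq_of_mul_eq_mul_left ho0 h6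
  -- translation
  set x₀ : G := q + u • e with hx₀
  have hφ₀ : ∀ x ∈ S, φ (x - x₀) = ((z x - u : ℤ) : ZMod o) := by
    intro x hx
    have h1 := h.lift _ hx
    have h2 : φ (x - q - z x • e) = 0 := (hφH _).2 h1
    rw [map_sub, map_zsmul, hφe, zsmul_one, sub_eq_zero] at h2
    have h3 : x - x₀ = (x - q) - u • e := by
      rw [hx₀]
      abel
    rw [h3, map_sub, map_zsmul, hφe, zsmul_one, h2]
    push_cast
    ring
  have hsub : Function.Injective (fun x : G => x - x₀) := sub_left_injective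
  set A₂ := A.image (fun x => x - x₀) with hA₂
  set S₂ := S.image (fun x => x - x₀) with hS₂
  set z₂ : G → ℤ := fun y => z (y + x₀) - u with hz₂
  have hz₂' : ∀ x, z₂ (x - x₀) = z x - u := by
    intro x
    rw [hz₂]
    simp only [sub_add_cancel]
  obtain ⟨p, hp⟩ := Int.eq_ofNat_of_zero_le (show 0 ≤ v - u by have := h.uv; omega)
  have hA₂c : #A₂ = n + c := by rw [hA₂, card_image_of_injective _ hsub, h.card]
  have hS₂c : #S₂ = #S := by rw [hS₂, card_image_of_injective _ hsub]
  have hloss : #A ≤ #S + loss := h.inK A (Subset.refl _) (fun x _ => AddSubgroup.mem_top _)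
  -- the sums
  have hsum : ∀ (P : ℤ → Prop) [DecidablePred P] (f : ℤ → ℤ),
      ∑ x ∈ S₂.filter (fun x => P (z₂ x)), f (z₂ x) =
        ∑ x ∈ S.filter (fun x => P (z x - u)), f (z x - u) := by
    intro P _ f
    rw [hS₂, sum_filter, sum_filter, sum_image (fun x _ y _ hxy => hsub hxy)]
    refine sum_congr rfl fun x _ => ?_
    simp only [hz₂']
  have hwin : t' * p + ∑ x ∈ S₂.filter (fun x => (p : ℤ) < z₂ x), (z₂ x - p) +
      ∑ x ∈ S₂.filter (fun x => z₂ x < 0), (0 - z₂ x) + 2 ≤ o := by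
    have h1 := h.win
    have h2 := hsum (fun a => (p : ℤ) < a) (fun a => a - p)
    have h3 := hsum (fun a => a < 0) (fun a => 0 - a)
    have e1 : S.filter (fun x => (p : ℤ) < z x - u) = S.filter (fun x => v < z x) :=
      filter_congr fun x _ => by omega
    have e2 : S.filter (fun x => z x - u < 0) = S.filter (fun x => z x < u) :=
      filter_congr fun x _ => by omega
    rw [e1] at h2
    rw [e2] at h3
    have e3 : ∑ x ∈ S.filter (fun x => v < z x), (z x - u - p) =
        ∑ x ∈ S.filter (fun x => v < z x), (z x - v) := sum_congr rfl fun x _ => by omega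
    have e4 : ∑ x ∈ S.filter (fun x => z x < u), (0 - (z x - u)) =
        ∑ x ∈ S.filter (fun x => z x < u), (u - z x) := sum_congr rfl fun x _ => by omega
    rw [e3] at h2
    rw [e4] at h3
    rw [h2, h3]
    have h5 : (t' : ℤ) * p = t' * (v - u) := by rw [hp]
    rw [h5]
    exact h1
  -- the translated set has no zero-sum
  have hno₂ : ¬ Hit A₂ n 0 := fun h1 => hno (Hit.translate (hG x₀) h1)
  have hSA : S₂ ⊆ A₂ := image_subset_image h.sub
  have hrow : ∀ B ⊆ A₂, (∀ x ∈ B, φ x = 0) → #B < n + loss := by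
    intro B hB hB0
    rw [← card_image_of_injective B (add_left_injective x₀)]
    refine h.row (q + u • e) _ ?_ ?_
    · intro w hw
      obtain ⟨y, hy, rfl⟩ := mem_image.1 hw
      obtain ⟨x, hx, rfl⟩ := mem_image.1 (hB hy)
      simp only [sub_add_cancel]
      exact hx
    · intro w hw
      obtain ⟨y, hy, rfl⟩ := mem_image.1 hw
      simp only [← hx₀, add_sub_cancel_right]
      exact (hφH y).1 (hB0 y hy)
  have hlow : ∀ K : AddSubgroup G, K ≠ ⊤ → ∀ x₁ : G, ∀ B ⊆ A₂, (∀ x ∈ B, x - x₁ ∈ K) →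
      1000 * #B ≤ 1000 * n + 992 * M := by
    intro K hK x₁ B hB hBK
    have h1 : #(B.image (fun y => y + x₀)) < n + τ := by
      refine h.low K le_top ?_ (x₁ + x₀) _ ?_ ?_
      · exact card_lt_of_lt (lt_top_iff_ne_top.2 hK)
      · intro w hw
        obtain ⟨y, hy, rfl⟩ := mem_image.1 hw
        obtain ⟨x, hx, rfl⟩ := mem_image.1 (hB hy)
        simp only [sub_add_cancel]
        exact hx
      · intro w hw
        obtain ⟨y, hy, rfl⟩ := mem_image.1 hw
        simp only [add_sub_add_right_eq_sub]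
        exact hBK y hy
    rw [card_image_of_injective B (add_left_injective x₀)] at h1
    omega
  have hz : ∀ y ∈ S₂, φ y = (z₂ y : ZMod o) := by
    intro y hy
    obtain ⟨x, hx, rfl⟩ := mem_image.1 hy
    rw [hz₂', hφ₀ x hx]
  have hk := h.kn
  have hS₂k : #S₂ = k + t' := by rw [hS₂c, h.cardS]
  have hAS : #A₂ ≤ #S₂ + loss := by
    rw [hA₂c, hS₂c, ← h.card]
    exact hloss
  -- `o` is nearly `c` at least
  have hD1 : (0 : ℤ) ≤ ∑ x ∈ S₂.filter (fun x => (p : ℤ) < z₂ x), (z₂ x - p) := by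
    refine sum_nonneg fun x hx => ?_
    rw [mem_filter] at hx
    omega
  have hD2 : (0 : ℤ) ≤ ∑ x ∈ S₂.filter (fun x => z₂ x < 0), (0 - z₂ x) := by
    refine sum_nonneg fun x hx => ?_
    rw [mem_filter] at hx
    omega
  have hmo : c ≤ o + 2 * loss := by
    rcases Nat.eq_zero_or_pos p with hq | hq
    · -- row 0
      subst hq
      have h1 := hrow (A₂.filter (fun x => φ x = 0)) (filter_subset _ _)
        fun x hx => (mem_filter.1 hx).2
      have h2 : (#(S₂.filter (fun x => z₂ x ≠ 0)) : ℤ) + 2 ≤ o := by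
        have h3 : S₂.filter (fun x => z₂ x ≠ 0) =
            S₂.filter (fun x => ((0 : ℕ) : ℤ) < z₂ x) ∪ S₂.filter (fun x => z₂ x < 0) := by
          ext x
          simp only [mem_filter, mem_union]
          constructor
          · rintro ⟨h, h'⟩
            rcases lt_or_gt_of_ne h' with h'' | h''
            · exact Or.inr ⟨h, h''⟩
            · exact Or.inl ⟨h, by push_cast; exact h''⟩
          · rintro (⟨h, h'⟩ | ⟨h, h'⟩)
            · exact ⟨h, by push_cast at h'; omega⟩
            · exact ⟨h, by omega⟩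
        have h5 : (#(S₂.filter (fun x => ((0 : ℕ) : ℤ) < z₂ x)) : ℤ) ≤
            ∑ x ∈ S₂.filter (fun x => ((0 : ℕ) : ℤ) < z₂ x), (z₂ x - (0 : ℕ)) := by
          rw [card_eq_sum_ones, Nat.cast_sum]
          refine sum_le_sum fun x hx => ?_
          rw [mem_filter] at hx
          push_cast at hx ⊢
          omega
        have h6 : (#(S₂.filter (fun x => z₂ x < 0)) : ℤ) ≤
            ∑ x ∈ S₂.filter (fun x => z₂ x < 0), (0 - z₂ x) := by
          rw [card_eq_sum_ones, Nat.cast_sum]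
          refine sum_le_sum fun x hx => ?_
          rw [mem_filter] at hx
          push_cast
          omega
        have h7 := card_union_le (S₂.filter (fun x => ((0 : ℕ) : ℤ) < z₂ x))
          (S₂.filter (fun x => z₂ x < 0))
        rw [← h3] at h7
        have h8 : (#(S₂.filter (fun x => z₂ x ≠ 0)) : ℤ) ≤
            #(S₂.filter (fun x => ((0 : ℕ) : ℤ) < z₂ x)) + #(S₂.filter (fun x => z₂ x < 0)) := by
          exact_mod_cast h7
        push_cast at hwin h5 h8 ⊢
        linarith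
      have h3 : #(S₂.filter (fun x => z₂ x = 0)) ≤ #(A₂.filter (fun x => φ x = 0)) := by
        refine card_le_card fun x hx => ?_
        rw [mem_filter] at hx ⊢
        refine ⟨hSA hx.1, ?_⟩
        rw [hz x hx.1, hx.2, Int.cast_zero]
      have h5 := card_filter_add_card_filter_not (s := S₂) (fun x => z₂ x = 0)
      have h6 : #(S₂.filter (fun x => ¬ z₂ x = 0)) + 2 ≤ o := by exact_mod_cast h2
      omega
    · have h1 : (t' : ℤ) ≤ t' * p := by
        have : (1 : ℤ) ≤ p := by exact_mod_cast hq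
        nlinarith
      have h2 : (t' : ℤ) + 2 ≤ o := by linarith
      omega
  obtain ⟨D, N⟩ := numX_of φ z₂ hos hs1 ht hA₂c (by omega) hSA hAS (by omega) hz hS₂k hk hmo
    hwin
  exact hno₂ (end_X φ hφ N hG hkc hFF hθ hθ' hL hA₂c hc hlow)

/-- **MAINX**: the upper bound -/
theorem upper_X {G : Type*} [AddCommGroup G] [Fintype G] [DecidableEq G] {M n : ℕ}
    (hexp : AddMonoid.exponent G = n) (hcard : Nat.card G = M * n) (hn : 101 * M ≤ 100 * n)
    (hM : 10 ^ 44 * (Nat.log 2 n + 1) ^ 12 ≤ M)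
    {A : Finset G} (hno : ¬ Hit A n 0) : #A < n + M + excess M n + 5 := by
  classical
  by_contra hcon
  push Not at hcon
  have hG : ∀ x : G, n • x = 0 := fun x => by
    rw [← hexp]
    exact AddMonoid.exponent_nsmul_eq_zero x
  have hM44 : 10 ^ 44 ≤ M := by
    have h1 : 1 ≤ (Nat.log 2 n + 1) ^ 12 := Nat.one_le_pow _ _ (by omega)
    calc 10 ^ 44 = 10 ^ 44 * 1 := (mul_one _).symm
      _ ≤ 10 ^ 44 * (Nat.log 2 n + 1) ^ 12 := Nat.mul_le_mul_left _ h1
      _ ≤ M := hM
  have hn0 : n ≠ 0 := by omega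
  have : NeZero n := ⟨hn0⟩
  have hexc := excess_lt (n := n) (show 0 < M by omega)
  have hexc0 : n < 3 * M → excess M n = 0 := excess_eq_zero hn0
  obtain ⟨c, hc⟩ : ∃ c, c = M + excess M n + 5 := ⟨_, rfl⟩
  obtain ⟨B, hB, hBc⟩ := exists_subset_card_eq (show n + c ≤ #A by omega)
  have hnoB : ¬ Hit B n 0 := fun h => hno (Hit.mono hB h)
  -- the parameters
  obtain ⟨ℓ, P, Λ, k₀, hP, hℓ, hL⟩ := exists_parR (m := M) (n := n) (by omega) hM
  obtain ⟨loss, hloss⟩ : ∃ loss, loss = 2592 * P * ℓ ^ 3 := ⟨_, rfl⟩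
  rw [← hloss] at hL
  have hℓ1 : 1 ≤ ℓ := by omega
  have hℓ3 : 1 ≤ ℓ ^ 3 := Nat.one_le_pow _ _ hℓ1
  have hθ : 1000 * (600 * ℓ ^ 3 + 4) ≤ M := by
    have h1 : 10 ^ 44 * ℓ ^ 12 ≤ M := by
      rw [hℓ]
      exact hM
    have h2 : 10 ^ 40 * (600000 * ℓ ^ 3) ≤ 10 ^ 4 * M := by
      calc 10 ^ 40 * (600000 * ℓ ^ 3) ≤ 10 ^ 40 * (10 ^ 8 * ℓ ^ 12) :=
            Nat.mul_le_mul_left _ (Nat.mul_le_mul (by norm_num)
              (Nat.pow_le_pow_right hℓ1 (by norm_num)))
        _ = 10 ^ 4 * (10 ^ 44 * ℓ ^ 12) := by ring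
        _ ≤ 10 ^ 4 * M := Nat.mul_le_mul_left _ h1
    omega
  have hcardG : Nat.card G ≤ n ^ 2 := by
    rw [hcard, sq]
    exact Nat.mul_le_mul_right _ (by omega)
  have hFF : ∀ K : AddSubgroup G, FatFull3 K (600 * ℓ ^ 3 + 4) := fun K =>
    RG.fatFull3 hcardG hP.hℓ hP.hb K
  obtain ⟨τ, hτ⟩ : ∃ τ, τ = 992 * M / 1000 := ⟨_, rfl⟩
  have hτ1 : 1000 * τ ≤ 992 * M := by
    rw [hτ]
    exact Nat.mul_div_le _ _
  have hτ2 : 992 * M < 1000 * τ + 1000 := by
    rw [hτ]
    omega
  have hGc : Fintype.card G ≤ n ^ 2 := by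
    rw [← Nat.card_eq_fintype_card]
    exact hcardG
  have htop : Nat.card (⊤ : AddSubgroup G) = M * n := by
    rw [AddSubgroup.card_top, hcard]
  obtain ⟨H, e, q, S, z, o, k, t', Z, u, v, h⟩ := input_R hG hGc hP htop hloss
    (fun x _ => AddSubgroup.mem_top x) hBc (τ := τ) (by omega) (by omega) (Or.inl (by omega))
    (by omega) hnoB
  exact false_of_amjX h hn hc hL (by omega) hG hFF hθ (by omega) hnoB

end Pool.Agent.Lib.MPa7239a.RX
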