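import Pool.Agent.Lib.MP_a7239a_co.RX.Defs

/-!
# The explicit formula up to 4, module NUMX: numbers (from RF/NUMF)
-/

set_option autoImplicit false

open Finset

namespace Pool.Agent.Lib.MPa7239a.RX

open Pool.Agent.Lib.MPa7239a.RB
open Pool.Agent.Lib.MPa7239a.RH
open Pool.Agent.Lib.MPa7239a.RF (exc excess pos pos_cast pos_ge pos_lt pos_of pos_inj mem_near_iff GameF ww)

section
variable {o : ℕ} [NeZero o] {r : ZMod o → ℕ} {M s n c q L D θ : ℕ}

theorem nf_star (N : NumX r M s n c q L D) (hr : ∀ u, r u ≤ M * s) :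
    (s - 1) * o + (q + 1) * c + 2 ≤ (q + 1) * (M * s + L) := by
  have h1 := N.main_sum
  have h2 := N.far_zero
  have h3 := N.win
  have h4 : ∑ i ∈ range (q + 1), r (i : ZMod o) ≤ #(range (q + 1)) • (M * s) :=
    sum_le_card_nsmul _ _ _ fun x _ => hr _
  rw [card_range, smul_eq_mul] at h4
  have h5 := N.os
  obtain ⟨a, ha⟩ : ∃ a, s = a + 1 := ⟨s - 1, by have := N.s1; omega⟩
  subst ha
  rw [Nat.add_sub_cancel]
  have e1 : (q + 1) * (M * (a + 1) + L) = (q + 1) * (M * (a + 1)) + q * L + L := by ring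
  have e2 : (q + 1) * c = q * c + c := by ring
  have e3 : o * (a + 1) = a * o + o := by ring
  omega

theorem nf_o2 (N : NumX r M s n c q L D) (hr : ∀ u, r u ≤ M * s) (hc : M + 5 ≤ c) (hs : 2 ≤ s) :
    o ≤ (q + 1) * (M + L) := by
  have h1 := nf_star N hr
  obtain ⟨a, ha⟩ : ∃ a, s = a + 2 := ⟨s - 2, by omega⟩
  subst ha
  have h2 : (q + 1) * (M + 5) ≤ (q + 1) * c := Nat.mul_le_mul_left _ hc
  have e0 : a + 2 - 1 = a + 1 := by omega
  rw [e0] at h1
  have h3 : (a + 1) * o ≤ (a + 1) * ((q + 1) * (M + L)) := by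
    have e1 : (q + 1) * (M * (a + 2) + L) = (a + 1) * ((q + 1) * M) + (q + 1) * M + (q + 1) * L := by
      ring
    have e2 : (a + 1) * ((q + 1) * (M + L)) = (a + 1) * ((q + 1) * M) + a * ((q + 1) * L) +
      (q + 1) * L := by ring
    have e3 : (q + 1) * (M + 5) = (q + 1) * M + (q + 1) * 5 := by ring
    have h4 : 0 ≤ a * ((q + 1) * L) := Nat.zero_le _
    omega
  exact Nat.le_of_mul_le_mul_left h3 (by omega)

theorem nf_o1 (N : NumX r M s n c q L D) (hr : ∀ u, r u ≤ M * s) (hc : M + 5 ≤ c) :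
    o ≤ (q + 2) * (M + L) := by
  rcases Nat.lt_or_ge s 2 with hs | hs
  · have hs1 : s = 1 := by have := N.s1; omega
    subst hs1
    have h1 := N.main_sum
    have h2 := N.far_split
    have h3 := N.far_two
    have h4 : ∑ i ∈ range (q + 1), r (i : ZMod o) ≤ #(range (q + 1)) • (M * 1) :=
      sum_le_card_nsmul _ _ _ fun x _ => hr _
    rw [card_range, smul_eq_mul, Nat.mul_one] at h4
    have h5 := hr (-1)
    have h6 := hr ((q : ZMod o) + 1)
    rw [Nat.mul_one] at h5 h6
    have h7 := N.win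
    have h8 := N.os
    rw [Nat.mul_one] at h8
    have h9 : (q + 2) * (M + 5) ≤ (q + 2) * c := Nat.mul_le_mul_left _ hc
    have e1 : (q + 2) * (M + 5) = q * M + 2 * M + (q + 2) * 5 := by ring
    have e2 : (q + 2) * c = q * c + 2 * c := by ring
    have e3 : (q + 2) * (M + L) = q * M + 2 * M + q * L + 2 * L := by ring
    have e4 : (q + 1) * M = q * M + M := by ring
    omega
  · refine (nf_o2 N hr hc hs).trans (Nat.mul_le_mul_right _ (by omega))

theorem nf_c1 (N : NumX r M s n c q L D) (hr : ∀ u, r u ≤ M * s) (hs : s = 1) : c ≤ M + L := by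
  subst hs
  have h1 := nf_star N hr
  have h2 : (q + 1) * c ≤ (q + 1) * (M + L) := by
    rw [Nat.mul_one] at h1
    omega
  exact Nat.le_of_mul_le_mul_left h2 (by omega)

/-- the far elements from a bound for `D` -/
theorem far_ww (N : NumX r M s n c q L D) (hL : 1000000 * (L + 1) ≤ M) {k : ℕ}
    (hD : D ≤ k * M + (2 * q + 2) * L) : 1000 * far r q (ww q) ≤ (k * 100 + 1) * M := by
  have h1 := N.far_mul (ww q)
  unfold ww at h1 ⊢
  split_ifs at h1 ⊢ with hq
  · have h2 : (2 * q + 2) * L ≤ 2000 * L := Nat.mul_le_mul_right _ (by omega)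
    have e1 : (k * 100 + 1) * M = 100 * (k * M) + M := by ring
    omega
  · have h3 : (q + 10) * far r q (q + 9) ≤ (q + 10) * (k * (M / 1010 + 1) + 3 * L) := by
      have h4 : M ≤ 1010 * (M / 1010 + 1) := by omega
      have h5 : k * M ≤ (q + 10) * (k * (M / 1010 + 1)) := by
        calc k * M ≤ k * (1010 * (M / 1010 + 1)) := Nat.mul_le_mul_left _ h4
          _ ≤ k * ((q + 10) * (M / 1010 + 1)) :=
            Nat.mul_le_mul_left _ (Nat.mul_le_mul_right _ (by omega))
          _ = (q + 10) * (k * (M / 1010 + 1)) := by ring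
      have e1 : (q + 10) * (k * (M / 1010 + 1) + 3 * L) = (q + 10) * (k * (M / 1010 + 1)) +
        (2 * q + 20) * L + (q + 10) * L := by ring
      have h6 : (2 * q + 2) * L ≤ (2 * q + 20) * L := Nat.mul_le_mul_right _ (by omega)
      have e2 : q + 9 + 1 = q + 10 := by omega
      rw [e2] at h1
      omega
    have h7 := Nat.le_of_mul_le_mul_left h3 (by omega)
    have h8 : k * (1000 * (M / 1010 + 1)) ≤ k * (100 * M) := by
      refine Nat.mul_le_mul_left _ ?_
      omega
    have e3 : k * (1000 * (M / 1010 + 1)) = 1000 * (k * (M / 1010 + 1)) := by ring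
    have e4 : (k * 100 + 1) * M = k * (100 * M) + M := by ring
    omega

theorem nf_V2 (N : NumX r M s n c q L D) (hr : ∀ u, r u ≤ M * s) (hL : 1000000 * (L + 1) ≤ M)
    (hc : M + 5 ≤ c) (hs : 2 ≤ s) : 1000 * far r q (ww q) ≤ 101 * M := by
  have h1 := nf_o2 N hr hc hs
  have h2 := N.win
  have h3 : q * (M + 5) ≤ q * c := Nat.mul_le_mul_left _ hc
  refine far_ww (k := 1) N hL ?_
  have e1 : (q + 1) * (M + L) = q * M + M + q * L + L := by ring
  have e2 : q * (M + 5) = q * M + q * 5 := by ring
  have e3 : (2 * q + 2) * L = q * L + q * L + L + L := by ring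
  omega

theorem nf_V1 (N : NumX r M s n c q L D) (hr : ∀ u, r u ≤ M * s) (hL : 1000000 * (L + 1) ≤ M)
    (hc : M + 5 ≤ c) : 1000 * far r q (ww q) ≤ 201 * M := by
  have h1 := nf_o1 N hr hc
  have h2 := N.win
  have h3 : q * (M + 5) ≤ q * c := Nat.mul_le_mul_left _ hc
  refine far_ww (k := 2) N hL ?_
  have e1 : (q + 2) * (M + L) = q * M + 2 * M + q * L + 2 * L := by ring
  have e2 : q * (M + 5) = q * M + q * 5 := by ring
  have e3 : (2 * q + 2) * L = q * L + q * L + L + L := by ring
  omega

theorem nf_c (N : NumX r M s n c q L D) (hr : ∀ u, r u ≤ M * s) (hL : 1000000 * (L + 1) ≤ M)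
    (hc : M + 5 ≤ c) (ho : M < o) : 100 * c ≤ 201 * M := by
  have h1 := nf_star N hr
  have h2 := N.win
  obtain ⟨a, ha⟩ : ∃ a, s = a + 1 := ⟨s - 1, by have := N.s1; omega⟩
  subst ha
  rw [Nat.add_sub_cancel] at h1
  rcases Nat.eq_zero_or_pos q with rfl | hq
  · have h3 : a * M ≤ a * o := Nat.mul_le_mul_left _ ho.le
    have e1 : M * (a + 1) = a * M + M := by ring
    omega
  · have h3 : a * (q * c) ≤ a * (o + q * L) := Nat.mul_le_mul_left _ (by omega)
    have h4 : (q * a + q + 1) * c ≤ (q * a + q + 1) * (2 * M + L) := by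
      have e1 : (q * a + q + 1) * c = a * (q * c) + (q + 1) * c := by ring
      have e2 : (q + 1) * (M * (a + 1) + L) = q * (a * M) + q * M + (a * M + M) + (q + 1) * L := by
        ring
      have e3 : (q * a + q + 1) * (2 * M + L) = 2 * (q * (a * M)) + 2 * (q * M) + 2 * M +
        a * (q * L) + (q + 1) * L := by ring
      have e4 : a * (o + q * L) = a * o + a * (q * L) := by ring
      have h5 : a * M ≤ q * (a * M) := Nat.le_mul_of_pos_left _ hq
      omega
    have h6 := Nat.le_of_mul_le_mul_left h4 (by omega)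
    omega

theorem nf_cn (N : NumX r M s n c q L D) (hr : ∀ u, r u ≤ M * s) (hL : 1000000 * (L + 1) ≤ M)
    (hc : M + 5 ≤ c) (ho : M < o) : c + 20 * (q + 3) ≤ n := by
  have h1 := nf_star N hr
  have h2 := N.win
  have h3 := N.o_large
  have h4 := N.os
  have h5 := N.mn
  have h6 := N.s1
  have hon : o ≤ n := by
    rw [← h4]
    exact Nat.le_mul_of_pos_right _ h6
  rcases Nat.lt_or_ge s 3 with hs | hs
  · have hs' : s = 1 ∨ s = 2 := by omega
    rcases hs' with rfl | rfl
    · have h7 := nf_c1 N hr rfl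
      omega
    · rcases Nat.eq_zero_or_pos q with rfl | hq
      · omega
      · have h7 : (2 * q + 1) * (3 * c) ≤ (2 * q + 1) * (4 * M + 3 * L) := by
          have e1 : (2 - 1) * o = o := Nat.one_mul _
          rw [e1] at h1
          have e2 : (q + 1) * (M * 2 + L) = 2 * (q * M) + 2 * M + q * L + L := by ring
          have e3 : (q + 1) * c = q * c + c := by ring
          have e4 : (2 * q + 1) * (3 * c) = 6 * (q * c) + 3 * c := by ring
          have e5 : (2 * q + 1) * (4 * M + 3 * L) = 8 * (q * M) + 4 * M + 6 * (q * L) + 3 * L := by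
            ring
          have e6 : M ≤ q * M := Nat.le_mul_of_pos_left _ hq
          omega
        have h8 := Nat.le_of_mul_le_mul_left h7 (by omega)
        omega
  · have h7 := nf_c N hr hL hc ho
    have h8 : o * 3 ≤ o * s := Nat.mul_le_mul_left _ hs
    omega

theorem nf_q0 (N : NumX r M s n c 0 L D) (hr : ∀ u, r u ≤ M * s) (hL : 1000000 * (L + 1) ≤ M)
    (hc : M + 5 ≤ c) (ho : M < o) : c ≤ M + L ∧ M * s ≤ r 0 + L ∧
      (49 * M ≤ 100 * r 1 ∨ 49 * M ≤ 100 * r (-1)) := by
  have h1 := nf_star N hr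
  have h2 := N.win
  have h5 := N.os
  have h6 := N.main_sum
  have h7 := N.far_split
  have h8 := N.far_two
  have h9 := N.far_zero
  have h10 := hr 0
  simp only [range_one, sum_singleton, Nat.cast_zero, Nat.zero_mul, zero_add,
    Nat.one_mul] at h1 h2 h6 h7
  obtain ⟨a, ha⟩ : ∃ a, s = a + 1 := ⟨s - 1, by have := N.s1; omega⟩
  subst ha
  rw [Nat.add_sub_cancel] at h1
  have h11 : a * M ≤ a * o := Nat.mul_le_mul_left _ ho.le
  have e1 : M * (a + 1) = a * M + M := by ring
  have e3 : o * (a + 1) = a * o + o := by ring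
  rw [e1] at h10 h1 ⊢
  rw [e3] at h5
  refine ⟨by omega, by omega, ?_⟩
  by_contra hcon
  rw [not_or] at hcon
  omega

/-- the key inequality for `1 ≤ q < 1000` -/
theorem nf_key (N : NumX r M s n c q L D) (hr : ∀ u, r u ≤ M * s) (hL : 1000000 * (L + 1) ≤ M)
    (hc : M + exc M n o + 5 ≤ c) (ho : M < o) (hq1 : 1 ≤ q) (hq : q < 1000) :
    100 * (q * (M * s) + far r q 0) + 98 * M ≤ 100 * (n + c) := by
  have hc' : M + 5 ≤ c := by omega
  have h1 := N.far_zero
  have h2 := N.win
  have h3 := N.os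
  have hqL : q * L ≤ 1000 * L := Nat.mul_le_mul_right _ hq.le
  obtain ⟨a, ha⟩ : ∃ a, s = a + 1 := ⟨s - 1, by have := N.s1; omega⟩
  subst ha
  have h4 : q * (M + exc M n o + 5) ≤ q * c := Nat.mul_le_mul_left _ hc
  have e1 : q * (M + exc M n o + 5) = q * M + q * exc M n o + q * 5 := by ring
  have e2 : q * (M * (a + 1)) = a * (q * M) + q * M := by ring
  have e3 : o * (a + 1) = a * o + o := by ring
  rw [e2]
  rw [e3] at h3
  -- enough: `a (q M) <= a o + 2 q L`
  suffices h5 : a * (q * M) ≤ a * o + 2 * (q * L) by omega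
  rcases Nat.le_or_ge (q * M) o with hoq | hoq
  · have := Nat.mul_le_mul_left a hoq
    omega
  · rcases Nat.eq_zero_or_pos a with rfl | ha
    · omega
    · rcases Nat.eq_or_lt_of_le hoq with hoq | hoq
      · rw [hoq]
        omega
      obtain ⟨f, hf⟩ : ∃ f, q * M = o + f := ⟨q * M - o, by omega⟩
      have hf0 : 0 < f := by omega
      have hM0 : 0 < M := by omega
      have hfL : f + q * exc M n o + q * 5 + 2 ≤ q * L := by omega
      have hq2 : 2 ≤ q := by
        by_contra hq2
        have : q = 1 := by omega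
        subst this
        omega
      obtain ⟨b, hb⟩ : ∃ b, q = b + 1 := ⟨q - 1, by omega⟩
      have hb1 : 1 ≤ b := by omega
      have hfM : f < M := by omega
      have e4 : o = M * b + (M - f) := by
        have : q * M = M * b + M := by rw [hb]; ring
        omega
      have hdiv : o / M = b := by
        rw [e4, Nat.mul_add_div hM0, Nat.div_eq_of_lt (by omega), Nat.add_zero]
      have hmod : o % M = M - f := by
        rw [e4, Nat.mul_add_mod, Nat.mod_eq_of_lt (by omega)]
      have hno : n / o = a + 1 := by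
        rw [← N.os]
        exact Nat.mul_div_cancel_left _ (by omega)
      have hexL : exc M n o ≤ L := by
        have h6 : q * exc M n o ≤ q * L := by omega
        exact Nat.le_of_mul_le_mul_left h6 (by omega)
      -- the first term is large
      have h7 : ¬ (o % M / (o / M) ≤ exc M n o) := by
        rw [hdiv, hmod]
        intro h7
        have h8 : (M - f) < b * (exc M n o + 1) := by
          rw [mul_comm, ← Nat.div_lt_iff_lt_mul (by omega)]
          omega
        have h9 : b * (exc M n o + 1) ≤ 1000 * (L + 1) := Nat.mul_le_mul (by omega) (by omega)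
        omega
      have h8 : ((if Even (n / o * (o / M)) then 1 else 2) * (n / o) - 2) * (M - o % M) /
          (2 * (o / M + 1)) ≤ exc M n o := by
        have h9 : exc M n o = min (o % M / (o / M))
          (((if Even (n / o * (o / M)) then 1 else 2) * (n / o) - 2) * (M - o % M) /
            (2 * (o / M + 1))) := rfl
        rcases le_total (o % M / (o / M))
          (((if Even (n / o * (o / M)) then 1 else 2) * (n / o) - 2) * (M - o % M) /
            (2 * (o / M + 1))) with h10 | h10
        · rw [min_eq_left h10] at h9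
          exact absurd h9.ge h7
        · rw [min_eq_right h10] at h9
          exact h9.ge
      have h9 : (a + 1 - 2) * f / (2 * q) ≤ exc M n o := by
        refine le_trans ?_ h8
        rw [hdiv, hmod, hno, ← hb]
        have e5 : M - (M - f) = f := by omega
        rw [e5]
        refine Nat.div_le_div_right (Nat.mul_le_mul_right _ ?_)
        refine Nat.sub_le_sub_right ?_ 2
        split_ifs <;> omega
      have h10 : (a + 1 - 2) * f < 2 * q * (exc M n o + 1) := by
        rw [mul_comm (2 * q), ← Nat.div_lt_iff_lt_mul (by omega)]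
        omega
      have e6 : 2 * q * (exc M n o + 1) = 2 * (q * exc M n o) + 2 * q := by ring
      have e7 : (a + 1 - 2) * f + f = a * f := by
        obtain ⟨a', ha'⟩ : ∃ a', a = a' + 1 := ⟨a - 1, by omega⟩
        rw [ha']
        have : a' + 1 + 1 - 2 = a' := by omega
        rw [this]
        ring
      have e8 : a * (q * M) = a * o + a * f := by rw [hf]; ring
      omega

theorem nf_rows (N : NumX r M s n c q L D) (hr : ∀ u, r u ≤ M * s) (hL : 1000000 * (L + 1) ≤ M)
    (hc : M + exc M n o + 5 ≤ c) (ho : M < o) (hq1 : 1 ≤ q) (hq : q < 1000) {i : ℕ} (hi : i ≤ q) :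
    98 * M ≤ 100 * r (i : ZMod o) := by
  have h1 := nf_key N hr hL hc ho hq1 hq
  have h2 := N.one_row hr hi
  omega

theorem nf_pair (N : NumX r M s n c q L D) (hr : ∀ u, r u ≤ M * s) (hL : 1000000 * (L + 1) ≤ M)
    (hc : M + exc M n o + 5 ≤ c) (ho : M < o) (hq1 : 1 ≤ q) (hq : q < 1000) {i j : ℕ} (hi : i ≤ q)
    (hj : j ≤ q) (hij : i ≠ j) :
    100 * (M * s) + 98 * M ≤ 100 * (r (i : ZMod o) + r (j : ZMod o)) := by
  have h1 := nf_key N hr hL hc ho hq1 hq
  have h2 := N.two_row hr hi hj hij
  omega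

theorem nf_fat (N : NumX r M s n c q L D) (hr : ∀ u, r u ≤ M * s) (hL : 1000000 * (L + 1) ≤ M)
    (hθ : 1000 * θ ≤ M) (hc : M + 5 ≤ c) (hq : 1000 ≤ q) :
    1000 * #((range (q + 1)).filter (fun i : ℕ => 2 * r (i : ZMod o) < M * s + θ)) ≤ 3000 + q := by
  set B := (range (q + 1)).filter (fun i : ℕ => 2 * r (i : ZMod o) < M * s + θ) with hB
  have h1 := N.main_sum
  have h2 := N.far_zero
  have h3 := N.win
  have h4 := N.os
  have hM0 : 0 < M := by omega
  obtain ⟨a, ha⟩ : ∃ a, s = a + 1 := ⟨s - 1, by have := N.s1; omega⟩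
  subst ha
  -- twice the sum plus the deficiency of the bad rows
  have h5 : 2 * ∑ i ∈ range (q + 1), r (i : ZMod o) + #B * (M * (a + 1) - θ) ≤
      (q + 1) * (2 * (M * (a + 1))) := by
    have h6 : ∀ i ∈ range (q + 1), 2 * r (i : ZMod o) +
        (if 2 * r (i : ZMod o) < M * (a + 1) + θ then (M * (a + 1) - θ) else 0) ≤
        2 * (M * (a + 1)) := by
      intro i _
      have h7 := hr (i : ZMod o)
      split_ifs with h8
      · omega
      · omega
    have h7 := sum_le_sum h6
    rw [sum_add_distrib, ← mul_sum, sum_const, card_range, smul_eq_mul, ← sum_filter, sum_const,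
      smul_eq_mul] at h7
    exact h7
  have h6 : q * (M + 5) ≤ q * c := Nat.mul_le_mul_left _ hc
  have hqL : 1000000 * (q * (L + 1)) ≤ q * M := by
    calc 1000000 * (q * (L + 1)) = q * (1000000 * (L + 1)) := by ring
      _ ≤ q * M := Nat.mul_le_mul_left _ hL
  have haL : a * (1000000 * (q * (L + 1))) ≤ a * (q * M) := Nat.mul_le_mul_left _ hqL
  -- `a q M <= a o + a q L`
  have h7 : a * (q * M) ≤ a * o + a * (q * L) := by
    have h8 : q * M ≤ o + q * L := by
      have e1 : q * (M + 5) = q * M + q * 5 := by ring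
      omega
    calc a * (q * M) ≤ a * (o + q * L) := Nat.mul_le_mul_left _ h8
      _ = a * o + a * (q * L) := by ring
  have h8 : #B * (M * (a + 1) - θ) + 4 ≤ 2 * (a * M) + 2 * (a * (q * L)) + 2 * (q * L) + 2 * L := by
    have e1 : (q + 1) * (2 * (M * (a + 1))) = 2 * (a * (q * M)) + 2 * (q * M) + 2 * (a * M) +
      2 * M := by ring
    have e2 : o * (a + 1) = a * o + o := by ring
    have e3 : q * (M + 5) = q * M + q * 5 := by ring
    omega
  -- divide by `M (a + 1)`
  have h9 : 999 * (#B * (M * (a + 1))) ≤ 1000 * (#B * (M * (a + 1) - θ)) := by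
    have h10 : 999 * (M * (a + 1)) ≤ 1000 * (M * (a + 1) - θ) := by
      have e1 : M * (a + 1) = a * M + M := by ring
      omega
    calc 999 * (#B * (M * (a + 1))) = #B * (999 * (M * (a + 1))) := by ring
      _ ≤ #B * (1000 * (M * (a + 1) - θ)) := Nat.mul_le_mul_left _ h10
      _ = 1000 * (#B * (M * (a + 1) - θ)) := by ring
  have h10 : (M * (a + 1)) * (1000 * #B) ≤ (M * (a + 1)) * (3000 + q) := by
    have e1 : (M * (a + 1)) * (1000 * #B) = 1000 * (#B * (M * (a + 1))) := by ring
    have e2 : (M * (a + 1)) * (3000 + q) = 3000 * (a * M) + 3000 * M + a * (q * M) + q * M := by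
      ring
    have e3 : a * (1000000 * (q * (L + 1))) = 1000000 * (a * (q * L)) + 1000000 * (a * q) := by
      ring
    have e4 : 1000000 * (q * (L + 1)) = 1000000 * (q * L) + 1000000 * q := by ring
    omega
  exact Nat.le_of_mul_le_mul_left h10 (by positivity)

end

end Pool.Agent.Lib.MPa7239a.RX
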