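import Pool.Agent.Lib.MP_a7239a_co.RX.FATQ
import Pool.Agent.Lib.MP_a7239a_co.RB.GAME

/-!
# `o ≤ M` and a fat row (RX, module ZROX, helper15)

`zrow`: omit a minimal set `Z` outside the fat row `u` with the right sum of differences (at most
`o - 1` elements, `exists_zero_part`) and `c - #Z` elements of the row `u`.
-/

set_option autoImplicit false

open Finset

namespace Pool.Agent.Lib.MPa7239a.RX

open Pool.Agent.Lib.MPa7239a.RB
open Pool.Agent.Lib.MPa7239a.RH
open Pool.Agent.Lib.MPa7239a.RF (exc excess pos pos_cast pos_ge pos_lt pos_of pos_inj mem_near_iff GameF ww)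

namespace ZROXM

/-- a part of `f` with the same sum and fewer than `o` elements -/
theorem exists_small {o : ℕ} [NeZero o] (f : ZMod o → ℕ) :
    ∃ Z : ZMod o → ℕ, (∀ u, Z u ≤ f u) ∧ ∑ u, Z u < o ∧ ∑ u, Z u • u = ∑ u, f u • u := by
  have hex : ∃ k : ℕ, ∃ Z : ZMod o → ℕ, (∀ u, Z u ≤ f u) ∧ ∑ u, Z u = k ∧
      ∑ u, Z u • u = ∑ u, f u • u := ⟨_, f, fun _ => le_rfl, rfl, rfl⟩
  classical
  obtain ⟨Z, h1, h2, h3⟩ := Nat.find_spec hex
  refine ⟨Z, h1, ?_, h3⟩
  by_contra hcon
  obtain ⟨k, hk, hk1, -, hk0⟩ := exists_zero_part (f := Z) (by omega)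
  refine Nat.find_min hex (m := ∑ u, (Z u - k u)) ?_ ⟨fun u => Z u - k u, fun u => ?_, rfl, ?_⟩
  · rw [← h2]
    have e1 : ∑ u, (Z u - k u) + ∑ u, k u = ∑ u, Z u := by
      rw [← sum_add_distrib]
      exact sum_congr rfl fun u _ => Nat.sub_add_cancel (hk u)
    omega
  · exact (Nat.sub_le _ _).trans (h1 u)
  · have e1 : ∑ u, (Z u - k u) • u + ∑ u, k u • u = ∑ u, Z u • u := by
      rw [← sum_add_distrib]
      refine sum_congr rfl fun u _ => ?_
      rw [← add_smul, Nat.sub_add_cancel (hk u)]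
    rw [hk0, add_zero] at e1
    rw [e1, h3]

end ZROXM

section
variable {o : ℕ} [NeZero o] {r : ZMod o → ℕ} {M s n c q L D θ : ℕ}

open ZROXM

/-- **ZROW** -/
theorem zrow (N : NumX r M s n c q L D) (g : GameF r (M * s) θ c) (hc : M + 5 ≤ c) (ho : o ≤ M)
    {u : ZMod o} (hfat : M * s + θ ≤ 2 * r u) (hcr : c + 3 ≤ r u) : False := by
  set f : ZMod o → ℕ := fun v => if v = 0 then 0 else r (v + u) with hf
  obtain ⟨Z, hZ, hZo, hZs⟩ := exists_small f
  have hZ0 : Z 0 = 0 := Nat.le_zero.1 ((hZ 0).trans_eq (if_pos rfl))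
  have hZr : ∀ v, Z v ≤ r (v + u) := fun v => (hZ v).trans (by
    simp only [hf]
    split_ifs <;> omega)
  set K := ∑ v, Z v with hK
  -- the omitted numbers
  set d : ZMod o → ℕ := fun v => if v = u then c - K else Z (v - u) with hd
  have e0 : ∀ v, d v = Z (v - u) + (if v = u then c - K else 0) := by
    intro v
    simp only [hd]
    split_ifs with h
    · rw [h, sub_self, hZ0, zero_add]
    · rfl
  have e1 : ∑ v, Z (v - u) = K := Fintype.sum_equiv (Equiv.subRight u) _ _ fun v => rfl
  have hdc : ∑ v, d v = c := by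
    rw [sum_congr rfl fun v _ => e0 v, sum_add_distrib, e1, sum_ite_eq' univ u, if_pos (mem_univ _)]
    omega
  have hn : (n : ℕ) • u = 0 := by
    rw [← N.os, nsmul_eq_mul, Nat.cast_mul, ZMod.natCast_self, zero_mul, zero_mul]
  have e2 : ∑ v, Z (v - u) • v = ∑ v, f v • v + K • u := by
    have e3 : ∑ v, Z (v - u) • v = ∑ v, Z v • (v + u) := by
      refine Fintype.sum_equiv (Equiv.subRight u) _ _ fun v => ?_
      rw [Equiv.subRight_apply, sub_add_cancel]
    rw [e3, ← hZs, hK, sum_smul, ← sum_add_distrib]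
    exact sum_congr rfl fun v _ => smul_add _ _ _
  have e4 : ∑ v, f v • v = ∑ v, r (v + u) • v := by
    refine sum_congr rfl fun v _ => ?_
    simp only [hf]
    split_ifs with h
    · rw [h, smul_zero, smul_zero]
    · rfl
  have e5 : ∑ v, r v • v = ∑ v, r (v + u) • v + (n + c) • u := by
    have e6 : ∑ v, r v • v = ∑ v, r (v + u) • (v + u) :=
      (Fintype.sum_equiv (Equiv.addRight u) _ _ fun v => rfl).symm
    have e7 : ∑ v, r (v + u) = n + c := by
      rw [← N.total]
      exact Fintype.sum_equiv (Equiv.addRight u) _ _ fun v => rfl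
    rw [e6, ← e7, sum_smul, ← sum_add_distrib]
    exact sum_congr rfl fun v _ => smul_add _ _ _
  have hA : Adm r c d := by
    refine ⟨fun v => ?_, hdc, ?_⟩
    · simp only [hd]
      split_ifs with h
      · rw [h]
        omega
      · have := hZr (v - u)
        rwa [sub_add_cancel] at this
    · have e8 : ∑ v, d v • v = ∑ v, Z (v - u) • v + (c - K) • u := by
        rw [sum_congr rfl fun v _ => by rw [e0 v, add_smul], sum_add_distrib]
        congr 1
        rw [sum_congr rfl fun v _ => by rw [ite_smul, zero_smul], sum_ite_eq' univ u,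
          if_pos (mem_univ _)]
      rw [e8, e2, e4, e5, add_assoc, ← add_smul, add_smul n c, hn, zero_add]
      congr 2
      omega
  have hdu : d u = c - K := if_pos rfl
  exact g.rule1 d hA u hfat (by omega) (by omega)

end

end Pool.Agent.Lib.MPa7239a.RX
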